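import Pool.Agent.MP_aea6d5_co.CDecode

/-! Assembly at a contact and attachment of several small polygons, with the information that the
translated small polygons are above the polygon. -/

set_option autoImplicit false

namespace Pool.Agent.KSing

open Pool.Agent.LK

/-- As `assemble2`, with the last two properties. -/
theorem assemble3 {CE CF CR : Finset (Sym2 P3) → Prop} (mE : MoveClosed CE)
    (mF : MoveClosed (fun F => CF (negE F)))
    (shiftF : ∀ F, CF F → ∀ t : P3, CF (shift t F))
    (hjoin : ∀ E F x y h, CE E → CF F → Below E F → s((x, y, h), (x + 1, y, h)) ∈ E →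
      s((x, y, h + 1), (x + 1, y, h + 1)) ∈ F → CR (joinZ E F x y h))
    {E F : Finset (Sym2 P3)} (hE : CE E) (hF : CF F) {p q N : P3}
    (hp : p ∈ verts E) (hq : q ∈ verts F) {x y z : P3} (hFr : Fr x y z)
    (hxy' : dot N y ≤ dot N x) (hyz' : dot N z ≤ dot N y) (hz0 : 0 ≤ dot N z)
    (hM : 1000000 ≤ dot N x) (hN : 0 ≤ N.2.2)
    (hfree : ∀ s : P3, nsq s < 2 * dot N s → ∀ t : ℤ, 0 ≤ t → ∀ u ∈ verts E, ∀ v ∈ verts F,
      u - v ≠ (p - q) + s + (0, 0, t)) :
    ∃ R E' F' a w, Joined CE CF CR E F (p - q) R E' F' p a w ∧ Below E (shift w F) ∧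
      Below E' (shift w F) := by
  set M := dot N x with hMdef
  have lb : ∀ {r : ℤ} {v : P3}, Box r v → -(3 * r * M) ≤ dot N v := fun h =>
    le_dot_box hFr hxy' hyz' hz0 h
  have z0 : ((0, 0, 0) : P3) = 0 := rfl
  -- local half spaces
  have locE : Loc E p N := by
    intro u hu
    by_contra hlt
    push Not at hlt
    refine hfree (u - p) hlt 0 le_rfl u hu q hq ?_
    rw [z0]; abel
  have locF : Loc (negE F) (-q) N := by
    intro u hu
    by_contra hlt
    push Not at hlt
    refine hfree (u - -q) hlt 0 le_rfl p hp (-u) (mem_verts_negE.1 hu) ?_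
    rw [z0]; abel
  obtain ⟨E', a, cE', eE', chE', aB, vE', hE'⟩ := surgery mE hE hp locE hFr hxy' hyz' hz0
    (by omega) hN
  obtain ⟨G, b, cG, eG, chG, bB, vG, hG⟩ := surgery mF
    (show CF (negE (negE F)) by rw [negE_negE]; exact hF)
    (mem_verts_negE.2 (by simpa using hq)) locF hFr hxy' hyz' hz0 (by omega) hN
  rw [← hMdef] at vE' hE' vG hG
  set w : P3 := a + (0, 0, 1) + b + (1, 0, 0) with hw
  set F' := shift w (negE G) with hF'
  have cF' : CF F' := shiftF _ cG w
  have memF' : ∀ v, v ∈ verts F' → -(v - w) ∈ verts G := fun v hv =>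
    mem_verts_negE.1 (mem_verts_shift.1 hv)
  have memF : ∀ v, v ∈ verts (negE F) ↔ -v ∈ verts F := fun v => mem_verts_negE
  -- the offset
  have hτ : w - (p - q) = (a - p) + (b - -q) + (1, 0, 0) + (0, 0, 1) := by rw [hw]; abel
  have u1 : Box 1 ((1, 0, 0) : P3) := by simp [Box]
  have u3 : Box 1 ((0, 0, 1) : P3) := by simp [Box]
  have hτB : Box 442 (w - (p - q)) := by
    rw [hτ]; exact ((aB.add bB).add u1).add u3
  have hN3 : dot N (0, 0, 1) = N.2.2 := by simp [dot]
  have hN1 : -(3 * 1 * M) ≤ dot N (1, 0, 0) := lb u1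
  have hτN : dot N (w - (p - q)) = dot N (a - p) + dot N (b - -q) + dot N (1, 0, 0) +
      dot N (0, 0, 1) := by rw [hτ, dot_add, dot_add, dot_add]
  -- no old-old coincidences
  have oo : ∀ u ∈ verts E, ∀ v, -(v - w) ∈ verts (negE F) → ∀ (η : P3) (t : ℤ), Box 1 η → 0 ≤ t →
      u ≠ v + η + (0, 0, t) := by
    intro u hu v hv η t hη ht he
    have hv' : v - w ∈ verts F := by
      have := (memF _).1 hv
      rwa [neg_neg] at this
    refine hfree (w - (p - q) + η) ?_ t ht u hu (v - w) hv' ?_
    · have h1 := nsq_box (hτB.add hη)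
      have h2 := lb hη
      rw [dot_add, hτN, hN3]
      omega
    · rw [he]; abel
  have no : ∀ u, Box 220 (u - p) → dot N (u - p) ≤ dot N (a - p) + 100 * M →
      ∀ v, -(v - w) ∈ verts (negE F) → ∀ t : ℤ, 0 ≤ t → u ≠ v + (0, 0, t) := by
    intro u hu hu' v hv t ht he
    have hv' : v - w ∈ verts F := by
      have := (memF _).1 hv
      rwa [neg_neg] at this
    refine hfree (w - (p - q) - (u - p)) ?_ t ht p hp (v - w) hv' ?_
    · have h1 := nsq_box (hτB.sub hu)
      rw [dot_sub, hτN, hN3]
      omega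
    · rw [he]; abel
  have on : ∀ v, Box 220 (-(v - w) - -q) → dot N (-(v - w) - -q) ≤ dot N (b - -q) + 100 * M →
      ∀ u ∈ verts E, ∀ t : ℤ, 0 ≤ t → u ≠ v + (0, 0, t) := by
    intro v hv hv' u hu t ht he
    refine hfree (w - (p - q) - (-(v - w) - -q)) ?_ t ht u hu q hq ?_
    · have h1 := nsq_box (hτB.sub hv)
      rw [dot_sub, hτN, hN3]
      omega
    · rw [he]; abel
  have hbelow : Below E' F' := by
    intro u hu v hv hx' hy'
    by_contra hlt
    push Not at hlt
    have he : u = v + (0, 0, u.2.2 - v.2.2) := by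
      refine Prod.ext ?_ (Prod.ext ?_ ?_)
      · simpa using hx'
      · simpa using hy'
      · simp
    have he0 : u = v + 0 + (0, 0, u.2.2 - v.2.2) := by rw [add_zero]; exact he
    rcases vE' u hu with h1 | ⟨h1, h1z, h1N⟩ <;>
      rcases vG _ (memF' v hv) with h2 | ⟨h2, h2z, h2N⟩
    · exact oo u h1 v h2 0 _ (by simp [Box]) (by omega) he0
    · exact on v h2 h2N u h1 _ (by omega) he
    · exact no u h1 h1N v h2 _ (by omega) he
    · have hwz : w.2.2 = a.2.2 + 1 + b.2.2 := by rw [hw]; simp
      simp only [Prod.snd_neg, Prod.snd_sub] at h2z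
      omega
  have edgeE : s((a.1, a.2.1, a.2.2), ((a.1 + 1, a.2.1, a.2.2) : P3)) ∈ E' := by
    have : a + (1, 0, 0) = (a.1 + 1, a.2.1, a.2.2) := by
      refine Prod.ext ?_ (Prod.ext ?_ ?_) <;> simp
    rw [this] at eE'
    exact eE'
  have eF' : s(a + (0, 0, 1), a + (0, 0, 1) + (1, 0, 0)) ∈ F' := by
    rw [hF', mem_shift, mem_negE]
    have e1 : -(a + (0, 0, 1) - w) = b + (1, 0, 0) := by rw [hw]; abel
    have e2 : -(a + (0, 0, 1) + (1, 0, 0) - w) = b := by rw [hw]; abel
    rw [e1, e2, Sym2.eq_swap]
    exact eG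
  have edgeF : s((a.1, a.2.1, a.2.2 + 1), ((a.1 + 1, a.2.1, a.2.2 + 1) : P3)) ∈ F' := by
    have e1 : a + (0, 0, 1) = (a.1, a.2.1, a.2.2 + 1) := by
      refine Prod.ext ?_ (Prod.ext ?_ ?_) <;> simp
    have e2 : a + (0, 0, 1) + (1, 0, 0) = (a.1 + 1, a.2.1, a.2.2 + 1) := by
      refine Prod.ext ?_ (Prod.ext ?_ ?_) <;> simp
    rw [e2, e1] at eF'
    exact eF'
  have chE'' : ChangedIn a 440 E E' := by
    have : Box 220 (p - a) := by
      have e : p - a = -(a - p) := by abel
      rw [e]; exact aB.neg
    exact chE'.shift this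
  have chF'' : ChangedIn a 443 (shift w F) F' := by
    have h1 := (chG.negE).shiftE (w := w)
    rw [negE_negE, neg_neg] at h1
    have : Box 222 (q + w - a) := by
      have e : q + w - a = (b - -q) + (1, 0, 0) + (0, 0, 1) := by rw [hw]; abel
      rw [e]; exact (bB.add u1).add u3
    exact (h1.shift this).mono (by norm_num)
  have hb1 : Below E (shift w F) := by
    intro u hu v hv hx' hy'
    by_contra hlt
    push Not at hlt
    have he0 : u = v + 0 + (0, 0, u.2.2 - v.2.2) := by
      refine Prod.ext ?_ (Prod.ext ?_ ?_)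
      · simpa using hx'
      · simpa using hy'
      · simp
    refine oo u hu v ?_ 0 _ (by simp [Box]) (by omega) he0
    rw [memF, neg_neg]
    exact mem_verts_shift.1 hv
  have hb2 : Below E' (shift w F) := by
    intro u hu v hv hx' hy'
    by_contra hlt
    push Not at hlt
    have he : u = v + (0, 0, u.2.2 - v.2.2) := by
      refine Prod.ext ?_ (Prod.ext ?_ ?_)
      · simpa using hx'
      · simpa using hy'
      · simp
    have he0 : u = v + 0 + (0, 0, u.2.2 - v.2.2) := by rw [add_zero]; exact he
    have h2 : -(v - w) ∈ verts (negE F) := by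
      rw [memF, neg_neg]
      exact mem_verts_shift.1 hv
    rcases vE' u hu with h1 | ⟨h1, h1z, h1N⟩
    · exact oo u h1 v h2 0 _ (by simp [Box]) (by omega) he0
    · exact no u h1 h1N v h2 _ (by omega) he
  refine ⟨joinZ E' F' a.1 a.2.1 a.2.2, E', F', a, w, ⟨
    hjoin _ _ _ _ _ cE' cF' hbelow edgeE edgeF, cE', cF', hbelow, eE', eF', rfl, hp, ?_, ?_,
    hτB.mono (by norm_num), ?_, chE''.mono (by norm_num), chF''.mono (by norm_num), ?_⟩,
    hb1, hb2⟩
  · intro u hu hu'
    refine oo u hu u ?_ 0 0 (by simp [Box]) le_rfl ?_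
    · rw [memF, neg_neg]
      exact mem_verts_shift.1 hu'
    · rw [z0]; simp
  · have e : p - a = -(a - p) := by abel
    rw [e]; exact aB.neg.mono (by norm_num)
  · -- locality of the join
    have h1 : ChangedIn a 443 (E ∪ shift w F) (E' ∪ F') :=
      (chE''.mono (by norm_num)).union chF''
    refine (h1.mono (by norm_num)).trans ?_
    have key : ∀ u v : P3, (s(u, v) = s((a.1, a.2.1, a.2.2), (a.1 + 1, a.2.1, a.2.2)) ∨
        s(u, v) = s((a.1, a.2.1, a.2.2 + 1), (a.1 + 1, a.2.1, a.2.2 + 1)) ∨
        s(u, v) = s((a.1, a.2.1, a.2.2), (a.1, a.2.1, a.2.2 + 1)) ∨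
        s(u, v) = s((a.1 + 1, a.2.1, a.2.2), (a.1 + 1, a.2.1, a.2.2 + 1))) →
        Box 1000 (u - a) ∧ Box 1000 (v - a) := by
      intro u v h
      rcases h with h | h | h | h <;> rw [Sym2.eq_iff] at h <;>
        rcases h with ⟨rfl, rfl⟩ | ⟨rfl, rfl⟩ <;>
        simp [Box]
    intro u v huv
    rw [mem_joinZ] at huv
    apply key
    simp only [Finset.mem_union] at huv
    tauto
  · intro u hu v hv huv
    have new1 : Box 220 (u - p) → Box 1000 (u - a) ∧ Box 1000 (v - a) := by
      intro h1
      have e1 : u - a = (u - p) - (a - p) := by abel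
      have e2 : v - a = (u - p) - (a - p) - (u - v) := by abel
      rw [e2, e1]
      exact ⟨(h1.sub aB).mono (by norm_num), ((h1.sub aB).sub huv).mono (by norm_num)⟩
    have new2 : Box 220 (-(v - w) - -q) → Box 1000 (u - a) ∧ Box 1000 (v - a) := by
      intro h1
      have e2 : v - a = (b - -q) - (-(v - w) - -q) + (1, 0, 0) + (0, 0, 1) := by rw [hw]; abel
      have e1 : u - a = (b - -q) - (-(v - w) - -q) + (1, 0, 0) + (0, 0, 1) + (u - v) := by
        rw [hw]; abel
      rw [e1, e2]
      exact ⟨((((bB.sub h1).add u1).add u3).add huv).mono (by norm_num),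
        (((bB.sub h1).add u1).add u3).mono (by norm_num)⟩
    rcases vE' u hu with h1 | ⟨h1, -⟩
    · rcases vG _ (memF' v hv) with h2 | ⟨h2, -⟩
      · exfalso
        refine oo u h1 v h2 (u - v) 0 huv le_rfl ?_
        rw [z0]; abel
      · exact new2 h2
    · exact new1 h1


/-- As `Con.joined`, with the last two properties. -/
theorem joined3 {CE CF CR : Finset (Sym2 P3) → Prop} (mE : MoveClosed CE)
    (mF : MoveClosed (fun F => CF (negE F)))
    (shiftF : ∀ F, CF F → ∀ t : P3, CF (shift t F))
    (hjoin : ∀ E F x y h, CE E → CF F → Below E F → s((x, y, h), (x + 1, y, h)) ∈ E →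
      s((x, y, h + 1), (x + 1, y, h + 1)) ∈ F → CR (joinZ E F x y h))
    {E F : Finset (Sym2 P3)} (hE : CE E) (hF : CF F) {p q N : P3} (h : Con E F p q N) :
    ∃ R E' F' a w, Joined CE CF CR E F (p - q) R E' F' p a w ∧ Below E (shift w F) ∧
      Below E' (shift w F) := by
  obtain ⟨x, y, z, hFr, h1, h2, h3⟩ := exists_frame N
  have hM : 1000000 ≤ dot N x := by
    have := nsq_le_of_frame hFr h1 h2 h3
    have hN := h.hN
    by_contra hlt
    push Not at hlt
    have h0 : 0 ≤ dot N x := by omega
    nlinarith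
  exact assemble3 mE mF shiftF hjoin hE hF h.hp h.hq hFr h1 h2 h3 hM h.hN0 h.free

/-- As `build`, with the last two properties. -/
theorem build3 {ι : Type} [DecidableEq ι] {G : Subgroup (R3 ≃ₜ R3)} {P : Finset (Sym2 P3)}
    {K K0 : ι → Finset (Sym2 P3)} {p q N : ι → P3} {S : Finset ι}
    (hG : BigGroup G) {m B : ℕ}
    (hB : ∀ (a : P3) (E E' : Finset (Sym2 P3)), ChangedIn a 1000 E E' → E'.card ≤ E.card + B)
    {D : ℤ} (hD : 10000000 + 10 * ((m : ℤ) + B) ≤ D) (hP : UClass P)
    (hm : ∀ j ∈ S, (K0 j).card ≤ m) (hK0 : ∀ j ∈ S, GClass G (K j) (K0 j))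
    (hcon : ∀ j ∈ S, Con P (K0 j) (p j) (q j) (N j))
    (hfar : ∀ i ∈ S, ∀ j ∈ S, i ≠ j → HFar D (p i) (p j)) :
    ∃ C F a w, Built G P K K0 p q S C F a w ∧ (∀ j ∈ S, Below P (shift (w j) (K0 j))) ∧
      ∀ j ∈ S, Below C (shift (w j) (K0 j)) := by
  induction S using Finset.induction_on with
  | empty =>
    refine ⟨P, fun _ => ∅, fun _ => 0, fun _ => 0,
      ⟨hP, ?_, ?_, ?_, ?_, ?_, ?_, ?_, ?_, ?_, ?_⟩, ?_, ?_⟩
    all_goals try (intro j hj; exact absurd hj (Finset.notMem_empty j))
    intro u v huv
    tauto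
  | insert j S hj ih =>
    obtain ⟨C, F, a, w, h, hbP, hbC⟩ := ih (fun i hi => hm i (Finset.mem_insert_of_mem hi))
      (fun i hi => hK0 i (Finset.mem_insert_of_mem hi))
      (fun i hi => hcon i (Finset.mem_insert_of_mem hi))
      (fun i hi i' hi' => hfar i (Finset.mem_insert_of_mem hi) i' (Finset.mem_insert_of_mem hi'))
    have hmS : ∀ i ∈ S, (K0 i).card ≤ m := fun i hi => hm i (Finset.mem_insert_of_mem hi)
    have hjm : j ∈ insert j S := Finset.mem_insert_self j S
    have hne : ∀ i ∈ S, i ≠ j := fun i hi e => hj (e ▸ hi)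
    have hfj : ∀ i ∈ S, HFar D (p i) (p j) := fun i hi =>
      hfar i (Finset.mem_insert_of_mem hi) j hjm (hne i hi)
    have hcj := hcon j hjm
    have hap : ∀ i ∈ S, Box 1000 (a i - p i) := by
      intro i hi
      have e : a i - p i = -(p i - a i) := by abel
      rw [e]; exact (h.pa i hi).neg
    -- the vertices of `C`
    have vC : ∀ u ∈ verts C, u ∈ verts P ∨ ∃ i ∈ S, Box 1000 (u - a i) := by
      rintro u ⟨v, huv⟩
      by_cases h1 : s(u, v) ∈ P
      · exact Or.inl (left_mem_verts h1)
      · obtain ⟨i, hi, h2, -⟩ := h.chC u v (Or.inr ⟨h1, huv⟩)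
        exact Or.inr ⟨i, hi, h2⟩
    have vP : ∀ u ∈ verts P, u ∈ verts C ∨ ∃ i ∈ S, Box 1000 (u - a i) := by
      rintro u ⟨v, huv⟩
      by_cases h1 : s(u, v) ∈ C
      · exact Or.inl (left_mem_verts h1)
      · obtain ⟨i, hi, h2, -⟩ := h.chC u v (Or.inl ⟨huv, h1⟩)
        exact Or.inr ⟨i, hi, h2⟩
    have nearfar : ∀ i ∈ S, ∀ u, Box 1000 (u - a i) → HFar (D - 3000) u (p j) := by
      intro i hi u hu
      have h1 : Box 2000 (u - p i) := by
        have e : u - p i = (u - a i) + (a i - p i) := by abel
        rw [e]; exact (hu.add (hap i hi)).mono (by norm_num)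
      exact (hfj i hi).move (r := 2000) (r' := 0) (by omega) h1 (box_zero _)
    have hqm : ∀ v ∈ verts (K0 j), Box m (v - q j) := by
      intro v hv
      have := diam_le (hK0 j hjm).1 hv hcj.hq
      exact this.mono (by exact_mod_cast hm j hjm)
    have hcon' : Con C (K0 j) (p j) (q j) (N j) := by
      refine hcj.far hqm ?_ ?_
      · rcases vP _ hcj.hp with h1 | ⟨i, hi, h1⟩
        · exact h1
        · exfalso
          have h2 := nearfar i hi _ h1
          exact h2.not_box (r := 0) (by omega) (box_zero _)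
      · intro u hu
        rcases vC u hu with h1 | ⟨i, hi, h1⟩
        · exact Or.inl h1
        · right
          exact (nearfar i hi u h1).move (r := 0) (r' := 0) (by omega) (box_zero _) (box_zero _)
    obtain ⟨R, C', F', a', w', hJ, hJ1, hJ2⟩ := joined3 (CR := fun _ => True) unknotClosedZ.move
      ((GClass.move hG (K j)).negE) (fun F hF t => hF.shift hG t)
      (fun _ _ _ _ _ _ _ _ _ _ => trivial) h.cC (hK0 j hjm) hcon'
    have ha'p : Box 1000 (a' - p j) := by
      have e : a' - p j = -(p j - a') := by abel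
      rw [e]; exact hJ.pa.neg
    -- everything near `a'` is far from everything near `a i`
    have far1 : ∀ i ∈ S, HFar (D - 2000) (a i) a' := by
      intro i hi
      exact (hfj i hi).move (r := 1000) (r' := 1000) (by omega) (hap i hi) ha'p
    have vC' : ∀ u ∈ verts C', u ∈ verts C ∨ Box 1000 (u - a') := by
      rintro u ⟨v, huv⟩
      by_cases h1 : s(u, v) ∈ C
      · exact Or.inl (left_mem_verts h1)
      · exact Or.inr (hJ.chE u v (Or.inr ⟨h1, huv⟩)).1
    have farF : ∀ i ∈ S, ∀ v ∈ verts (F i), ∀ u, Box 1000 (u - a') → HFar 1 u v := by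
      intro i hi v hv u hu
      have h1 := h.near hB hmS hi hv
      exact ((far1 i hi).symm.move (r := 1000) (r' := m + B + 1) (by omega) hu h1)
    have old : ∀ u v i, i ∈ S → Box 1000 (u - a i) → (s(u, v) ∈ C ↔ s(u, v) ∈ C') := by
      intro u v i hi hu
      refine hJ.chE.iff_far ?_
      rintro ⟨h1, -⟩
      have h2 : HFar (D - 3000) u a' := (far1 i hi).move (r := 1000) (r' := 0) (by omega) hu
        (box_zero _)
      exact h2.not_box (by omega) h1
    refine ⟨C', Function.update F j F', Function.update a j a', Function.update w j w', ⟨hJ.cE,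
      ?_, ?_, ?_, ?_, ?_, ?_, ?_, ?_, ?_, ?_⟩, ?_, ?_⟩
    · intro i hi
      rcases Finset.mem_insert.1 hi with rfl | hi
      · rw [Function.update_self]; exact hJ.cF
      · rw [Function.update_of_ne (hne i hi)]; exact h.cF i hi
    · intro i hi
      rcases Finset.mem_insert.1 hi with rfl | hi
      · rw [Function.update_self]; exact hJ.below
      · rw [Function.update_of_ne (hne i hi)]
        intro u hu v hv h1 h2
        rcases vC' u hu with h3 | h3
        · exact h.below i hi u h3 v hv h1 h2
        · exact ((farF i hi v hv u h3).col (by norm_num) ⟨h1, h2⟩).elim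
    · intro i hi
      rcases Finset.mem_insert.1 hi with rfl | hi
      · rw [Function.update_self]; exact hJ.eE
      · rw [Function.update_of_ne (hne i hi)]
        exact (old _ _ i hi ((box_zero _).mono (by norm_num))).1 (h.eE i hi)
    · intro i hi
      rcases Finset.mem_insert.1 hi with rfl | hi
      · rw [Function.update_self, Function.update_self]; exact hJ.eF
      · rw [Function.update_of_ne (hne i hi), Function.update_of_ne (hne i hi)]; exact h.eF i hi
    · intro i hi
      rcases Finset.mem_insert.1 hi with rfl | hi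
      · rw [Function.update_self, Function.update_self]; exact hJ.sep
      · rw [Function.update_of_ne (hne i hi), Function.update_of_ne (hne i hi)]
        intro u hu v hv huv
        rcases vC' u hu with h3 | h3
        · exact h.sep i hi u h3 v hv huv
        · exact ((farF i hi v hv u h3).not_box le_rfl huv).elim
    · intro i hi
      rcases Finset.mem_insert.1 hi with rfl | hi
      · rw [Function.update_self]; exact hJ.pa
      · rw [Function.update_of_ne (hne i hi)]; exact h.pa i hi
    · intro i hi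
      rcases Finset.mem_insert.1 hi with rfl | hi
      · rw [Function.update_self]; exact hJ.wd
      · rw [Function.update_of_ne (hne i hi)]; exact h.wd i hi
    · intro i hi
      rcases Finset.mem_insert.1 hi with rfl | hi
      · rw [Function.update_self, Function.update_self, Function.update_self]; exact hJ.chF
      · rw [Function.update_of_ne (hne i hi), Function.update_of_ne (hne i hi),
          Function.update_of_ne (hne i hi)]
        exact h.chF i hi
    · intro u v huv
      by_cases h1 : s(u, v) ∈ C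
      · by_cases h2 : s(u, v) ∈ C'
        · obtain ⟨i, hi, h3⟩ := h.chC u v (by tauto)
          exact ⟨i, Finset.mem_insert_of_mem hi, by rwa [Function.update_of_ne (hne i hi)]⟩
        · exact ⟨j, hjm, by rw [Function.update_self]; exact hJ.chE u v (Or.inl ⟨h1, h2⟩)⟩
      · by_cases h2 : s(u, v) ∈ C'
        · exact ⟨j, hjm, by rw [Function.update_self]; exact hJ.chE u v (Or.inr ⟨h1, h2⟩)⟩
        · obtain ⟨i, hi, h3⟩ := h.chC u v (by tauto)
          exact ⟨i, Finset.mem_insert_of_mem hi, by rwa [Function.update_of_ne (hne i hi)]⟩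
    · intro i hi
      rcases Finset.mem_insert.1 hi with rfl | hi
      · rw [Function.update_self]
        intro u hu hu'
        rcases vP u hu with h1 | ⟨i', hi', h1⟩
        · exact hJ.disj u h1 hu'
        · have h2 := nearfar i' hi' u h1
          have h3 := hqm _ (mem_verts_shift.1 hu')
          have e : u - p i = (u - w' - q i) + (w' - (p i - q i)) := by abel
          have h4 : Box (m + 1000) (u - p i) := by rw [e]; exact h3.add hJ.wd
          exact h2.not_box (by omega) h4
      · rw [Function.update_of_ne (hne i hi)]; exact h.disj i hi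
    · intro i hi
      rcases Finset.mem_insert.1 hi with rfl | hi
      · rw [Function.update_self]
        intro u hu v hv h1 h2
        rcases vP u hu with h3 | ⟨i', hi', h3⟩
        · exact hJ1 u h3 v hv h1 h2
        · have h4 := nearfar i' hi' u h3
          have h5 := hqm _ (mem_verts_shift.1 hv)
          have e : v - p i = (v - w' - q i) + (w' - (p i - q i)) := by abel
          have h6 : Box (m + 1000) (v - p i) := by rw [e]; exact h5.add hJ.wd
          have h7 : HFar 1 u v := h4.move (r := 0) (r' := m + 1000) (by omega) (box_zero _) h6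
          exact (h7.col (by norm_num) ⟨h1, h2⟩).elim
      · rw [Function.update_of_ne (hne i hi)]; exact hbP i hi
    · intro i hi
      rcases Finset.mem_insert.1 hi with rfl | hi
      · rw [Function.update_self]; exact hJ2
      · rw [Function.update_of_ne (hne i hi)]
        intro u hu v hv h1 h2
        rcases vC' u hu with h3 | h3
        · exact hbC i hi u h3 v hv h1 h2
        · have h4 := h.shift_near hmS
            (fun i hi => (hK0 i (Finset.mem_insert_of_mem hi)).1)
            (fun i hi => (hcon i (Finset.mem_insert_of_mem hi)).hq) hi hv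
          have h5 : Box 2000 (u - p j) := by
            have e : u - p j = (u - a') + (a' - p j) := by abel
            rw [e]; exact (h3.add ha'p).mono (by norm_num)
          have h6 : HFar 1 u v :=
            (hfj i hi).symm.move (r := 2000) (r' := m + 1000) (by omega) h5 h4
          exact (h6.col (by norm_num) ⟨h1, h2⟩).elim

end Pool.Agent.KSing
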