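import Pool.Agent.KSing.Signs
import Pool.Agent.MP_aea6d5_co.CSum

/-! The multiple attachment inequality for the type of one tower. -/

set_option autoImplicit false

namespace Pool.Agent.KSing

open Pool.Agent.LK Pool.Agent.KTube Pool.Agent.KTen

private theorem countS_bd (E : ES) : ∃ m : ℕ, ∀ u ∈ verts E, Box m u := by
  classical
  refine ⟨∑ u ∈ (verts_finite E).toFinset, (|u.1| + |u.2.1| + |u.2.2|).toNat, ?_⟩
  intro u hu
  have h1 : (|u.1| + |u.2.1| + |u.2.2|).toNat ≤ ∑ u ∈ (verts_finite E).toFinset,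
      (|u.1| + |u.2.1| + |u.2.2|).toNat :=
    Finset.single_le_sum (f := fun u : P3 => (|u.1| + |u.2.1| + |u.2.2|).toNat)
      (fun _ _ => Nat.zero_le _) ((verts_finite E).mem_toFinset.2 hu)
  have a1 := abs_nonneg u.1
  have a2 := abs_nonneg u.2.1
  have a3 := abs_nonneg u.2.2
  refine ⟨?_, ?_, ?_⟩ <;> omega

/-- **The multiple attachment inequality for a tower.** -/
theorem cpairT (hNC : NCStatement) {N : ℕ} {K0 : Fin N → ES} {h : Fin N → ℕ} {z : Fin N → ℤ}
    {R : ES} (hK : ∀ j, LeftOf (K0 j) (h j) (z j)) (hkn : ∀ j, ¬ Unknotted (K0 j))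
    (hR : Tow (List.ofFn fun j => (K0 j, h j, z j)) R) :
    ∃ (A : ℝ) (L B κ : ℕ), 0 < A ∧ ∀ n : ℕ, A * N ≤ (n : ℝ) ^ (2 / 3 : ℝ) →
      ((n : ℝ) ^ (2 / 3 : ℝ) / A) ^ N * (count UClass n : ℝ) ≤
      L * ∑ i ∈ Finset.range (2 * B + 1), (count (KClass R) (n + κ + i - B) : ℝ) := by
  classical
  have hU : ClosedZ UClass := unknotClosedZ
  have hG := bigGroup_top
  choose W0 hW0 using fun j => countS_bd (K0 j)
  obtain ⟨W, hWdef⟩ : ∃ W : ℤ, W = 3 + ((∑ j, W0 j : ℕ) : ℤ) := ⟨_, rfl⟩
  have hW3 : 3 ≤ W := by omega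
  have hKW : ∀ j, ∀ u ∈ verts (K0 j), |u.1| ≤ W - 2 ∧ |u.2.1| ≤ W - 2 := by
    intro j u hu
    obtain ⟨b1, b2, -⟩ := hW0 j u hu
    have h1 : W0 j ≤ ∑ j, W0 j := Finset.single_le_sum (f := W0)
      (fun _ _ => Nat.zero_le _) (Finset.mem_univ j)
    omega
  have hKW1 : ∀ j, ∀ u ∈ verts (K0 j), |u.1| ≤ W - 1 ∧ |u.2.1| ≤ W - 1 := by
    intro j u hu
    have := hKW j u hu
    omega
  obtain ⟨g, hgdef⟩ : ∃ g : ℕ, g = 4001 + ∑ j, h j := ⟨_, rfl⟩
  have hg : ∀ j, 4001 + h j ≤ g := by
    intro j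
    have h1 : h j ≤ ∑ j, h j := Finset.single_le_sum (f := h)
      (fun _ _ => Nat.zero_le _) (Finset.mem_univ j)
    omega
  obtain ⟨V, H, hV⟩ := exists_umb W g
  obtain ⟨k, hk⟩ : ∃ k : ℤ, k = H + 4000 := ⟨_, rfl⟩
  obtain ⟨Vb, hVb⟩ := countS_bd V
  obtain ⟨m, hmdef⟩ : ∃ m : ℕ, m = (∑ j, ∑ s : Option Bool,
      (att (K0 j) (h j) (z j) s (0, 0) V k).card) + V.card + W.toNat + Vb := ⟨_, rfl⟩
  have hmA : ∀ (j : Fin N) (s : Option Bool),
      (att (K0 j) (h j) (z j) s (0, 0) V k).card ≤ m := by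
    intro j s
    have h1 : (att (K0 j) (h j) (z j) s (0, 0) V k).card ≤ ∑ s : Option Bool,
        (att (K0 j) (h j) (z j) s (0, 0) V k).card :=
      Finset.single_le_sum (f := fun s : Option Bool => (att (K0 j) (h j) (z j) s (0, 0) V k).card)
        (fun _ _ => Nat.zero_le _) (Finset.mem_univ s)
    have h2 : (∑ s : Option Bool, (att (K0 j) (h j) (z j) s (0, 0) V k).card) ≤
        ∑ j, ∑ s : Option Bool, (att (K0 j) (h j) (z j) s (0, 0) V k).card :=
      Finset.single_le_sum (f := fun j => ∑ s : Option Bool,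
        (att (K0 j) (h j) (z j) s (0, 0) V k).card) (fun _ _ => Nat.zero_le _) (Finset.mem_univ j)
    omega
  have hmV : V.card ≤ m := by omega
  have hWm : W ≤ m := by omega
  have hmX : ∀ σ : Fin N → Option Bool, ∀ j ∈ (Finset.univ : Finset (Fin N)),
      (Xs V k K0 h z σ j).card ≤ m := fun σ j _ => hmA j (σ j)
  have hXP : ∀ σ : Fin N → Option Bool, ∀ j ∈ (Finset.univ : Finset (Fin N)),
      IsPolygon (Xs V k K0 h z σ j) := fun σ j _ =>
    isPolygon_att (σ j) (hK j) hV.poly (hKW1 j)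
      (hV.mast (by omega) (by have := hg j; omega) W)
  have hVq : ∀ q ∈ verts V, Box m q := by
    intro q hq
    exact (hVb q hq).mono (by omega)
  obtain ⟨B, hBdef, hB⟩ : ∃ B : ℕ, B = (boxE 1000).card ∧ ∀ (a : P3) (E E' : Finset (Sym2 P3)),
      ChangedIn a 1000 E E' → E'.card ≤ E.card + B := ⟨_, rfl, fun a E E' h => h.card_le⟩
  obtain ⟨D, hD⟩ : ∃ D : ℤ, D = 10000000 + 10 * ((m : ℤ) + B) := ⟨_, rfl⟩
  obtain ⟨M, hM⟩ : ∃ M : ℕ, M = 20000000 + 20 * (m + B) := ⟨_, rfl⟩
  have hM0 : 0 < M := by omega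
  have hMp : (0 : ℝ) < (M : ℝ) ^ 2 := pow_pos (Nat.cast_pos.2 hM0) 2
  have hMR : (0 : ℝ) < 2 * (M : ℝ) ^ 2 := mul_pos two_pos hMp
  choose Y hYs hYc hYf using fun P : Finset (Sym2 P3) => exists_sparse hM0 (colsF P)
  -- the contacts
  have hcon : ∀ (P : Finset (Sym2 P3)) (j : Fin N) (c : ℤ × ℤ), ∃ p q Nv, c ∈ cols P →
      Con P V p q Nv ∧ |p.1 - c.1| ≤ 2000000 + m ∧ |p.2.1 - c.2| ≤ 2000000 + m := by
    intro P j c
    by_cases hc : c ∈ cols P
    · obtain ⟨p, q, Nv, h⟩ := exists_con (P := P) (m := m) hV.poly.verts_nonempty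
        (fun u hu v hv => (diam_le hV.poly hu hv).mono (by exact_mod_cast hmV)) hc
      exact ⟨p, q, Nv, fun _ => h⟩
    · exact ⟨0, 0, 0, fun h => absurd h hc⟩
  choose p q Nv hcon using hcon
  obtain ⟨LN, hLN⟩ : ∃ LN : ℕ, LN = 3 ^ N * (((N * (boxP (1000 + m + B + 2)).card) *
    ((boxP (2000 + m)).card * ((boxP 1000).card * ((boxE 1000).powerset).card)))) ^ N := ⟨_, rfl⟩
  refine ⟨2 * (M : ℝ) ^ 2, 3 * LN, N * B + N * m, N * m, hMR, ?_⟩
  intro n hn
  set X : Finset (Σ _ : Finset (Sym2 P3), (Fin N → ℤ × ℤ)) := (U UClass n).sigma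
    (fun P => (Fintype.piFinset (fun _ : Fin N => Y P)).filter Function.Injective) with hX
  have memX : ∀ x ∈ X, x.1 ∈ U UClass n ∧ (∀ j, x.2 j ∈ Y x.1) ∧ Function.Injective x.2 := by
    intro x hx
    rw [hX, Finset.mem_sigma, Finset.mem_filter, Fintype.mem_piFinset] at hx
    exact hx
  have hYcols : ∀ P c, c ∈ Y P → c ∈ cols P := fun P c hc => mem_colsF.1 (hYs P hc)
  have hfarX : ∀ x ∈ X, ∀ i ∈ (Finset.univ : Finset (Fin N)), ∀ j ∈ (Finset.univ :
      Finset (Fin N)), i ≠ j → HFar D (p x.1 i (x.2 i)) (p x.1 j (x.2 j)) := by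
    intro x hx i _ j _ hij
    obtain ⟨-, h2, h3⟩ := memX x hx
    have h4 := hYf x.1 _ (h2 i) _ (h2 j) (fun e => hij (h3 e))
    obtain ⟨-, a1, a2⟩ := hcon x.1 i (x.2 i) (hYcols _ _ (h2 i))
    obtain ⟨-, b1, b2⟩ := hcon x.1 j (x.2 j) (hYcols _ _ (h2 j))
    simp only [HFar, abs_le, lt_abs, le_abs] at *
    omega
  -- the glued polygons
  have hJ : ∀ x : (Σ _ : Finset (Sym2 P3), (Fin N → ℤ × ℤ)), ∃ C F a w, ∃ σ : Fin N → Option Bool,
      ∃ s, x ∈ X →
      Built ⊤ x.1 (Kt V K0 σ) (Xs V k K0 h z σ) (fun j => p x.1 j (x.2 j))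
        (fun j => q x.1 j (x.2 j)) Finset.univ C F a w ∧ (∀ j, σ j ≠ none) ∧
      SameType R (LK.glue C F a Finset.univ) ∧ Normed (shift s (LK.glue C F a Finset.univ)) := by
    intro x
    by_cases hx : x ∈ X
    · obtain ⟨h1, h2, h3⟩ := memX x hx
      rw [mem_U hU] at h1
      obtain ⟨C, F, a, w, σ, hb, hs, ht⟩ := build_signs (p := fun j => p x.1 j (x.2 j))
        (q := fun j => q x.1 j (x.2 j)) (Nv := fun j => Nv x.1 j (x.2 j)) hV hk hg hW3 hKW hK hR hB
        hD.ge hmA hmV hWm h1.1 (fun j => (hcon x.1 j (x.2 j) (hYcols _ _ (h2 j))).1)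
        (fun i j hij => hfarX x hx i (Finset.mem_univ i) j (Finset.mem_univ j) hij)
      have hP := isPolygon_glue (hb.parts hB hD.ge (hmX σ) (hfarX x hx))
      obtain ⟨s, hs'⟩ := exists_normed hP.verts_nonempty
      exact ⟨C, F, a, w, σ, s, fun _ => ⟨hb, hs, ht, hs'⟩⟩
    · exact ⟨∅, fun _ => ∅, fun _ => 0, fun _ => 0, fun _ => none, 0, fun h => absurd h hx⟩
  choose C F a w σ s hJ using hJ
  have hparts : ∀ x ∈ X, Parts (C x) (F x) (a x) Finset.univ 1000 (m + B + 1) :=
    fun x hx => (hJ x hx).1.parts hB hD.ge (hmX (σ x)) (hfarX x hx)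
  have hqV : ∀ x ∈ X, ∀ j, q x.1 j (x.2 j) ∈ verts V :=
    fun x hx j => (hcon x.1 j (x.2 j) (hYcols _ _ ((memX x hx).2.1 j))).1.hq
  have hq : ∀ x ∈ X, ∀ j ∈ (Finset.univ : Finset (Fin N)),
      q x.1 j (x.2 j) ∈ verts (Xs V k K0 h z (σ x) j) :=
    fun x hx j _ => verts_att (σ x j) (hqV x hx j)
  -- membership in the class
  have hsum : ∀ x ∈ X, GClass ⊤ R (LK.glue (C x) (F x) (a x) Finset.univ) := by
    intro x hx
    obtain ⟨φ, hφ⟩ := (hJ x hx).2.2.1
    exact ⟨isPolygon_glue (hparts x hx), φ, Subgroup.mem_top _, hφ⟩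
  -- the target
  set VV : Finset (Finset (Sym2 P3)) := (Finset.range (2 * (N * B + N * m) + 1)).biUnion
    (fun i => U (KClass R) (n + N * m + i - (N * B + N * m))) with hVV
  have hSp : ∀ E, KClass R E → IsPolygon E := fun E h => h.1
  have hVcard : VV.card ≤ ∑ i ∈ Finset.range (2 * (N * B + N * m) + 1),
      count (KClass R) (n + N * m + i - (N * B + N * m)) := by
    refine Finset.card_biUnion_le.trans ?_
    exact Finset.sum_le_sum fun i _ => (card_U' hSp _).le
  have hcardR : ∀ x ∈ X, (LK.glue (C x) (F x) (a x) Finset.univ).card ≤ n + N * m + N * B ∧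
      n ≤ (LK.glue (C x) (F x) (a x) Finset.univ).card + N * B := by
    intro x hx
    obtain ⟨h1, -, -⟩ := memX x hx
    rw [mem_U hU] at h1
    have h := (hJ x hx).1
    have c0 := h.card_superp (hmX (σ x)) (hXP (σ x)) (hq x hx) (D := D) (by omega)
      (hfarX x hx)
    have c1 := card_changed (S := Finset.univ) (a := a x)
      (E := superp x.1 (Xs V k K0 _ z (σ x)) (w x) Finset.univ)
      (E' := LK.glue (C x) (F x) (a x) Finset.univ)
      (fun u v k1 k2 => h.changed u v (Or.inr ⟨k1, k2⟩))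
    have c2 := card_changed (S := Finset.univ) (a := a x)
      (E := LK.glue (C x) (F x) (a x) Finset.univ)
      (E' := superp x.1 (Xs V k K0 _ z (σ x)) (w x) Finset.univ)
      (fun u v k1 k2 => h.changed u v (Or.inl ⟨k2, k1⟩))
    rw [Finset.card_univ, Fintype.card_fin, ← hBdef] at c1 c2
    rw [c0, h1.2.1] at c1 c2
    have c3 := Finset.sum_le_card_nsmul Finset.univ _ m (hmX (σ x))
    rw [Finset.card_univ, Fintype.card_fin, smul_eq_mul] at c3
    constructor <;> omega
  have hmaps : ∀ x ∈ X, shift (s x) (LK.glue (C x) (F x) (a x) Finset.univ) ∈ VV := by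
    intro x hx
    rw [hVV, Finset.mem_biUnion]
    obtain ⟨c1, c2⟩ := hcardR x hx
    refine ⟨(LK.glue (C x) (F x) (a x) Finset.univ).card + (N * B + N * m) - (n + N * m),
      by rw [Finset.mem_range]; omega, ?_⟩
    rw [mem_U' hSp]
    refine ⟨((hsum x hx).shift hG _).kclass, ?_, (hJ x hx).2.2.2⟩
    rw [card_shift]; omega
  have hfiber : ∀ R ∈ VV,
      (X.filter (fun x => shift (s x) (LK.glue (C x) (F x) (a x) Finset.univ) = R)).card ≤ LN := by
    intro R _
    rcases (X.filter (fun x => shift (s x) (LK.glue (C x) (F x) (a x)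
      Finset.univ) = R)).eq_empty_or_nonempty with h0 | ⟨x0, hx0⟩
    · rw [h0]; simp
    rw [Finset.mem_filter] at hx0
    set Nr : Finset P3 := Finset.univ.biUnion (fun i : Fin N =>
      (boxP (1000 + m + B + 2)).image (fun v => a x0 i + s x0 - v)) with hNr
    have hNrc : Nr.card ≤ N * (boxP (1000 + m + B + 2)).card := by
      refine Finset.card_biUnion_le.trans ?_
      refine (Finset.sum_le_sum fun i _ => Finset.card_image_le).trans ?_
      rw [Finset.sum_const, Finset.card_univ, Fintype.card_fin, smul_eq_mul]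
    set code : (Σ _ : Finset (Sym2 P3), (Fin N → ℤ × ℤ)) → (Fin N → Option Bool) ×
        (Fin N → P3 × P3 × P3 × Finset (Sym2 P3)) := fun x => (σ x, fun j =>
      (a x j + s x, w x j - a x j, w x j - (p x.1 j (x.2 j) - q x.1 j (x.2 j)),
        patS (superp x.1 (Xs V k K0 h z (σ x)) (w x) Finset.univ) (a x j))) with hcode
    set T : Finset ((Fin N → Option Bool) × (Fin N → P3 × P3 × P3 × Finset (Sym2 P3))) :=
      Finset.univ ×ˢ (Fintype.piFinset (fun _ : Fin N => Nr ×ˢ (boxP (2000 + m) ×ˢ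
        (boxP 1000 ×ˢ (boxE 1000).powerset)))) with hT
    have hTc : T.card ≤ LN := by
      rw [hT, Finset.card_product, Fintype.card_piFinset, hLN]
      simp only [Finset.card_product, Finset.prod_const, Finset.card_univ, Fintype.card_fin,
        Fintype.card_fun, Fintype.card_option, Fintype.card_bool]
      exact Nat.mul_le_mul_left _ (Nat.pow_le_pow_left (Nat.mul_le_mul_right _ hNrc) _)
    refine le_trans (Finset.card_le_card_of_injOn code ?_ ?_) hTc
    · intro x hx
      rw [Finset.mem_coe, Finset.mem_filter] at hx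
      rw [Finset.mem_coe, hT, Finset.mem_product, Fintype.mem_piFinset]
      refine ⟨Finset.mem_univ _, ?_⟩
      intro j
      have h := (hJ x hx.1).1
      have h' := (hJ x0 hx0.1).1
      have hqb : Box m (q x.1 j (x.2 j)) := hVq _ (hqV x hx.1 j)
      rw [Finset.mem_product, Finset.mem_product, Finset.mem_product]
      refine ⟨?_, ?_, ?_, ?_⟩
      · -- the position
        have k1 := (isCut_erase (hparts x hx.1) (Finset.mem_univ j)).shift (s x - s x0)
        have e1 : shift (s x - s x0) (LK.glue (C x) (F x) (a x) Finset.univ) =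
            LK.glue (C x0) (F x0) (a x0) Finset.univ := by
          have h1 := congrArg (shift (-(s x0))) (hx.2.trans hx0.2.symm)
          rw [shift_shift, shift_shift, neg_add_cancel, shift_zero] at h1
          rw [← h1]; congr 1; abel
        rw [e1] at k1
        have m1 := hB _ _ _ (h.chF j (Finset.mem_univ j))
        rw [card_shift] at m1
        have m2 := hmX (σ x) j (Finset.mem_univ j)
        have m3 : ∀ i ∈ (Finset.univ : Finset (Fin N)), (F x0 i).card ≤ m + B := by
          intro i hi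
          have m4 := hB _ _ _ (h'.chF i hi)
          rw [card_shift] at m4
          exact m4.trans (Nat.add_le_add_right (hmX (σ x0) i hi) B)
        obtain ⟨i, -, hi⟩ := cut_near hNC (by norm_num) (hparts x0 hx0.1) h'.cC.2
          (m := m + B) m3 k1 (by rw [card_shift]; omega) (by
            intro hun
            have h5 := (h.cF j (Finset.mem_univ j)).shift hG (s x - s x0)
            have h6 : Kt V K0 (σ x) j = K0 j := by
              have h7 := (hJ x hx.1).2.1 j
              unfold Kt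
              split
              · rename_i h8
                exact absurd h8 h7
              · rfl
            rw [h6] at h5
            exact hkn j (h5.kclass.2.unknotted hun))
        rw [hNr, Finset.mem_biUnion]
        refine ⟨i, Finset.mem_univ i, ?_⟩
        rw [Finset.mem_image]
        refine ⟨a x0 i - (a x j + (s x - s x0)), ?_, ?_⟩
        · rw [mem_boxP]
          exact hi.mono (by push_cast; omega)
        · simp only [hcode]; abel
      · rw [mem_boxP]
        have e1 : w x j - a x j = (w x j - (p x.1 j (x.2 j) - q x.1 j (x.2 j))) +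
            (p x.1 j (x.2 j) - a x j) - q x.1 j (x.2 j) := by abel
        simp only [hcode]
        rw [e1]
        exact (((h.wd j (Finset.mem_univ j)).add (h.pa j (Finset.mem_univ j))).sub hqb).mono
          (by omega)
      · rw [mem_boxP]
        exact h.wd j (Finset.mem_univ j)
      · rw [Finset.mem_powerset]
        exact Finset.inter_subset_left
    · intro x hx x' hx' hxx
      rw [Finset.mem_coe, Finset.mem_filter] at hx hx'
      simp only [hcode, Prod.mk.injEq] at hxx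
      obtain ⟨hσ, hxx⟩ := hxx
      have hc := fun j => congrFun hxx j
      simp only [Prod.mk.injEq] at hc
      obtain ⟨h1, h2, h3⟩ := memX x hx.1
      obtain ⟨g1, g2, g3⟩ := memX x' hx'.1
      rw [mem_U hU] at h1 g1
      have hb' := (hJ x' hx'.1).1
      rw [← hσ] at hb' hc
      obtain ⟨r1, r2⟩ := decodeS (hJ x hx.1).1 hb' h1.2.2 g1.2.2
        (hx.2.trans hx'.2.symm) (fun j _ => (hc j).1) (fun j _ => (hc j).2.1)
        (fun j _ => (hc j).2.2.2)
      have r3 : ∀ j, x.2 j = x'.2 j := by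
        intro j
        by_contra hne
        have c1 : a x j = a x' j := by
          have := (hc j).1
          rw [r2] at this
          exact add_right_cancel this
        have c2 : w x j = w x' j := by
          have := (hc j).2.1
          rw [c1] at this
          exact sub_left_inj.1 this
        have c3 : p x.1 j (x.2 j) - q x.1 j (x.2 j) =
            p x'.1 j (x'.2 j) - q x'.1 j (x'.2 j) := by
          have := (hc j).2.2.1
          rw [c2] at this
          exact sub_right_inj.1 this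
        have hY' : x'.2 j ∈ Y x.1 := by rw [r1]; exact g2 j
        have c4 := hYf x.1 _ (h2 j) _ hY' hne
        obtain ⟨d1, a1, a2⟩ := hcon x.1 j (x.2 j) (hYcols _ _ (h2 j))
        obtain ⟨d2, b1, b2⟩ := hcon x'.1 j (x'.2 j) (hYcols _ _ (g2 j))
        obtain ⟨e1, e2, -⟩ := (diam_le hV.poly d1.hq d2.hq).mono
          (r' := (m : ℤ)) (by exact_mod_cast hmV)
        have f1 := congrArg (fun z : P3 => z.1) c3
        have f2 := congrArg (fun z : P3 => z.2.1) c3
        simp only [Prod.fst_sub, Prod.snd_sub, abs_le, le_abs] at *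
        omega
      obtain ⟨x1, x2⟩ := x
      obtain ⟨y1, y2⟩ := x'
      simp only at r1 r3
      subst r1
      have : x2 = y2 := funext r3
      subst this
      rfl
  have hup : X.card ≤ LN * VV.card := by
    have h1 : X.card ≤ LN * (X.image (fun x => shift (s x) (LK.glue (C x) (F x) (a x)
        Finset.univ))).card :=
      Finset.card_le_mul_card_image X LN (fun G hG => hfiber G (by
        obtain ⟨x, hx, rfl⟩ := Finset.mem_image.1 hG
        exact hmaps x hx))
    refine h1.trans (Nat.mul_le_mul_left _ (Finset.card_le_card ?_))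
    intro G hG
    obtain ⟨x, hx, rfl⟩ := Finset.mem_image.1 hG
    exact hmaps x hx
  -- the lower bound
  have hlow : ((n : ℝ) ^ (2 / 3 : ℝ) / (2 * (M : ℝ) ^ 2)) ^ N * (count UClass n : ℝ) ≤
      3 * (X.card : ℝ) := by
    have hXc : X.card = ∑ P ∈ U UClass n, ((Fintype.piFinset (fun _ : Fin N => Y P)).filter
        Function.Injective).card := by
      rw [hX, Finset.card_sigma]
    set WW : Finset (Finset (Sym2 P3)) :=
      (U UClass n).filter (fun E => (n : ℝ) ^ (2 / 3 : ℝ) ≤ ((cols E).ncard : ℝ)) with hWW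
    have hWc : (count UClass n : ℝ) ≤ 3 * (WW.card : ℝ) := by
      refine (wide hU n).trans ?_
      have : {E : Finset (Sym2 P3) | UClass E ∧ E.card = n ∧ Normed E ∧
          (n : ℝ) ^ (2 / 3 : ℝ) ≤ ((cols E).ncard : ℝ)} = (WW : Set (Finset (Sym2 P3))) := by
        ext E
        rw [hWW, Finset.coe_filter, Set.mem_ofPred_eq, Set.mem_ofPred_eq, mem_U hU]
        tauto
      rw [this, Set.ncard_coe_finset]
    set zz : ℝ := (n : ℝ) ^ (2 / 3 : ℝ) with hz
    have hz0 : 0 ≤ zz := Real.rpow_nonneg (Nat.cast_nonneg n) _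
    have hzM : 0 ≤ zz / (2 * (M : ℝ) ^ 2) := div_nonneg hz0 hMR.le
    have h1 : ∀ P ∈ WW, (zz / (2 * (M : ℝ) ^ 2)) ^ N ≤
        ((((Fintype.piFinset (fun _ : Fin N => Y P)).filter Function.Injective).card : ℕ) : ℝ) := by
      intro P hP
      rw [hWW, Finset.mem_filter, ← card_colsF] at hP
      have h2 : (((colsF P).card : ℕ) : ℝ) ≤ ((M ^ 2 * ((Y P).card + 1) : ℕ) : ℝ) := by
        exact_mod_cast hYc P
      push_cast at h2
      have h3 : zz ≤ (M : ℝ) ^ 2 * ((Y P).card + 1) := hP.2.trans h2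
      have h4 : zz / (2 * (M : ℝ) ^ 2) + N ≤ (Y P).card + 1 := by
        have h5 : zz / (M : ℝ) ^ 2 ≤ (Y P).card + 1 := by
          rw [div_le_iff₀ hMp]; linarith
        have h6 : (N : ℝ) ≤ zz / (2 * (M : ℝ) ^ 2) := by
          rw [le_div_iff₀ hMR]; linarith
        have h7 : zz / (M : ℝ) ^ 2 = zz / (2 * (M : ℝ) ^ 2) + zz / (2 * (M : ℝ) ^ 2) := by
          field_simp; ring
        linarith
      have h8 : N ≤ (Y P).card + 1 := by
        have h9 : (N : ℝ) ≤ ((Y P).card + 1 : ℕ) := by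
          push_cast
          linarith
        exact_mod_cast h9
      have h10 : zz / (2 * (M : ℝ) ^ 2) ≤ (((Y P).card + 1 - N : ℕ) : ℝ) := by
        rw [Nat.cast_sub h8]
        push_cast
        linarith
      calc (zz / (2 * (M : ℝ) ^ 2)) ^ N ≤ (((Y P).card + 1 - N : ℕ) : ℝ) ^ N :=
            pow_le_pow_left₀ hzM h10 N
        _ ≤ _ := by exact_mod_cast card_inj N (Y P)
    have h2 : (WW.card : ℝ) * (zz / (2 * (M : ℝ) ^ 2)) ^ N ≤ (X.card : ℝ) := by
      have h3 : ∑ P ∈ WW, (zz / (2 * (M : ℝ) ^ 2)) ^ N ≤ ∑ P ∈ WW,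
          ((((Fintype.piFinset (fun _ : Fin N => Y P)).filter Function.Injective).card : ℕ) : ℝ) :=
        Finset.sum_le_sum fun P hP => h1 P hP
      rw [Finset.sum_const, nsmul_eq_mul] at h3
      refine h3.trans ?_
      rw [hXc]
      push_cast
      exact Finset.sum_le_sum_of_subset_of_nonneg (Finset.filter_subset _ _)
        (fun _ _ _ => Nat.cast_nonneg _)
    have h4 : (0 : ℝ) ≤ (zz / (2 * (M : ℝ) ^ 2)) ^ N := pow_nonneg hzM N
    calc (zz / (2 * (M : ℝ) ^ 2)) ^ N * (count UClass n : ℝ)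
        ≤ (zz / (2 * (M : ℝ) ^ 2)) ^ N * (3 * (WW.card : ℝ)) := mul_le_mul_of_nonneg_left hWc h4
      _ = 3 * ((WW.card : ℝ) * (zz / (2 * (M : ℝ) ^ 2)) ^ N) := by ring
      _ ≤ 3 * (X.card : ℝ) := mul_le_mul_of_nonneg_left h2 (by norm_num)
  have hup' : (X.card : ℝ) ≤ LN * ∑ i ∈ Finset.range (2 * (N * B + N * m) + 1),
      (count (KClass R) (n + N * m + i - (N * B + N * m)) : ℝ) := by
    have : X.card ≤ LN * ∑ i ∈ Finset.range (2 * (N * B + N * m) + 1),
        count (KClass R) (n + N * m + i - (N * B + N * m)) :=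
      hup.trans (Nat.mul_le_mul_left _ hVcard)
    exact_mod_cast this
  calc _ ≤ 3 * (X.card : ℝ) := hlow
    _ ≤ 3 * (LN * ∑ i ∈ Finset.range (2 * (N * B + N * m) + 1),
          (count (KClass R) (n + N * m + i - (N * B + N * m)) : ℝ)) :=
        mul_le_mul_of_nonneg_left hup' (by norm_num)
    _ = (3 * LN : ℕ) * ∑ i ∈ Finset.range (2 * (N * B + N * m) + 1),
          (count (KClass R) (n + N * m + i - (N * B + N * m)) : ℝ) := by push_cast; ring

end Pool.Agent.KSing
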