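import Pool.Agent.KSing.CountS
import Pool.Agent.KTen.Many
import Pool.Agent.MP_aea6d5_co.CStrong

/-! The number of polygons of the type of a tower. -/

set_option autoImplicit false

open Filter Topology

namespace Pool.Agent.KSing

open Pool.Agent.LK Pool.Agent.KTube Pool.Agent.KTen

/-- A tower has a list of pieces. -/
theorem exists_tow {N : ℕ} {R : ES} (hR : Tower N R) :
    ∃ l : List (ES × ℕ × ℤ), l.length = N ∧ Tow l R := by
  induction hR with
  | zero R h1 h2 => exact ⟨[], rfl, Tow.nil h1 h2⟩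
  | succ N R K0 h z k a b _ hK hn hc hab ih =>
    obtain ⟨l, hl, hT⟩ := ih
    exact ⟨(K0, h, z) :: l, by simp [hl], Tow.cons hT hK hn hc hab⟩

theorem kclass_move (R : ES) : MoveClosed (KClass R) := KClass.move moveFacts R

/-- The clean form of the multiple attachment inequality for a tower. -/
theorem cattachT {N : ℕ} {R : ES} (hR : Tower N R) :
    ∃ ε : ℝ, 0 < ε ∧ ∃ c : ℕ, Even c ∧ ∀ n : ℕ, ε * (n : ℝ) ^ (2 * (N : ℝ) / 3) *
      (count UClass n : ℝ) ≤ (count (KClass R) (n + c) : ℝ) := by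
  classical
  obtain ⟨l, hl, hT⟩ := exists_tow hR
  subst hl
  have hU : ClosedZ UClass := unknotClosedZ
  have hleft := hT.left
  obtain ⟨A, L, B, κ, hA, h⟩ := cpairT ncStatement (K0 := fun j : Fin l.length => (l.get j).1)
    (h := fun j => (l.get j).2.1) (z := fun j => (l.get j).2.2)
    (fun j => (hleft _ (List.get_mem l j)).1) (fun j => (hleft _ (List.get_mem l j)).2) (R := R)
    (by
      have e : (List.ofFn fun j : Fin l.length =>
          (((l.get j).1, (l.get j).2.1, (l.get j).2.2) : ES × ℕ × ℤ)) = l := List.ofFn_get l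
      rw [e]
      exact hT)
  set N := l.length with hN
  have hmv := kclass_move R
  have hpow : ∀ n : ℕ, (n : ℝ) ^ (2 * (N : ℝ) / 3) = ((n : ℝ) ^ (2 / 3 : ℝ)) ^ N := by
    intro n
    rw [← Real.rpow_natCast, ← Real.rpow_mul (Nat.cast_nonneg n)]
    congr 1
    ring
  -- large lengths
  have hlim : Tendsto (fun n : ℕ => (n : ℝ) ^ (2 / 3 : ℝ)) atTop atTop :=
    (tendsto_rpow_atTop (by norm_num)).comp tendsto_natCast_atTop_atTop
  obtain ⟨n0, hn0⟩ := eventually_atTop.1 (hlim.eventually_ge_atTop (A * N))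
  -- existence of a polygon of the type
  obtain ⟨n1, hn1⟩ : ∃ n1, 0 < count (KClass R) n1 := by
    set n2 := 4 + 2 * n0 with hn2
    have h1 := h n2 (hn0 n2 (by omega))
    have h2 : 1 ≤ count UClass n2 := count_pos hU n0
    by_contra hcon
    push Not at hcon
    have h3 : ∑ i ∈ Finset.range (2 * B + 1), (count (KClass R) (n2 + κ + i - B) : ℝ) = 0 := by
      apply Finset.sum_eq_zero
      intro i _
      have := hcon (n2 + κ + i - B)
      have : count (KClass R) (n2 + κ + i - B) = 0 := by omega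
      rw [this, Nat.cast_zero]
    rw [h3, mul_zero] at h1
    have h4 : (0 : ℝ) < ((n2 : ℝ) ^ (2 / 3 : ℝ) / A) ^ N * (count UClass n2 : ℝ) := by
      have h5 : (0 : ℝ) < n2 := by
        have : 0 < n2 := by omega
        exact_mod_cast this
      have h6 : (0 : ℝ) < (count UClass n2 : ℝ) := by exact_mod_cast h2
      positivity
    linarith
  set c : ℕ := 2 * (n1 + κ + B) with hc
  have hce : Even c := ⟨n1 + κ + B, by rw [hc]; ring⟩
  -- small lengths
  set T : ℝ := ∑ n ∈ Finset.range n0, (n : ℝ) ^ (2 * (N : ℝ) / 3) * (count UClass n : ℝ) with hT'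
  have hT0 : 0 ≤ T := Finset.sum_nonneg fun n _ => by positivity
  have hAN : 0 < A ^ N := by positivity
  set Q : ℝ := A ^ N * (L * (2 * B + 1)) with hQ
  have hQ0 : 0 ≤ Q := by positivity
  refine ⟨1 / (T + Q + 1), by positivity, c, hce, fun n => ?_⟩
  rw [mul_assoc, div_mul_eq_mul_div, one_mul, div_le_iff₀ (by positivity)]
  have hcount0 : (0 : ℝ) ≤ (count (KClass R) (n + c) : ℝ) := Nat.cast_nonneg _
  by_cases hn : Even n
  swap
  · rw [count_odd hU.poly hn, Nat.cast_zero, mul_zero]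
    exact mul_nonneg hcount0 (by linarith)
  have hnc : Even (n + c) := hn.add hce
  by_cases hlt : n < n0
  · have h1 : (n : ℝ) ^ (2 * (N : ℝ) / 3) * (count UClass n : ℝ) ≤ T :=
      Finset.single_le_sum (f := fun n : ℕ => (n : ℝ) ^ (2 * (N : ℝ) / 3) *
        (count UClass n : ℝ)) (fun _ _ => by positivity) (Finset.mem_range.2 hlt)
    have h2 : (1 : ℝ) ≤ (count (KClass R) (n + c) : ℝ) := by
      have h3 := count_mono_even hmv (a := n1) (b := n + c) (by omega) hnc
      have h4 : 1 ≤ count (KClass R) (n + c) := by omega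
      exact_mod_cast h4
    calc (n : ℝ) ^ (2 * (N : ℝ) / 3) * (count UClass n : ℝ) ≤ T := h1
      _ ≤ 1 * (T + Q + 1) := by linarith
      _ ≤ (count (KClass R) (n + c) : ℝ) * (T + Q + 1) :=
          mul_le_mul_of_nonneg_right h2 (by linarith)
  · push Not at hlt
    have h1 := h n (hn0 n hlt)
    have h2 : ∑ i ∈ Finset.range (2 * B + 1), (count (KClass R) (n + κ + i - B) : ℝ) ≤
        (2 * B + 1) * (count (KClass R) (n + c) : ℝ) := by
      have h3 : ∀ i ∈ Finset.range (2 * B + 1), (count (KClass R) (n + κ + i - B) : ℝ) ≤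
          (count (KClass R) (n + c) : ℝ) := by
        intro i hi
        rw [Finset.mem_range] at hi
        exact_mod_cast count_mono_even hmv (a := n + κ + i - B) (b := n + c) (by omega) hnc
      refine (Finset.sum_le_sum h3).trans ?_
      rw [Finset.sum_const, Finset.card_range, nsmul_eq_mul]
      push_cast
      exact le_rfl
    rw [hpow, show ((n : ℝ) ^ (2 / 3 : ℝ)) ^ N = A ^ N * (((n : ℝ) ^ (2 / 3 : ℝ)) / A) ^ N by
      rw [div_pow]; field_simp]
    calc A ^ N * (((n : ℝ) ^ (2 / 3 : ℝ)) / A) ^ N * (count UClass n : ℝ)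
        = A ^ N * ((((n : ℝ) ^ (2 / 3 : ℝ)) / A) ^ N * (count UClass n : ℝ)) := by ring
      _ ≤ A ^ N * (L * ((2 * B + 1) * (count (KClass R) (n + c) : ℝ))) :=
          mul_le_mul_of_nonneg_left (h1.trans (mul_le_mul_of_nonneg_left h2 (Nat.cast_nonneg _)))
            hAN.le
      _ = (count (KClass R) (n + c) : ℝ) * Q := by rw [hQ]; ring
      _ ≤ (count (KClass R) (n + c) : ℝ) * (T + Q + 1) :=
          mul_le_mul_of_nonneg_left (by linarith) hcount0

/-- **Every type of a tower.** -/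
theorem tower_strong (G : Subgroup (R3 ≃ₜ R3)) (hG : ∀ φ : R3 ≃ₜ R3, φ ∈ G ∨ φ * swapR ∈ G)
    {N : ℕ} {R K : ES} (hR : Tower N R) (hRK : SameType K R) :
    (∃ δ : ℝ, 0 < δ ∧ ∀ᶠ n : ℕ in atTop, Even n → 0 < count UClass n ∧
      δ * (n : ℝ) ^ (2 * (N : ℝ) / 3) * (count UClass n : ℝ) ≤ (count (GClass G K) n : ℝ)) ∧
    (∀ A B α β : ℝ, 0 < A → growth (GClass G K) = growth UClass →
      Tendsto (fun k : ℕ => (count UClass (2 * k) : ℝ) /
        (((2 * k : ℕ) : ℝ) ^ (α - 3) * growth UClass ^ (2 * k))) atTop (𝓝 A) →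
      Tendsto (fun k : ℕ => (count (GClass G K) (2 * k) : ℝ) /
        (((2 * k : ℕ) : ℝ) ^ (β - 3) * growth (GClass G K) ^ (2 * k))) atTop (𝓝 B) →
      α + 2 * (N : ℝ) / 3 ≤ β) := by
  obtain ⟨ε, hε, c, hc, h⟩ := cattachT hR
  have e : KClass R = KClass K := by
    funext E
    refine propext ⟨fun h1 => ⟨h1.1, hRK.trans h1.2⟩, fun h1 => ⟨h1.1, hRK.symm.trans h1.2⟩⟩
  rw [e] at h
  have h2 : ∀ n : ℕ, ε / 2 * (n : ℝ) ^ (2 * (N : ℝ) / 3) * (count UClass n : ℝ) ≤
      (count (GClass G K) (n + c) : ℝ) := by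
    intro n
    have h3 := h n
    have h4 : (count (KClass K) (n + c) : ℝ) ≤ 2 * (count (GClass G K) (n + c) : ℝ) := by
      exact_mod_cast count_le_two G hG K (n + c)
    have h5 : ε / 2 * (n : ℝ) ^ (2 * (N : ℝ) / 3) * (count UClass n : ℝ) =
        (ε * (n : ℝ) ^ (2 * (N : ℝ) / 3) * (count UClass n : ℝ)) / 2 := by ring
    rw [h5]
    linarith
  refine ⟨noshift_of_ratio' hc (half_pos hε) (by positivity) unknot_pos ratioLimit.1 h2, ?_⟩
  intro A B α β hA hgr h3 h4
  rw [hgr] at h4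
  have := one_le_growth unknotClosedZ
  exact exponent_gap hc (half_pos hε) (lt_of_lt_of_le one_pos this) hA h2 h3 h4

end Pool.Agent.KSing
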