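import Pool.Agent.KSing.Tower
import Pool.Agent.MP_aea6d5_co.CDecode

/-! Masts of a glued polygon, and side joins at these masts. -/

set_option autoImplicit false

open Set

namespace Pool.Agent.KSing

open Pool.Agent.LK Pool.Agent.KTube Pool.Agent.KTen

variable {ι : Type} [DecidableEq ι] {C : ES} {F : ι → ES} {a : ι → P3} {S : Finset ι} {r k' : ℤ}
  {K0 : ES} {h : ℕ} {z k : ℤ} {m b : ℤ × ℤ} {W : ℤ}

/-- The vertical edge over `m` is not an edge at the place `a j`. -/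
theorem vert_ne_hor (m : ℤ × ℤ) (x : ℤ) (p : P3) :
    s(((m.1, m.2, x) : P3), (m.1, m.2, x + 1)) ≠
      s(p + (0, 0, 1), p + (1, 0, 0) + (0, 0, 1)) := by
  obtain ⟨p1, p2, p3⟩ := p
  intro he
  rw [Sym2.eq_iff] at he
  simp only [Prod.mk_add_mk, Prod.mk.injEq] at he
  omega

/-- A mast of a part is a mast of the glued polygon. -/
theorem mast_glue (hP : Parts C F a S r k') {j : ι} (hj : j ∈ S) (hM : Mast (F j) m b k h W)
    (hC : ∀ u ∈ verts C, |u.1 - m.1| ≤ W → |u.2.1 - m.2| ≤ W → u.2.2 ≤ k)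
    (hF : ∀ i ∈ S, i ≠ j → ∀ u ∈ verts (F i), ¬ (|u.1 - m.1| ≤ W ∧ |u.2.1 - m.2| ≤ W)) :
    Mast (LK.glue C F a S) m b k h W := by
  refine ⟨hM.wlex, ?_, ?_, ?_⟩
  · intro i hi
    exact LK.mem_glue.2 (Or.inr ⟨j, hj, Or.inl ⟨hM.colA i hi, vert_ne_hor _ _ _⟩⟩)
  · intro i hi
    exact LK.mem_glue.2 (Or.inr ⟨j, hj, Or.inl ⟨hM.colB i hi, vert_ne_hor _ _ _⟩⟩)
  · intro u hu h1 h2 h3 h4
    rcases verts_glue hP hu with h5 | ⟨i, hi, h5⟩
    · have := hC u h5 h1 h2
      omega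
    · by_cases hij : i = j
      · subst hij
        exact hM.free u h5 h1 h2 h3 h4
      · exact absurd ⟨h1, h2⟩ (hF i hi hij u h5)

/-- The side join at a mast of a part is the side join at the mast of the glued polygon. -/
theorem glue_sj (hP : Parts C F a S r k') (hK : LeftOf K0 h z)
    (hKW : ∀ u ∈ verts K0, |u.1| ≤ W - 1 ∧ |u.2.1| ≤ W - 1) {j : ι} (hj : j ∈ S)
    (hM : Mast (F j) m b k h W) (hW : 0 ≤ W)
    (hC : ∀ u ∈ verts C, |u.1 - m.1| ≤ W → |u.2.1 - m.2| ≤ W → u.2.2 ≤ k)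
    (hF : ∀ i ∈ S, i ≠ j → ∀ u ∈ verts (F i), ¬ (|u.1 - m.1| ≤ W ∧ |u.2.1 - m.2| ≤ W)) :
    LK.glue C (Function.update F j (sj K0 z m (F j) k)) a S =
      sj K0 z m (LK.glue C F a S) k := by
  obtain ⟨z1, z2⟩ := leftOf_z hK
  -- the mast edge is not elsewhere
  have hmC : ∀ u v : P3, s(u, v) = s((m.1, m.2, k + z), (m.1, m.2, k + z + 1)) →
      u ∉ verts C ∧ v ∉ verts C ∧ ∀ i ∈ S, i ≠ j → u ∉ verts (F i) ∧ v ∉ verts (F i) := by
    intro u v he
    have key : ∀ w : P3, (w = (m.1, m.2, k + z) ∨ w = (m.1, m.2, k + z + 1)) →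
        w ∉ verts C ∧ ∀ i ∈ S, i ≠ j → w ∉ verts (F i) := by
      intro w hw
      have h1 : |w.1 - m.1| ≤ W ∧ |w.2.1 - m.2| ≤ W ∧ k < w.2.2 := by
        rcases hw with rfl | rfl
        · simp only [sub_self, abs_zero]
          exact ⟨hW, hW, by omega⟩
        · simp only [sub_self, abs_zero]
          exact ⟨hW, hW, by omega⟩
      refine ⟨fun hw' => ?_, fun i hi hij hw' => hF i hi hij w hw' ⟨h1.1, h1.2.1⟩⟩
      have := hC w hw' h1.1 h1.2.1
      omega
    rw [Sym2.eq_iff] at he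
    rcases he with ⟨h1, h2⟩ | ⟨h1, h2⟩
    · have k1 := key u (Or.inl h1)
      have k2 := key v (Or.inr h2)
      exact ⟨k1.1, k2.1, fun i hi hij => ⟨k1.2 i hi hij, k2.2 i hi hij⟩⟩
    · have k1 := key u (Or.inr h1)
      have k2 := key v (Or.inl h2)
      exact ⟨k1.1, k2.1, fun i hi hij => ⟨k1.2 i hi hij, k2.2 i hi hij⟩⟩
  -- the edges of the piece are not edges of the part
  have hKF : ∀ u v : P3, (s(u, v) ∈ shift (m.1, m.2, k) K0 ∨
      s(u, v) = s((m.1 - 1, m.2, k + z), (m.1, m.2, k + z)) ∨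
      s(u, v) = s((m.1 - 1, m.2, k + z + 1), (m.1, m.2, k + z + 1))) →
      s(u, v) ≠ s(a j + (0, 0, 1), a j + (1, 0, 0) + (0, 0, 1)) := by
    intro u v h1 h2
    have h3 : s(u, v) ∈ F j := by
      rw [h2, add_right_comm]
      exact hP.eF j hj
    have hpe := piece_edge (a := m) (k := k) hK
    rcases h1 with h1 | h1 | h1
    · exact piece_disj hK hKW hM u (left_mem_verts h1) (left_mem_verts h3)
    · rw [h1] at h3
      exact piece_disj hK hKW hM _ (left_mem_verts hpe) (left_mem_verts h3)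
    · rw [h1] at h3
      exact piece_disj hK hKW hM _ (right_mem_verts hpe) (left_mem_verts h3)
  refine edge_ext fun u v => ?_
  rw [LK.mem_glue, sj_mem, LK.mem_glue]
  constructor
  · rintro (⟨h1, h2⟩ | ⟨i, hi, h1⟩)
    · exact Or.inl ⟨Or.inl ⟨h1, h2⟩, fun he => (hmC u v he).1 (left_mem_verts h1)⟩
    · by_cases hij : i = j
      · subst hij
        rw [Function.update_self] at h1
        rcases h1 with ⟨h1, h2⟩ | h1 | h1
        · rcases sj_mem.1 h1 with ⟨h3, h4⟩ | h3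
          · exact Or.inl ⟨Or.inr ⟨i, hi, Or.inl ⟨h3, h2⟩⟩, h4⟩
          · exact Or.inr h3
        · refine Or.inl ⟨Or.inr ⟨i, hi, Or.inr (Or.inl h1)⟩, fun he => ?_⟩
          obtain ⟨k1, k2, -⟩ := hmC u v he
          rw [Sym2.eq_iff] at h1
          rcases h1 with ⟨h3, -⟩ | ⟨-, h3⟩
          · exact k1 (h3 ▸ left_mem_verts (hP.eE i hi))
          · exact k2 (h3 ▸ left_mem_verts (hP.eE i hi))
        · refine Or.inl ⟨Or.inr ⟨i, hi, Or.inr (Or.inr h1)⟩, fun he => ?_⟩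
          obtain ⟨k1, k2, -⟩ := hmC u v he
          rw [Sym2.eq_iff] at h1
          rcases h1 with ⟨h3, -⟩ | ⟨-, h3⟩
          · exact k1 (h3 ▸ right_mem_verts (hP.eE i hi))
          · exact k2 (h3 ▸ right_mem_verts (hP.eE i hi))
      · rw [Function.update_of_ne hij] at h1
        refine Or.inl ⟨Or.inr ⟨i, hi, h1⟩, fun he => ?_⟩
        obtain ⟨k1, k2, k3⟩ := hmC u v he
        rcases h1 with ⟨h3, -⟩ | h1 | h1
        · exact (k3 i hi hij).1 (left_mem_verts h3)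
        · rw [Sym2.eq_iff] at h1
          rcases h1 with ⟨h3, -⟩ | ⟨-, h3⟩
          · exact k1 (h3 ▸ left_mem_verts (hP.eE i hi))
          · exact k2 (h3 ▸ left_mem_verts (hP.eE i hi))
        · rw [Sym2.eq_iff] at h1
          rcases h1 with ⟨h3, -⟩ | ⟨-, h3⟩
          · exact k1 (h3 ▸ right_mem_verts (hP.eE i hi))
          · exact k2 (h3 ▸ right_mem_verts (hP.eE i hi))
  · rintro (⟨⟨h1, h2⟩ | ⟨i, hi, h1⟩, h3⟩ | h1)
    · exact Or.inl ⟨h1, h2⟩
    · right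
      refine ⟨i, hi, ?_⟩
      by_cases hij : i = j
      · subst hij
        rw [Function.update_self]
        rcases h1 with ⟨h1, h2⟩ | h1
        · exact Or.inl ⟨sj_mem.2 (Or.inl ⟨h1, h3⟩), h2⟩
        · exact Or.inr h1
      · rw [Function.update_of_ne hij]
        exact h1
    · right
      refine ⟨j, hj, Or.inl ?_⟩
      rw [Function.update_self]
      refine ⟨sj_mem.2 (Or.inr h1), hKF u v ?_⟩
      rcases h1 with h1 | h1
      · exact Or.inl h1.1
      · exact Or.inr h1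

end Pool.Agent.KSing
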