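import Pool.Agent.KTen.PatB

/-! A piece that is joined sideways to a mast is a pattern in a small box: local version. -/

set_option autoImplicit false

open Set

namespace Pool.Agent.KSing

open Pool.Agent.LK Pool.Agent.KTube Pool.Agent.KTen

variable {K0 T E F : ES} {h : ℕ} {z k : ℤ} {a b : ℤ × ℤ} {W : ℤ}

/-- `K0` (moved to the column `a` and the plane `k`) is joined to the edge of `T` over `a` at the
level `k + z`. -/
noncomputable def sj (K0 : ES) (z : ℤ) (a : ℤ × ℤ) (T : ES) (k : ℤ) : ES :=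
  (T \ {s((a.1, a.2, k + z), (a.1, a.2, k + z + 1))}) ∪
    (shift (a.1, a.2, k) K0 \ {s((a.1 - 1, a.2, k + z), (a.1 - 1, a.2, k + z + 1))}) ∪
    {s((a.1 - 1, a.2, k + z), (a.1, a.2, k + z)),
      s((a.1 - 1, a.2, k + z + 1), (a.1, a.2, k + z + 1))}

theorem insK_eq_sj : insK K0 h z a E k = sj K0 z a (stretch E k h) k := rfl

/-- Near the column `a` and strictly between the levels `k` and `k + h + 1` the polygon `T`
consists of the two straight columns `a` and `b` (the second one may be far away). -/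
structure Mast (T : ES) (a b : ℤ × ℤ) (k : ℤ) (h : ℕ) (W : ℤ) : Prop where
  wlex : WLex a b
  colA : ∀ i : ℕ, i ≤ h → s((a.1, a.2, k + i), (a.1, a.2, k + i + 1)) ∈ T
  colB : ∀ i : ℕ, i ≤ h → s((b.1, b.2, k + i), (b.1, b.2, k + i + 1)) ∈ T
  free : ∀ u ∈ verts T, |u.1 - a.1| ≤ W → |u.2.1 - a.2| ≤ W → k + 1 ≤ u.2.2 → u.2.2 ≤ k + h →
    (u.1, u.2.1) = a ∨ (u.1, u.2.1) = b

/-! ### Functions -/

/-- The horizontal cutoff. -/
noncomputable def chiW (W x : ℝ) : ℝ := cl 1 (W - |x|)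

section

variable {V ε x y w : ℝ}

theorem chiW_in (hx : |x| ≤ V - 1) : chiW V x = 1 := cl_high zero_le_one (by linarith)

theorem chiW_out (hx : V ≤ |x|) : chiW V x = 0 := cl_low (by linarith)

theorem chiW_nonneg (V x : ℝ) : 0 ≤ chiW V x := cl_nonneg _ _

theorem chiW_le (V x : ℝ) : chiW V x ≤ 1 := cl_le zero_le_one _

theorem chiW_anti (hxy : |x| ≤ |y|) : chiW V y ≤ chiW V x := cl_mono (by linarith)

/-- The identity with a cutoff. -/
noncomputable def mW (V y : ℝ) : ℝ := y * chiW V y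

theorem mono_sub_mW (V : ℝ) : Monotone fun y => y - mW V y := by
  intro y1 y2 h12
  have e : ∀ y, y - mW V y = y * (1 - chiW V y) := fun y => by
    unfold mW
    ring
  simp only [e]
  have n1 : 0 ≤ 1 - chiW V y1 := by linarith [chiW_le V y1]
  have n2 : 0 ≤ 1 - chiW V y2 := by linarith [chiW_le V y2]
  rcases le_total 0 y1 with h1 | h1
  · have h2 : 0 ≤ y2 := h1.trans h12
    have h3 : chiW V y2 ≤ chiW V y1 := chiW_anti (by rwa [abs_of_nonneg h1, abs_of_nonneg h2])
    exact mul_le_mul h12 (by linarith) n1 h2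
  · rcases le_total 0 y2 with h2 | h2
    · exact (mul_nonpos_of_nonpos_of_nonneg h1 n1).trans (mul_nonneg h2 n2)
    · have h3 : chiW V y1 ≤ chiW V y2 := chiW_anti (by
        rw [abs_of_nonpos h1, abs_of_nonpos h2]
        linarith)
      have h4 : -y2 * (1 - chiW V y2) ≤ -y1 * (1 - chiW V y1) :=
        mul_le_mul (by linarith) (by linarith) n2 (by linarith)
      linarith

theorem abs_mW_le (hV : 0 ≤ V) (y : ℝ) : |mW V y| ≤ V := by
  unfold mW
  rw [abs_mul, abs_of_nonneg (chiW_nonneg V y)]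
  rcases le_total |y| V with h1 | h1
  · have := mul_le_mul h1 (chiW_le V y) (chiW_nonneg V y) hV
    linarith
  · rw [chiW_out h1, mul_zero]
    exact hV

theorem continuous_mW : Continuous (mW V) := by
  unfold mW chiW cl
  fun_prop

/-- The local squeezing of the levels. -/
noncomputable def zL (h : ℕ) (w : ℝ) : ℝ := zS h w + 4 * h * cl (1 / 4) (w - (h + 3 / 4))

theorem zL_low (hw : w ≤ 0) : zL h w = w := by
  have h1 : (0 : ℝ) ≤ h := Nat.cast_nonneg h
  unfold zL
  rw [zS_low hw, cl_low (by linarith)]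
  ring

theorem zL_eq (hw : w ≤ h + 3 / 4) : zL h w = zS h w := by
  unfold zL
  rw [cl_low (by linarith)]
  ring

theorem zL_high (hh : 1 ≤ h) (hw : (h : ℝ) + 1 ≤ w) : zL h w = w := by
  unfold zL
  rw [zS_high hh hw, cl_high (by norm_num) (by linarith)]
  ring

theorem strictMono_zL (hh : 1 ≤ h) : StrictMono (zL h) := by
  intro v w hvw
  have h1 := strictMono_zS hh hvw
  have h2 : cl (1 / 4) (v - (h + 3 / 4)) ≤ cl (1 / 4) (w - (h + 3 / 4)) :=
    cl_mono (by linarith)
  have h3 : 4 * (h : ℝ) * cl (1 / 4) (v - (h + 3 / 4)) ≤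
      4 * h * cl (1 / 4) (w - (h + 3 / 4)) := mul_le_mul_of_nonneg_left h2 (by positivity)
  unfold zL
  linarith

theorem zL_one (hh : 1 ≤ h) : zL h 1 = 15 / 32 := by
  have h1 : (1 : ℝ) ≤ h := by exact_mod_cast hh
  rw [zL_eq (by linarith), zS_one hh]

theorem zL_top (hh : 1 ≤ h) : zL h (h + 3 / 4) = 17 / 32 := by
  rw [zL_eq le_rfl, zS_top hh]

theorem continuous_zL : Continuous (zL h) := by
  unfold zL zS cl
  fun_prop

theorem abs_zL_le (hh : 1 ≤ h) (w : ℝ) : |zL h w - w| ≤ h + 1 := by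
  have h0 : (0 : ℝ) ≤ h := Nat.cast_nonneg h
  rcases le_or_gt w 0 with h1 | h1
  · rw [zL_low h1, sub_self, abs_zero]
    linarith
  · rcases le_or_gt ((h : ℝ) + 1) w with h2 | h2
    · rw [zL_high hh h2, sub_self, abs_zero]
      linarith
    · have h3 := strictMono_zL hh h1
      have h4 := strictMono_zL hh h2
      rw [zL_low le_rfl] at h3
      rw [zL_high hh le_rfl] at h4
      rw [abs_le]
      constructor <;> linarith

/-- The local homeomorphism. -/
theorem exists_loc (h0 : 0 < ε) (h1 : ε ≤ 1) (hh : 1 ≤ h) (hV : 0 ≤ V) : ∃ φ : R3 ≃ₜ R3,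
    (∀ p : R3, V ≤ |p.1| ∨ V ≤ |p.2.1| ∨ p.2.2 ≤ 0 ∨ (h : ℝ) + 1 ≤ p.2.2 → φ p = p) ∧
    (∀ p : R3, 0 ≤ p.1 → φ p = (p.1, p.2.1, p.2.2 +
      chiW V p.1 * chiW V p.2.1 * (zL h p.2.2 - p.2.2))) ∧
    ∀ p : R3, |p.1| ≤ V - 1 → |p.2.1| ≤ V - 1 → φ p =
      (max p.1 0 + dS ε h p.2.2 * min p.1 0, cS ε h p.1 p.2.2 * p.2.1, zL h p.2.2) := by
  have hε : 0 ≤ 1 - ε := by linarith
  have hmono : ∀ c : ℝ, 0 ≤ c → c ≤ 1 → StrictMono fun y : ℝ => y + c * (-(1 - ε) * mW V y) := by
    intro c hc0 hc1 y1 y2 h12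
    have h2 := mono_sub_mW V h12.le
    simp only at h2 ⊢
    have h3 : 0 ≤ c * (1 - ε) := mul_nonneg hc0 hε
    have h4 : c * (1 - ε) < 1 := by nlinarith
    nlinarith [mul_nonneg h3 (sub_nonneg.2 h2), mul_pos (sub_pos.2 h4) (sub_pos.2 h12)]
  obtain ⟨φY, hY⟩ := exists_elemY (fun q => cl 1 (-q.2) * chiW V q.2 * bS h q.1)
    (by unfold bS chiW cl; fun_prop) (fun y => -(1 - ε) * mW V y)
    (by have := continuous_mW (V := V); fun_prop) (fun q => by
      refine hmono _ (mul_nonneg (mul_nonneg (cl_nonneg _ _) (chiW_nonneg _ _)) (bS_nonneg _ _)) ?_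
      exact mul_le_one₀ (mul_le_one₀ (cl_le zero_le_one _) (chiW_nonneg _ _) (chiW_le _ _))
        (bS_nonneg _ _) (bS_le _ _)) V (fun q x => by
      have n0 : 0 ≤ cl 1 (-q.2) * chiW V q.2 * bS h q.1 :=
        mul_nonneg (mul_nonneg (cl_nonneg _ _) (chiW_nonneg _ _)) (bS_nonneg _ _)
      have n1 : cl 1 (-q.2) * chiW V q.2 * bS h q.1 ≤ 1 :=
        mul_le_one₀ (mul_le_one₀ (cl_le zero_le_one _) (chiW_nonneg _ _) (chiW_le _ _))
          (bS_nonneg _ _) (bS_le _ _)
      rw [abs_mul, abs_of_nonneg n0, abs_mul, abs_neg, abs_of_nonneg hε]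
      have n2 := abs_mW_le hV x
      have n3 := abs_nonneg (mW V x)
      have n4 : (1 - ε) * |mW V x| ≤ V := by nlinarith
      have n5 : 0 ≤ (1 - ε) * |mW V x| := mul_nonneg hε n3
      nlinarith)
  obtain ⟨φX, hX⟩ := exists_elemX (fun q => chiW V q.1 * bS h q.2)
    (by unfold bS chiW cl; fun_prop) (fun x => -(1 - ε) * mW V (min x 0))
    (by have := continuous_mW (V := V); fun_prop) (fun q => by
      intro x1 x2 h12
      have c0 : 0 ≤ chiW V q.1 * bS h q.2 := mul_nonneg (chiW_nonneg _ _) (bS_nonneg _ _)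
      have c1 : chiW V q.1 * bS h q.2 ≤ 1 := mul_le_one₀ (chiW_le _ _) (bS_nonneg _ _) (bS_le _ _)
      have h2 := mono_sub_mW V (min_le_min_right 0 h12.le)
      have h3 : 0 ≤ chiW V q.1 * bS h q.2 * (1 - ε) := mul_nonneg c0 hε
      have h4 : chiW V q.1 * bS h q.2 * (1 - ε) < 1 := by nlinarith
      have h5 : min x1 0 - x1 ≤ 0 := by linarith [min_le_left x1 0]
      have h6 : x1 - min x1 0 ≤ x2 - min x2 0 := by
        rcases le_total x1 0 with h7 | h7
        · rw [min_eq_left h7, sub_self]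
          linarith [min_le_left x2 0]
        · rw [min_eq_right h7, min_eq_right (h7.trans h12.le)]
          linarith
      simp only at h2 ⊢
      have h7 : 0 ≤ (x2 - mW V (min x2 0)) - (x1 - mW V (min x1 0)) := by linarith
      nlinarith [mul_nonneg h3 h7, mul_pos (sub_pos.2 h4) (sub_pos.2 h12)]) V (fun q x => by
      have c0 : 0 ≤ chiW V q.1 * bS h q.2 := mul_nonneg (chiW_nonneg _ _) (bS_nonneg _ _)
      have c1 : chiW V q.1 * bS h q.2 ≤ 1 := mul_le_one₀ (chiW_le _ _) (bS_nonneg _ _) (bS_le _ _)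
      rw [abs_mul, abs_of_nonneg c0, abs_mul, abs_neg, abs_of_nonneg hε]
      have n2 := abs_mW_le hV (min x 0)
      have n3 := abs_nonneg (mW V (min x 0))
      have n4 : (1 - ε) * |mW V (min x 0)| ≤ V := by nlinarith
      have n5 : 0 ≤ (1 - ε) * |mW V (min x 0)| := mul_nonneg hε n3
      nlinarith)
  obtain ⟨φZ, hZ⟩ := exists_elemZ (fun q => chiW V q.1 * chiW V q.2)
    (by unfold chiW cl; fun_prop) (fun w => zL h w - w)
    (by have := continuous_zL (h := h); fun_prop) (fun q => by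
      intro w1 w2 h12
      have c0 : 0 ≤ chiW V q.1 * chiW V q.2 := mul_nonneg (chiW_nonneg _ _) (chiW_nonneg _ _)
      have c1 : chiW V q.1 * chiW V q.2 ≤ 1 :=
        mul_le_one₀ (chiW_le _ _) (chiW_nonneg _ _) (chiW_le _ _)
      have h2 := strictMono_zL hh h12
      simp only
      rcases c0.lt_or_eq with h3 | h3
      · nlinarith [mul_pos h3 (sub_pos.2 h2), mul_nonneg (sub_nonneg.2 c1) (sub_nonneg.2 h12.le)]
      · rw [← h3]
        linarith) (h + 1) (fun q x => by
      have c0 : 0 ≤ chiW V q.1 * chiW V q.2 := mul_nonneg (chiW_nonneg _ _) (chiW_nonneg _ _)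
      have c1 : chiW V q.1 * chiW V q.2 ≤ 1 :=
        mul_le_one₀ (chiW_le _ _) (chiW_nonneg _ _) (chiW_le _ _)
      rw [abs_mul, abs_of_nonneg c0]
      have n2 := abs_zL_le hh x
      have n3 := abs_nonneg (zL h x - x)
      nlinarith)
  have hφ : ∀ p : R3, ((φY.trans φX).trans φZ) p = φZ (φX (φY p)) := fun p => rfl
  refine ⟨(φY.trans φX).trans φZ, ?_, ?_, ?_⟩
  · intro p hp
    rw [hφ, hY]
    have e1 : p.2.1 + cl 1 (-p.1) * chiW V p.1 * bS h p.2.2 * (-(1 - ε) * mW V p.2.1) = p.2.1 := by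
      rcases hp with hp | hp | hp
      · rw [chiW_out hp]
        ring
      · have : mW V p.2.1 = 0 := by
          unfold mW
          rw [chiW_out hp, mul_zero]
        rw [this]
        ring
      · rw [bS_out hp]
        ring
    simp only [e1]
    rw [hX]
    have e2 : p.1 + chiW V p.2.1 * bS h p.2.2 * (-(1 - ε) * mW V (min p.1 0)) = p.1 := by
      rcases hp with hp | hp | hp
      · have : mW V (min p.1 0) = 0 := by
          unfold mW
          rcases le_total p.1 0 with h2 | h2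
          · rw [min_eq_left h2, chiW_out hp, mul_zero]
          · rw [min_eq_right h2, zero_mul]
        rw [this]
        ring
      · rw [chiW_out hp]
        ring
      · rw [bS_out hp]
        ring
    simp only [e2]
    rw [hZ]
    have e3 : p.2.2 + chiW V p.1 * chiW V p.2.1 * (zL h p.2.2 - p.2.2) = p.2.2 := by
      rcases hp with hp | hp | hp | hp
      · rw [chiW_out hp]
        ring
      · rw [chiW_out hp]
        ring
      · rw [zL_low hp]
        ring
      · rw [zL_high hh hp]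
        ring
    simp only [e3]
  · intro p hp
    rw [hφ, hY]
    have e1 : p.2.1 + cl 1 (-p.1) * chiW V p.1 * bS h p.2.2 * (-(1 - ε) * mW V p.2.1) = p.2.1 := by
      rw [cl_low (by linarith)]
      ring
    simp only [e1]
    rw [hX]
    have e2 : p.1 + chiW V p.2.1 * bS h p.2.2 * (-(1 - ε) * mW V (min p.1 0)) = p.1 := by
      have : mW V (min p.1 0) = 0 := by
        unfold mW
        rw [min_eq_right hp, zero_mul]
      rw [this]
      ring
    simp only [e2]
    rw [hZ]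
  · intro p hp1 hp2
    rw [hφ, hY]
    have c1 := cS_pos h0 h1 h p.1 p.2.2
    have c2 := cS_le h1 h p.1 p.2.2
    have d1 := dS_pos h0 h1 h p.2.2
    have d2 := dS_le h1 h p.2.2
    have e1 : p.2.1 + cl 1 (-p.1) * chiW V p.1 * bS h p.2.2 * (-(1 - ε) * mW V p.2.1) =
        cS ε h p.1 p.2.2 * p.2.1 := by
      unfold mW cS
      rw [chiW_in hp1, chiW_in hp2]
      ring
    simp only [e1]
    have b1 : |cS ε h p.1 p.2.2 * p.2.1| ≤ V - 1 := by
      rw [abs_mul, abs_of_pos c1]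
      exact (mul_le_of_le_one_left (abs_nonneg _) c2).trans hp2
    rw [hX]
    have e2 : p.1 + chiW V (cS ε h p.1 p.2.2 * p.2.1) * bS h p.2.2 *
        (-(1 - ε) * mW V (min p.1 0)) = max p.1 0 + dS ε h p.2.2 * min p.1 0 := by
      have e3 : mW V (min p.1 0) = min p.1 0 := by
        unfold mW
        rcases le_total p.1 0 with h2 | h2
        · rw [min_eq_left h2, chiW_in hp1, mul_one]
        · rw [min_eq_right h2, zero_mul]
      rw [chiW_in b1, e3]
      have e4 := max_add_min p.1 0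
      unfold dS
      linear_combination -e4
    simp only [e2]
    have b2 : |max p.1 0 + dS ε h p.2.2 * min p.1 0| ≤ V - 1 := by
      rcases le_total p.1 0 with h2 | h2
      · rw [max_eq_right h2, min_eq_left h2, zero_add, abs_mul, abs_of_pos d1]
        exact (mul_le_of_le_one_left (abs_nonneg _) d2).trans hp1
      · rw [max_eq_left h2, min_eq_right h2, mul_zero, add_zero]
        exact hp1
    rw [hZ]
    simp only [chiW_in b1, chiW_in b2]
    refine Prod.ext rfl (Prod.ext rfl ?_)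
    simp only
    ring

end

/-! ### The columns of the mast -/

theorem mast_col (hh : 1 ≤ h) (hM : Mast T a b k h W) {P : R3} (hT : IsPolygon T)
    (hP : P ∈ body T)
    (h1 : |P.1 - a.1| < W) (h2 : |P.2.1 - a.2| < W) (h3 : (k : ℝ) < P.2.2)
    (h4 : P.2.2 < k + h + 1) :
    (P.1 = a.1 ∧ P.2.1 = a.2) ∨ (P.1 = b.1 ∧ P.2.1 = b.2) := by
  obtain ⟨u, v, huv, hx⟩ := hP
  have hadj := hT.adj u v huv
  have hx' := hx
  rw [segment_eq_image'] at hx'
  obtain ⟨t, ⟨t0, t1⟩, rfl⟩ := hx'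
  have e1 : (toR u + t • (toR v - toR u)).1 = (u.1 : ℝ) + t * (v.1 - u.1) := rfl
  have e2 : (toR u + t • (toR v - toR u)).2.1 = (u.2.1 : ℝ) + t * (v.2.1 - u.2.1) := rfl
  have e3 : (toR u + t • (toR v - toR u)).2.2 = (u.2.2 : ℝ) + t * (v.2.2 - u.2.2) := rfl
  rw [e1] at h1
  rw [e2] at h2
  rw [e3] at h3 h4
  rw [e1, e2]
  have key : ∀ p q c w : ℤ, |p - q| ≤ 1 → |(p : ℝ) + t * (q - p) - c| < w →
      |p - c| ≤ w ∧ |q - c| ≤ w := by
    intro p q c w hpq hlt
    rw [abs_lt] at hlt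
    rw [abs_le] at hpq
    have k1 : (p : ℝ) - 1 ≤ q ∧ (q : ℝ) ≤ p + 1 := by
      constructor
      · exact_mod_cast (by omega : p - 1 ≤ q)
      · exact_mod_cast (by omega : q ≤ p + 1)
    have hub : (p : ℝ) - c < w + 1 ∧ (q : ℝ) - c < w + 1 := by
      constructor <;> nlinarith
    have hlb : -((w : ℝ) + 1) < p - c ∧ -((w : ℝ) + 1) < q - c := by
      constructor <;> nlinarith
    have g1 : p - c < w + 1 := by exact_mod_cast hub.1
    have g2 : q - c < w + 1 := by exact_mod_cast hub.2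
    have g3 : -(w + 1) < p - c := by exact_mod_cast hlb.1
    have g4 : -(w + 1) < q - c := by exact_mod_cast hlb.2
    rw [abs_le, abs_le]
    omega
  have a1 : |u.1 - v.1| ≤ 1 ∧ |u.2.1 - v.2.1| ≤ 1 ∧ |u.2.2 - v.2.2| ≤ 1 := by
    unfold Adj at hadj
    have f1 := abs_nonneg (u.1 - v.1)
    have f2 := abs_nonneg (u.2.1 - v.2.1)
    have f3 := abs_nonneg (u.2.2 - v.2.2)
    omega
  obtain ⟨ux, vx⟩ := key _ _ _ _ a1.1 h1
  obtain ⟨uy, vy⟩ := key _ _ _ _ a1.2.1 h2
  -- an inner vertex of one of the columns has only vertical neighbours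
  have vert : ∀ u v : P3, s(u, v) ∈ T → |u.1 - a.1| ≤ W → |u.2.1 - a.2| ≤ W →
      k + 1 ≤ u.2.2 → u.2.2 ≤ k + h → (v.1, v.2.1) = (u.1, u.2.1) ∧
        ((u.1, u.2.1) = a ∨ (u.1, u.2.1) = b) := by
    intro u v huv g1 g2 g3 g4
    have hc := hM.free u ⟨v, huv⟩ g1 g2 (by omega) (by omega)
    refine ⟨?_, hc⟩
    have hcol : ∀ i : ℕ, i ≤ h → s((u.1, u.2.1, k + i), (u.1, u.2.1, k + i + 1)) ∈ T := by
      intro i hi
      rcases hc with hc | hc
      · have := hM.colA i hi
        rw [← hc] at this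
        exact this
      · have := hM.colB i hi
        rw [← hc] at this
        exact this
    obtain ⟨j, hj⟩ : ∃ j : ℕ, u.2.2 = k + j + 1 := ⟨(u.2.2 - k - 1).toNat, by omega⟩
    have n1 := hcol j (by omega)
    have n2 := hcol (j + 1) (by omega)
    have eu : u = (u.1, u.2.1, k + j + 1) := by
      rw [← hj]
    rw [Sym2.eq_swap, ← eu] at n1
    have eu2 : ((u.1, u.2.1, k + ((j + 1 : ℕ) : ℤ)) : P3) = u := by
      refine Prod.ext rfl (Prod.ext rfl ?_)
      simp only
      push_cast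
      omega
    rw [eu2] at n2
    rcases nbr_eq' hT n1 n2 (by
      intro he
      have := congrArg (fun p : P3 => p.2.2) he
      simp only at this
      push_cast at this
      omega) huv with he | he
    · rw [he]
    · rw [he]
  rcases eq_or_ne u.2.2 v.2.2 with hz | hz
  · -- a horizontal edge
    exfalso
    rw [hz, sub_self, mul_zero, add_zero] at h3 h4
    have g3 : k < v.2.2 := by exact_mod_cast h3
    have g4 : v.2.2 < k + h + 1 := by exact_mod_cast h4
    have h5 := (vert u v huv ux uy (by omega) (by omega)).1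
    simp only [Prod.mk.injEq] at h5
    exact (hT.adj u v huv).ne (Prod.ext h5.1.symm (Prod.ext h5.2.symm hz))
  · -- a vertical edge
    have e4 : u.1 = v.1 ∧ u.2.1 = v.2.1 := by
      unfold Adj at hadj
      have f1 := abs_nonneg (u.1 - v.1)
      have f2 := abs_nonneg (u.2.1 - v.2.1)
      have f3 : 1 ≤ |u.2.2 - v.2.2| := Int.one_le_abs (sub_ne_zero.2 hz)
      have f4 : |u.1 - v.1| = 0 := by omega
      have f5 : |u.2.1 - v.2.1| = 0 := by omega
      rw [abs_eq_zero] at f4 f5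
      omega
    have g1 : k ≤ u.2.2 ∧ k ≤ v.2.2 ∧ u.2.2 ≤ k + h + 1 ∧ v.2.2 ≤ k + h + 1 := by
      have f3 := a1.2.2
      rw [abs_le] at f3
      have r1 : (u.2.2 : ℝ) - 1 ≤ v.2.2 ∧ (v.2.2 : ℝ) ≤ u.2.2 + 1 := by
        constructor
        · exact_mod_cast (by omega : u.2.2 - 1 ≤ v.2.2)
        · exact_mod_cast (by omega : v.2.2 ≤ u.2.2 + 1)
      have r2 : (k : ℝ) - 1 < u.2.2 ∧ (k : ℝ) - 1 < v.2.2 := by constructor <;> nlinarith
      have r3 : (u.2.2 : ℝ) < k + h + 2 ∧ (v.2.2 : ℝ) < k + h + 2 := by constructor <;> nlinarith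
      have s1 : k - 1 < u.2.2 := by exact_mod_cast r2.1
      have s2 : k - 1 < v.2.2 := by exact_mod_cast r2.2
      have s3 : u.2.2 < k + h + 2 := by exact_mod_cast r3.1
      have s4 : v.2.2 < k + h + 2 := by exact_mod_cast r3.2
      omega
    have hc : (v.1, v.2.1) = a ∨ (v.1, v.2.1) = b := by
      by_cases g2 : k + 1 ≤ u.2.2 ∧ u.2.2 ≤ k + h
      · have := hM.free u ⟨v, huv⟩ ux uy g2.1 g2.2
        rwa [e4.1, e4.2] at this
      · have f3 := abs_le.1 a1.2.2
        refine hM.free v ⟨u, by rw [Sym2.eq_swap]; exact huv⟩ vx vy ?_ ?_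
        · omega
        · omega
    rw [e4.1, e4.2, sub_self, mul_zero, add_zero, sub_self, mul_zero, add_zero]
    rcases hc with hc | hc
    · left
      rw [← hc]
      exact ⟨rfl, rfl⟩
    · right
      rw [← hc]
      exact ⟨rfl, rfl⟩

/-- The columns belong to the body. -/
theorem col_body {c : ℤ × ℤ} (hc : ∀ i : ℕ, i ≤ h → s((c.1, c.2, k + i), (c.1, c.2, k + i + 1)) ∈ T)
    {w : ℝ} (h1 : (k : ℝ) ≤ w) (h2 : w ≤ k + h + 1) : (((c.1 : ℝ), (c.2 : ℝ), w) : R3) ∈ body T := by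
  have key : ∃ i : ℕ, i ≤ h ∧ (k : ℝ) + i ≤ w ∧ w ≤ k + i + 1 := by
    rcases h2.lt_or_eq with h3 | h3
    · refine ⟨⌊w - k⌋₊, ?_, ?_, ?_⟩
      · have : ⌊w - k⌋₊ < h + 1 := (Nat.floor_lt (by linarith)).2 (by push_cast; linarith)
        omega
      · have := Nat.floor_le (by linarith : 0 ≤ w - k)
        linarith
      · have := (Nat.lt_floor_add_one (w - k)).le
        linarith
    · exact ⟨h, le_rfl, by linarith, by linarith⟩
  obtain ⟨i, hi, h3, h4⟩ := key
  refine ⟨_, _, hc i hi, ?_⟩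
  rw [mem_vseg]
  refine ⟨rfl, rfl, ?_, ?_⟩
  · push_cast
    exact h3
  · push_cast
    exact h4

end Pool.Agent.KSing
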