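import Pool.Agent.KSing.Local

/-! A piece that is joined sideways to a mast is a pattern in a small box: the local lemma. -/

set_option autoImplicit false

open Set

namespace Pool.Agent.KSing

open Pool.Agent.LK Pool.Agent.KTube Pool.Agent.KTen

variable {K0 T E F : ES} {h : ℕ} {z k t : ℤ} {a b : ℤ × ℤ} {W : ℤ}

/-! ### The decomposition in standard position -/

theorem sj_mem0 {u v : P3} : s(u, v) ∈ sj K0 z (0, 0) T 0 ↔
    (s(u, v) ∈ T ∧ s(u, v) ≠ s((0, 0, z), (0, 0, z + 1))) ∨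
    (s(u, v) ∈ K0 ∧ s(u, v) ≠ s((-1, 0, z), (-1, 0, z + 1))) ∨
    s(u, v) = s((-1, 0, z), (0, 0, z)) ∨ s(u, v) = s((-1, 0, z + 1), (0, 0, z + 1)) := by
  have h0 : shift (0, 0, 0) K0 = K0 := shift_zero K0
  unfold sj
  rw [Finset.mem_union, Finset.mem_union, Finset.mem_sdiff, Finset.mem_sdiff,
    Finset.mem_insert, Finset.mem_singleton, Finset.mem_singleton, Finset.mem_singleton, or_assoc,
    h0]
  simp only [zero_add, zero_sub, ne_eq]

theorem wlex_ne (hb : WLex (0, 0) b) (h1 : |(b.1 : ℝ)| < 1) (h2 : |(b.2 : ℝ)| < 1) : False := by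
  rw [abs_lt] at h1 h2
  have e3 : -1 < b.1 ∧ b.1 < 1 := by exact_mod_cast h1
  have e4 : -1 < b.2 ∧ b.2 < 1 := by exact_mod_cast h2
  refine hb.2 (Prod.ext ?_ ?_)
  · simp only
    omega
  · simp only
    omega

theorem insr_loc (hK : LeftOf K0 h z) (hT : IsPolygon T) (hM : Mast T (0, 0) b 0 h W)
    (hW : 1 ≤ W) {J : Set R3} :
    insr (body (sj K0 z (0, 0) T 0)) (upl (0, 0) h) J =
      {P | P ∈ body T ∧ ¬ (P.1 = 0 ∧ P.2.1 = 0 ∧ 1 ≤ P.2.2 ∧ P.2.2 ≤ h + 3 / 4)} ∪
        VV K0 h z J := by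
  obtain ⟨z1, z2⟩ := leftOf_z hK
  have hz1 : (1 : ℝ) ≤ z := by exact_mod_cast z1
  have hz2 : (z : ℝ) + 1 ≤ h := by exact_mod_cast z2
  have hWR : (1 : ℝ) ≤ W := by exact_mod_cast hW
  have hlow : ∀ P : R3, P.2.2 ≤ h → P ∉ upl (0, 0) h '' Bx := by
    intro P hP hb
    have := (abs_le.1 (mem_upl_box.1 hb).2.2).1
    simp only [Int.cast_natCast] at this
    linarith
  ext P
  constructor
  · rintro (⟨⟨u, v, huv, hx⟩, hbx⟩ | hJ)
    · rcases sj_mem0.1 huv with ⟨h1, h2⟩ | ⟨h1, h2⟩ | h1 | h1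
      · by_cases hcond : P.1 = 0 ∧ P.2.1 = 0 ∧ 1 ≤ P.2.2 ∧ P.2.2 ≤ h + 3 / 4
        · obtain ⟨c3, c4, c1, c2⟩ := hcond
          have key : P.2.2 ≤ z ∨ (z : ℝ) + 1 ≤ P.2.2 := by
            by_contra hcon
            push Not at hcon
            rcases adj_cases z (hT.adj u v h1) with ⟨h3, h4⟩ | ⟨h3, h4⟩ | ⟨x, y, hxy⟩
            · have := seg_bounds hx (c := z) (by exact_mod_cast h3) (by exact_mod_cast h4)
              linarith
            · have := seg_bounds' hx (c := (z : ℝ) + 1) (by exact_mod_cast h3)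
                (by exact_mod_cast h4)
              linarith
            · have h3 := mem_vseg.1 (seg_of_eq hxy hx)
              rw [c3, c4] at h3
              have e1 : x = 0 := by exact_mod_cast h3.1.symm
              have e2 : y = 0 := by exact_mod_cast h3.2.1.symm
              rw [e1, e2] at hxy
              exact h2 hxy
          exact Or.inr (Or.inl (Or.inr ⟨c3, c4, c1, c2, key, hbx⟩))
        · exact Or.inl ⟨⟨u, v, h1, hx⟩, hcond⟩
      · right
        refine Or.inl (Or.inl (Or.inl (Or.inl ⟨u, v, ?_, hx⟩)))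
        rw [Finset.mem_sdiff, Finset.mem_singleton]
        exact ⟨h1, h2⟩
      · exact Or.inr (Or.inl (Or.inl (Or.inl (Or.inr (seg_of_eq h1 hx)))))
      · exact Or.inr (Or.inl (Or.inl (Or.inr (seg_of_eq h1 hx))))
    · exact Or.inr (Or.inr hJ)
  · rintro (⟨hP, hcond⟩ | ((((hV | hV) | hV) | hV) | hV))
    · left
      refine ⟨?_, fun hbx => ?_⟩
      · obtain ⟨u, v, huv, hx⟩ := hP
        refine ⟨u, v, sj_mem0.2 (Or.inl ⟨huv, fun he => ?_⟩), hx⟩
        obtain ⟨h4, h5, h6, h7⟩ := mem_vseg.1 (seg_of_eq he hx)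
        exact hcond ⟨by simpa using h4, by simpa using h5, by linarith, by linarith⟩
      · rw [mem_upl_box] at hbx
        obtain ⟨h1, h2, h3⟩ := hbx
        simp only [Int.cast_natCast, Int.cast_zero, sub_zero] at h1 h2 h3
        have h3' := abs_le.1 h3
        rcases mast_col (by omega) hM hT hP (by simp only [Int.cast_zero, sub_zero]; linarith)
          (by simp only [Int.cast_zero, sub_zero]; linarith)
          (by simp only [Int.cast_zero]; linarith)
          (by simp only [Int.cast_zero, zero_add]; linarith) with h4 | h4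
        · exact hcond ⟨by simpa using h4.1, by simpa using h4.2, by linarith, by linarith⟩
        · rw [h4.1] at h1
          rw [h4.2] at h2
          exact wlex_ne hM.wlex (by linarith) (by linarith)
    · left
      have h1 := body_K0 hK hV
      refine ⟨?_, hlow P h1.2.2.2⟩
      obtain ⟨u, v, huv, hx⟩ := hV
      rw [Finset.mem_sdiff, Finset.mem_singleton] at huv
      exact ⟨u, v, sj_mem0.2 (Or.inr (Or.inl huv)), hx⟩
    · left
      refine ⟨⟨_, _, sj_mem0.2 (Or.inr (Or.inr (Or.inl rfl))), hV⟩, hlow P ?_⟩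
      have := (mem_hseg hV).2.2.2
      linarith
    · left
      refine ⟨⟨_, _, sj_mem0.2 (Or.inr (Or.inr (Or.inr rfl))), hV⟩, hlow P ?_⟩
      have := (mem_hseg hV).2.2.2
      push_cast at this
      linarith
    · left
      obtain ⟨h1, h2, h3, h4, h5, h6⟩ := hV
      refine ⟨?_, h6⟩
      have hP := col_body (c := (0, 0)) (k := 0) hM.colA (w := P.2.2)
        (by simp only [Int.cast_zero]; linarith)
        (by simp only [Int.cast_zero, zero_add]; linarith)
      have eP : ((((0 : ℤ) : ℝ), ((0 : ℤ) : ℝ), P.2.2) : R3) = P := by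
        refine Prod.ext ?_ (Prod.ext ?_ rfl)
        · simp [h1]
        · simp [h2]
      have hP' : P ∈ body T := by
        rw [← eP]
        exact hP
      obtain ⟨u, v, huv, hx⟩ := hP'
      by_cases he : s(u, v) = s((0, 0, z), (0, 0, z + 1))
      · obtain ⟨-, -, h7, h8⟩ := mem_vseg.1 (seg_of_eq he hx)
        rcases h5 with h5 | h5
        · refine ⟨_, _, sj_mem0.2 (Or.inr (Or.inr (Or.inl rfl))), ?_⟩
          have e : P = toR (0, 0, z) := by
            rw [← eP]
            have : P.2.2 = z := le_antisymm h5 h7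
            rw [this]
            simp [toR]
          rw [e]
          exact right_mem_segment ℝ _ _
        · refine ⟨_, _, sj_mem0.2 (Or.inr (Or.inr (Or.inr rfl))), ?_⟩
          have e : P = toR (0, 0, z + 1) := by
            rw [← eP]
            have : P.2.2 = z + 1 := le_antisymm h8 h5
            rw [this]
            simp [toR]
          rw [e]
          exact right_mem_segment ℝ _ _
      · exact ⟨u, v, sj_mem0.2 (Or.inl ⟨huv, he⟩), hx⟩
    · exact Or.inr hV

/-! ### The image -/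

section

variable {V ε : ℝ} {φ : R3 ≃ₜ R3}

theorem loc_U (hT : IsPolygon T) (hM : Mast T (0, 0) b 0 h W) (hh : 1 ≤ h) (hW : 2 ≤ W)
    (hφ1 : ∀ p : R3, (W : ℝ) ≤ |p.1| ∨ (W : ℝ) ≤ |p.2.1| ∨ p.2.2 ≤ 0 ∨ (h : ℝ) + 1 ≤ p.2.2 →
      φ p = p)
    (hφ2 : ∀ p : R3, 0 ≤ p.1 → φ p = (p.1, p.2.1, p.2.2 +
      chiW W p.1 * chiW W p.2.1 * (zL h p.2.2 - p.2.2))) :
    φ '' {P | P ∈ body T ∧ ¬ (P.1 = 0 ∧ P.2.1 = 0 ∧ 1 ≤ P.2.2 ∧ P.2.2 ≤ h + 3 / 4)} =
      body T \ upl (0, 0) 0 '' Bx := by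
  have h1R : (1 : ℝ) ≤ h := by exact_mod_cast hh
  have hWR : (2 : ℝ) ≤ W := by exact_mod_cast hW
  have hmono := strictMono_zL hh
  have e15 := zL_one hh
  have e17 := zL_top hh
  have e0 : zL h 0 = 0 := zL_low le_rfl
  have e1 : zL h (h + 1) = h + 1 := zL_high hh le_rfl
  have hb1 : (0 : ℝ) ≤ b.1 := by exact_mod_cast hM.wlex.1
  -- the inside of the region
  have inside : ∀ P ∈ body T, ¬ ((W : ℝ) ≤ |P.1| ∨ (W : ℝ) ≤ |P.2.1| ∨ P.2.2 ≤ 0 ∨
      (h : ℝ) + 1 ≤ P.2.2) → 0 < P.2.2 ∧ P.2.2 < h + 1 ∧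
        ((P.1 = 0 ∧ P.2.1 = 0) ∨ (P.1 = b.1 ∧ P.2.1 = b.2)) := by
    intro P hP hn
    push Not at hn
    obtain ⟨n1, n2, n3, n4⟩ := hn
    refine ⟨n3, n4, ?_⟩
    have := mast_col hh hM hT hP (by simp only [Int.cast_zero, sub_zero]; exact n1)
      (by simp only [Int.cast_zero, sub_zero]; exact n2) (by simp only [Int.cast_zero]; exact n3)
      (by simp only [Int.cast_zero, zero_add]; exact n4)
    simpa using this
  have colmem : ∀ (c : ℤ × ℤ) (w : ℝ), (c = (0, 0) ∨ c = b) → 0 ≤ w → w ≤ h + 1 →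
      (((c.1 : ℝ), (c.2 : ℝ), w) : R3) ∈ body T := by
    intro c w hc h0 h1
    rcases hc with rfl | rfl
    · exact col_body (k := 0) hM.colA (by simp only [Int.cast_zero]; exact h0)
        (by simp only [Int.cast_zero, zero_add]; exact h1)
    · exact col_body (k := 0) hM.colB (by simp only [Int.cast_zero]; exact h0)
        (by simp only [Int.cast_zero, zero_add]; exact h1)
  -- the movement along a column
  have hg : ∀ g w : ℝ, 0 ≤ g → g ≤ 1 → 0 < w → w < h + 1 →
      0 < w + g * (zL h w - w) ∧ w + g * (zL h w - w) < h + 1 := by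
    intro g w g0 g1 w0 w1
    have k1 := hmono w0
    have k2 := hmono w1
    rw [e0] at k1
    rw [e1] at k2
    have e2 : w + g * (zL h w - w) = (1 - g) * w + g * zL h w := by ring
    rw [e2]
    rcases g0.lt_or_eq with g2 | g2
    · have m1 := mul_pos g2 k1
      have m2 := mul_nonneg (sub_nonneg.2 g1) w0.le
      have m3 := mul_pos g2 (sub_pos.2 k2)
      have m4 := mul_nonneg (sub_nonneg.2 g1) (sub_pos.2 w1).le
      constructor
      · linarith
      · nlinarith
    · rw [← g2]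
      constructor <;> linarith
  ext R
  constructor
  · rintro ⟨P, ⟨hP, hcond⟩, rfl⟩
    by_cases hreg : (W : ℝ) ≤ |P.1| ∨ (W : ℝ) ≤ |P.2.1| ∨ P.2.2 ≤ 0 ∨ (h : ℝ) + 1 ≤ P.2.2
    · rw [hφ1 P hreg]
      refine ⟨hP, fun hbx => ?_⟩
      rw [mem_upl_box] at hbx
      obtain ⟨k1, k2, k3⟩ := hbx
      simp only [Int.cast_zero, sub_zero, zero_add] at k1 k2 k3
      rw [abs_le] at k3
      rcases hreg with r | r | r | r
      · linarith
      · linarith
      · linarith
      · linarith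
    · obtain ⟨w0, w1, hc⟩ := inside P hP hreg
      rcases hc with hc | hc
      · have hx0 : φ P = (0, 0, zL h P.2.2) := by
          rw [hφ2 P (by rw [hc.1]), hc.1, hc.2, chiW_in (by rw [abs_zero]; linarith)]
          refine Prod.ext rfl (Prod.ext rfl ?_)
          simp only
          ring
        rw [hx0]
        have k1 := hmono w0
        have k2 := hmono w1
        rw [e0] at k1
        rw [e1] at k2
        refine ⟨by simpa using colmem (0, 0) (zL h P.2.2) (Or.inl rfl) k1.le k2.le,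
          fun hbx => ?_⟩
        rw [mem_upl_box] at hbx
        have k3 := abs_le.1 hbx.2.2
        simp only [Int.cast_zero, zero_add] at k3
        have k4 : ¬ (1 ≤ P.2.2 ∧ P.2.2 ≤ h + 3 / 4) := fun hn => hcond ⟨hc.1, hc.2, hn⟩
        rw [not_and_or, not_le, not_le] at k4
        rcases k4 with k4 | k4
        · have := hmono k4
          linarith
        · have := hmono k4
          linarith
      · have hx0 : φ P = ((b.1 : ℝ), (b.2 : ℝ), P.2.2 +
            chiW W b.1 * chiW W b.2 * (zL h P.2.2 - P.2.2)) := by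
          rw [hφ2 P (by rw [hc.1]; exact hb1), hc.1, hc.2]
        rw [hx0]
        have k1 := hg (chiW W b.1 * chiW W b.2) P.2.2
          (mul_nonneg (chiW_nonneg _ _) (chiW_nonneg _ _))
          (mul_le_one₀ (chiW_le _ _) (chiW_nonneg _ _) (chiW_le _ _)) w0 w1
        refine ⟨colmem b _ (Or.inr rfl) k1.1.le k1.2.le, fun hbx => ?_⟩
        rw [mem_upl_box] at hbx
        obtain ⟨k3, k4, -⟩ := hbx
        simp only [Int.cast_zero, sub_zero] at k3 k4
        exact wlex_ne hM.wlex (by linarith) (by linarith)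
  · rintro ⟨hR, hbx⟩
    by_cases hreg : (W : ℝ) ≤ |R.1| ∨ (W : ℝ) ≤ |R.2.1| ∨ R.2.2 ≤ 0 ∨ (h : ℝ) + 1 ≤ R.2.2
    · refine ⟨R, ⟨hR, ?_⟩, hφ1 R hreg⟩
      rintro ⟨k1, k2, k3, k4⟩
      rcases hreg with r | r | r | r
      · rw [k1, abs_zero] at r
        linarith
      · rw [k2, abs_zero] at r
        linarith
      · linarith
      · linarith
    · obtain ⟨w0, w1, hc⟩ := inside R hR hreg
      -- the preimage in the column
      have hpre : ∀ g : ℝ, 0 ≤ g → g ≤ 1 → ∃ w : ℝ, 0 ≤ w ∧ w ≤ h + 1 ∧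
          w + g * (zL h w - w) = R.2.2 := by
        intro g g0 g1
        have hcont : ContinuousOn (fun w => w + g * (zL h w - w)) (Icc 0 ((h : ℝ) + 1)) := by
          have := continuous_zL (h := h)
          fun_prop
        have h4 := intermediate_value_Icc (by positivity : (0 : ℝ) ≤ h + 1) hcont
        have h5 : R.2.2 ∈ Icc ((fun w => w + g * (zL h w - w)) 0)
            ((fun w => w + g * (zL h w - w)) ((h : ℝ) + 1)) := by
          constructor
          · simp only [e0]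
            linarith
          · simp only [e1]
            linarith
        obtain ⟨w, hw, hw'⟩ := h4 h5
        exact ⟨w, hw.1, hw.2, hw'⟩
      rcases hc with hc | hc
      · obtain ⟨w, k1, k2, k3⟩ := hpre 1 zero_le_one le_rfl
        have k4 : zL h w = R.2.2 := by linarith
        have eR : φ (0, 0, w) = R := by
          rw [hφ2 _ le_rfl]
          simp only [chiW_in (show |(0 : ℝ)| ≤ (W : ℝ) - 1 by rw [abs_zero]; linarith)]
          refine Prod.ext hc.1.symm (Prod.ext hc.2.symm ?_)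
          simp only
          linarith
        refine ⟨(0, 0, w), ⟨by simpa using colmem (0, 0) w (Or.inl rfl) k1 k2, ?_⟩, eR⟩
        rintro ⟨-, -, k5, k6⟩
        have k7 := hmono.monotone k5
        have k8 := hmono.monotone k6
        refine hbx (mem_upl_box.2 ⟨?_, ?_, ?_⟩)
        · rw [hc.1, Int.cast_zero, sub_zero, abs_zero]
          norm_num
        · rw [hc.2, Int.cast_zero, sub_zero, abs_zero]
          norm_num
        · rw [Int.cast_zero, zero_add, abs_le]
          simp only at k7 k8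
          constructor <;> linarith
      · obtain ⟨w, k1, k2, k3⟩ := hpre (chiW W b.1 * chiW W b.2)
          (mul_nonneg (chiW_nonneg _ _) (chiW_nonneg _ _))
          (mul_le_one₀ (chiW_le _ _) (chiW_nonneg _ _) (chiW_le _ _))
        have eR : φ ((b.1 : ℝ), (b.2 : ℝ), w) = R := by
          rw [hφ2 _ hb1]
          exact Prod.ext hc.1.symm (Prod.ext hc.2.symm k3)
        refine ⟨((b.1 : ℝ), (b.2 : ℝ), w), ⟨colmem b w (Or.inr rfl) k1 k2, ?_⟩, eR⟩
        rintro ⟨k5, k6, -, -⟩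
        simp only at k5 k6
        exact wlex_ne hM.wlex (by rw [k5, abs_zero]; exact one_pos)
          (by rw [k6, abs_zero]; exact one_pos)

end

/-- The bounds of the content. -/
theorem VV_bounds (hK : LeftOf K0 h z) (hW : 2 ≤ W)
    (hKW : ∀ u ∈ verts K0, |u.1| ≤ W - 1 ∧ |u.2.1| ≤ W - 1) {J : Set R3} (hJ : J ⊆ Bx) {P : R3}
    (hP : P ∈ VV K0 h z J) : |P.1| ≤ W - 1 ∧ |P.2.1| ≤ W - 1 ∧ P.2.2 ≤ h + 3 / 4 := by
  obtain ⟨z1, z2⟩ := leftOf_z hK
  have hz2 : (z : ℝ) + 1 ≤ h := by exact_mod_cast z2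
  have hWR : (2 : ℝ) ≤ W := by exact_mod_cast hW
  have segb : ∀ (p q : ℤ) (s : ℝ), 0 ≤ s → s ≤ 1 → |p| ≤ W - 1 → |q| ≤ W - 1 →
      |(p : ℝ) + s * (q - p)| ≤ (W : ℝ) - 1 := by
    intro p q s s0 s1 hp hq
    rw [abs_le] at hp hq ⊢
    have a1 : -((W : ℝ) - 1) ≤ p := by exact_mod_cast (by omega : -(W - 1) ≤ p)
    have a2 : (p : ℝ) ≤ W - 1 := by exact_mod_cast hp.2
    have a3 : -((W : ℝ) - 1) ≤ q := by exact_mod_cast (by omega : -(W - 1) ≤ q)
    have a4 : (q : ℝ) ≤ W - 1 := by exact_mod_cast hq.2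
    constructor <;> nlinarith
  rcases hP with (((hV | hV) | hV) | hV) | hV
  · have h1 := body_K0 hK hV
    obtain ⟨u, v, huv, hx⟩ := hV
    rw [Finset.mem_sdiff] at huv
    have hu := hKW u (left_mem_verts huv.1)
    have hv := hKW v (right_mem_verts huv.1)
    rw [segment_eq_image'] at hx
    obtain ⟨s, ⟨s0, s1⟩, rfl⟩ := hx
    exact ⟨segb _ _ s s0 s1 hu.1 hv.1, segb _ _ s s0 s1 hu.2 hv.2, by linarith [h1.2.2.2]⟩
  · obtain ⟨k1, k2, k3, k4⟩ := mem_hseg hV
    refine ⟨abs_le.2 ⟨by linarith, by linarith⟩, ?_, by linarith⟩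
    rw [k3, abs_zero]
    linarith
  · obtain ⟨k1, k2, k3, k4⟩ := mem_hseg hV
    push_cast at k4
    refine ⟨abs_le.2 ⟨by linarith, by linarith⟩, ?_, by linarith⟩
    rw [k3, abs_zero]
    linarith
  · obtain ⟨k1, k2, -, k4, -⟩ := hV
    rw [k1, k2, abs_zero]
    exact ⟨by linarith, by linarith, k4⟩
  · obtain ⟨k1, k2, k3⟩ := mem_upl_box.1 (image_mono hJ hV)
    simp only [Int.cast_zero, sub_zero, Int.cast_natCast] at k1 k2 k3
    rw [abs_le] at k3
    exact ⟨by linarith, by linarith, by linarith⟩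

/-- The local pattern in standard position. -/
theorem loc_std (hK : LeftOf K0 h z) : ∃ JJ : Set R3 → Set R3, (∀ J ⊆ Bx, JJ J ⊆ Bx) ∧
    ∀ (W : ℤ) (T : ES) (b : ℤ × ℤ), 2 ≤ W →
      (∀ u ∈ verts K0, |u.1| ≤ W - 1 ∧ |u.2.1| ≤ W - 1) → IsPolygon T → Mast T (0, 0) b 0 h W →
      ∀ J ⊆ Bx, EqvS (insr (body (sj K0 z (0, 0) T 0)) (upl (0, 0) h) J)
        (insr (body T) (upl (0, 0) 0) (JJ J)) := by
  obtain ⟨z1, z2⟩ := leftOf_z hK
  have hh : 1 ≤ h := by omega
  obtain ⟨N₀, hN₀⟩ := (isCompact_body K0).isBounded.exists_norm_le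
  set N : ℝ := max N₀ 1 with hNdef
  have hN : 1 ≤ N := le_max_right _ _
  have hNK : ∀ p ∈ body K0, ‖p‖ ≤ N := fun p hp => (hN₀ p hp).trans (le_max_left _ _)
  have hNpos : 0 < N := by linarith
  have h0 : 0 < 1 / (32 * N) := by positivity
  have h1 : 1 / (32 * N) ≤ 1 := by
    rw [div_le_one (by positivity)]
    linarith
  obtain ⟨φ', hφ'⟩ := exists_sq h0 h1 hh
  refine ⟨fun J => {p | p ∈ Bx ∧ upl (0, 0) 0 p ∈ φ' '' VV K0 h z J}, fun J _ p hp => hp.1, ?_⟩
  intro W T b hW hKW hT hM J hJ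
  have hWR : (2 : ℝ) ≤ W := by exact_mod_cast hW
  obtain ⟨φ, hφ1, hφ2, hφ3⟩ := exists_loc (V := W) h0 h1 hh (by linarith)
  have hV : φ '' VV K0 h z J = φ' '' VV K0 h z J := by
    refine image_congr fun P hP => ?_
    obtain ⟨k1, k2, k3⟩ := VV_bounds hK hW hKW hJ hP
    rw [hφ3 P k1 k2, hφ' P, zL_eq k3]
  refine Eqv.toS ⟨φ, ?_⟩
  rw [insr_loc hK hT hM (by omega), image_union, loc_U hT hM hh hW hφ1 hφ2, hV]
  unfold insr
  congr 1
  ext R
  constructor
  · intro hR
    obtain ⟨p, hp, rfl⟩ := sq_V hK hN hNK hφ' hJ hR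
    exact ⟨p, ⟨hp, hR⟩, rfl⟩
  · rintro ⟨p, ⟨-, hp⟩, rfl⟩
    exact hp

end Pool.Agent.KSing
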