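import Pool.Agent.KSing.LocalB

/-! A piece that is joined sideways to a mast: general position, and the theorem that only the
direction of the mast matters. -/

set_option autoImplicit false

open Set

namespace Pool.Agent.KSing

open Pool.Agent.LK Pool.Agent.KTube Pool.Agent.KTen

variable {K0 T E F : ES} {h : ℕ} {z k t : ℤ} {a b : ℤ × ℤ} {W : ℤ}

/-! ### Translations -/

theorem sj_shift (r : P3) (K0 : ES) (z : ℤ) (a : ℤ × ℤ) (T : ES) (k : ℤ) :
    shift r (sj K0 z a T k) = sj K0 z (a.1 + r.1, a.2 + r.2.1) (shift r T) (k + r.2.2) := by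
  have hinj : Function.Injective (Sym2.map fun u : P3 => u + r) :=
    Sym2.map.injective (add_left_injective r)
  have e0 : ∀ A B : ES, shift r (A ∪ B) = shift r A ∪ shift r B := fun A B => by
    unfold shift mapE
    exact Finset.image_union _ _
  have e1 : ∀ A B : ES, shift r (A \ B) = shift r A \ shift r B := fun A B => by
    unfold shift mapE
    exact Finset.image_sdiff _ _ hinj
  have e2 : ∀ u v : P3, shift r {s(u, v)} = {s(u + r, v + r)} := fun u v => by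
    unfold shift mapE
    rw [Finset.image_singleton, Sym2.map_mk]
  have e3 : ∀ (e : Sym2 P3) (A : ES), shift r (insert e A) = insert (Sym2.map (fun u => u + r) e)
      (shift r A) := fun e A => by
    unfold shift mapE
    exact Finset.image_insert _ _ _
  unfold sj
  rw [e0, e0, e1, e1, e2, e2, e3, e2, Sym2.map_mk, shift_shift]
  have f : ∀ p q w : ℤ, ((p, q, w) : P3) + r = (p + r.1, q + r.2.1, w + r.2.2) := fun p q w => by
    ext <;> simp
  have g : r + ((a.1, a.2, k) : P3) = (a.1 + r.1, a.2 + r.2.1, k + r.2.2) := by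
    ext <;> simp <;> ring
  have g1 : k + z + r.2.2 = k + r.2.2 + z := by ring
  have g2 : k + z + 1 + r.2.2 = k + r.2.2 + z + 1 := by ring
  have g3 : a.1 - 1 + r.1 = a.1 + r.1 - 1 := by ring
  simp only [f, g, g1, g2, g3]

theorem Mast.shift (hM : Mast T a b k h W) (r : P3) :
    Mast (shift r T) (a.1 + r.1, a.2 + r.2.1) (b.1 + r.1, b.2 + r.2.1) (k + r.2.2) h W := by
  have e : ∀ p q w : ℤ, ((p + r.1, q + r.2.1, w + r.2.2) : P3) - r = (p, q, w) := fun p q w => by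
    ext <;> simp
  refine ⟨?_, ?_, ?_, ?_⟩
  · refine ⟨by simpa using hM.wlex.1, fun he => hM.wlex.2 ?_⟩
    simp only [Prod.mk.injEq] at he
    exact Prod.ext (by omega) (by omega)
  · intro i hi
    rw [mem_shift]
    have g1 : k + r.2.2 + (i : ℤ) = k + i + r.2.2 := by ring
    have g2 : k + r.2.2 + (i : ℤ) + 1 = k + i + 1 + r.2.2 := by ring
    simp only
    rw [g2, g1, e, e]
    exact hM.colA i hi
  · intro i hi
    rw [mem_shift]
    have g1 : k + r.2.2 + (i : ℤ) = k + i + r.2.2 := by ring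
    have g2 : k + r.2.2 + (i : ℤ) + 1 = k + i + 1 + r.2.2 := by ring
    simp only
    rw [g2, g1, e, e]
    exact hM.colB i hi
  · intro u hu h1 h2 h3 h4
    have h5 := hM.free (u - r) (mem_verts_shift.1 hu)
      (by
        have e1 : (u - r).1 - a.1 = u.1 - (a.1 + r.1) := by rw [Prod.fst_sub]; ring
        rw [e1]; exact h1)
      (by
        have e1 : (u - r).2.1 - a.2 = u.2.1 - (a.2 + r.2.1) := by
          rw [Prod.snd_sub, Prod.fst_sub]; ring
        rw [e1]; exact h2)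
      (by rw [Prod.snd_sub, Prod.snd_sub]; omega)
      (by rw [Prod.snd_sub, Prod.snd_sub]; omega)
    obtain ⟨a1, a2⟩ := a
    obtain ⟨b1, b2⟩ := b
    simp only [Prod.fst_sub, Prod.snd_sub, Prod.mk.injEq] at h5 ⊢
    rcases h5 with h5 | h5
    · left
      omega
    · right
      omega

/-! ### The rotation -/

theorem Mast.rt (hM : Mast T a b k h W) (t : ℤ) :
    Mast (mapE (rt t) T) (a.1, -a.2) (b.1, -b.2) (t - k - h - 1) h W := by
  refine ⟨wlex_rt hM.wlex, ?_, ?_, ?_⟩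
  · intro i hi
    rw [mem_mapE_rt, rt_apply, rt_apply, Sym2.eq_swap]
    have := hM.colA (h - i) (by omega)
    rw [Nat.cast_sub hi] at this
    have e1 : t - (t - k - h - 1 + i + 1) = k + ((h : ℤ) - i) := by ring
    have e2 : t - (t - k - h - 1 + i) = k + ((h : ℤ) - i) + 1 := by ring
    simp only [neg_neg, e1, e2]
    exact this
  · intro i hi
    rw [mem_mapE_rt, rt_apply, rt_apply, Sym2.eq_swap]
    have := hM.colB (h - i) (by omega)
    rw [Nat.cast_sub hi] at this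
    have e1 : t - (t - k - h - 1 + i + 1) = k + ((h : ℤ) - i) := by ring
    have e2 : t - (t - k - h - 1 + i) = k + ((h : ℤ) - i) + 1 := by ring
    simp only [neg_neg, e1, e2]
    exact this
  · intro u hu h1 h2 h3 h4
    have hu' := mem_verts_rt.1 hu
    rw [rt_apply] at hu'
    have h5 := hM.free _ hu' h1 (by
      simp only
      have e1 : -u.2.1 - a.2 = -(u.2.1 - -a.2) := by ring
      rw [e1, abs_neg]
      exact h2) (by simp only; omega) (by simp only; omega)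
    obtain ⟨a1, a2⟩ := a
    obtain ⟨b1, b2⟩ := b
    simp only [Prod.mk.injEq] at h5 ⊢
    omega

theorem sj_mem {u v : P3} : s(u, v) ∈ sj K0 z a T k ↔
    (s(u, v) ∈ T ∧ s(u, v) ≠ s((a.1, a.2, k + z), (a.1, a.2, k + z + 1))) ∨
    (s(u, v) ∈ shift (a.1, a.2, k) K0 ∧
      s(u, v) ≠ s((a.1 - 1, a.2, k + z), (a.1 - 1, a.2, k + z + 1))) ∨
    s(u, v) = s((a.1 - 1, a.2, k + z), (a.1, a.2, k + z)) ∨
      s(u, v) = s((a.1 - 1, a.2, k + z + 1), (a.1, a.2, k + z + 1)) := by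
  unfold sj
  rw [Finset.mem_union, Finset.mem_union, Finset.mem_sdiff, Finset.mem_sdiff,
    Finset.mem_insert, Finset.mem_singleton, Finset.mem_singleton, Finset.mem_singleton, or_assoc]

theorem sj_rt (h : ℕ) (t : ℤ) : mapE (rt t) (sj K0 z a T k) =
    sj (rvK K0 h) (h - z) (a.1, -a.2) (mapE (rt t) T) (t - k - h - 1) := by
  refine edge_ext fun u v => ?_
  rw [mem_mapE_rt, sj_mem, sj_mem, mem_mapE_rt]
  have e1 : ∀ (p : ℤ), s(rt t u, rt t v) = s((p, a.2, k + z), (p, a.2, k + z + 1)) ↔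
      s(u, v) = s((p, -a.2, t - k - h - 1 + (h - z)), (p, -a.2, t - k - h - 1 + (h - z) + 1)) := by
    intro p
    rw [rt_edge, rt_apply, rt_apply, Sym2.eq_swap (a := (p, -a.2, t - (k + z)))]
    have e2 : t - (k + z + 1) = t - k - h - 1 + (h - z) := by ring
    have e3 : t - (k + z) = t - k - h - 1 + (h - z) + 1 := by ring
    simp only [e2, e3]
  have e2 : s(rt t u, rt t v) ∈ shift (a.1, a.2, k) K0 ↔
      s(u, v) ∈ shift (a.1, -a.2, t - k - h - 1) (rvK K0 h) := by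
    rw [mem_shift, mem_shift, rvK, mem_mapE_rt]
    have e3 : ∀ w : P3, rt t w - (a.1, a.2, k) = rt (h + 1) (w - (a.1, -a.2, t - k - h - 1)) := by
      intro w
      obtain ⟨w1, w2, w3⟩ := w
      rw [rt_apply, rt_apply]
      simp only [Prod.mk_sub_mk, Prod.mk.injEq, true_and]
      constructor <;> ring
    rw [e3, e3]
  have e3 : s(rt t u, rt t v) = s((a.1 - 1, a.2, k + z), (a.1, a.2, k + z)) ↔
      s(u, v) = s((a.1 - 1, -a.2, t - k - h - 1 + (h - z) + 1),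
        (a.1, -a.2, t - k - h - 1 + (h - z) + 1)) := by
    rw [rt_edge, rt_apply, rt_apply]
    have e3 : t - (k + z) = t - k - h - 1 + (h - z) + 1 := by ring
    simp only [e3]
  have e4 : s(rt t u, rt t v) = s((a.1 - 1, a.2, k + z + 1), (a.1, a.2, k + z + 1)) ↔
      s(u, v) = s((a.1 - 1, -a.2, t - k - h - 1 + (h - z)),
        (a.1, -a.2, t - k - h - 1 + (h - z))) := by
    rw [rt_edge, rt_apply, rt_apply]
    have e3 : t - (k + z + 1) = t - k - h - 1 + (h - z) := by ring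
    simp only [e3]
  rw [ne_eq, ne_eq, e1, e1, e2, e3, e4]
  simp only [ne_eq]
  tauto

/-! ### The patterns -/

theorem loc_above (hK : LeftOf K0 h z) : ∃ JJ : Set R3 → Set R3, (∀ J ⊆ Bx, JJ J ⊆ Bx) ∧
    ∀ (W : ℤ) (T : ES) (k : ℤ) (a b : ℤ × ℤ), 2 ≤ W →
      (∀ u ∈ verts K0, |u.1| ≤ W - 1 ∧ |u.2.1| ≤ W - 1) → IsPolygon T → Mast T a b k h W →
      ∀ J ⊆ Bx, EqvS (insr (body (sj K0 z a T k)) (upl a (k + h)) J)
        (insr (body T) (upl a k) (JJ J)) := by
  obtain ⟨JJ, hJJ, hstd⟩ := loc_std hK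
  refine ⟨JJ, hJJ, fun W T k a b hW hKW hT hM J hJ => ?_⟩
  set r : P3 := (-a.1, -a.2, -k) with hr
  have e0 : ((a.1 + r.1, a.2 + r.2.1) : ℤ × ℤ) = (0, 0) := by
    simp [hr]
  have e1 : k + r.2.2 = 0 := by simp [hr]
  have h1 := sj_shift r K0 z a T k
  rw [e0, e1] at h1
  have hM' := hM.shift r
  rw [e0, e1] at hM'
  have h2 := hstd W (shift r T) _ hW hKW (isPolygon_shift hT r) hM' J hJ
  have h3 := eqP_shift (sj K0 z a T k) r (a.1, a.2, k + h) (0, 0, 1) (1, 0, 0) J hJ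
  have h4 := eqP_shift T r (a.1, a.2, k) (0, 0, 1) (1, 0, 0) (JJ J) (hJJ J hJ)
  have e2 : ((a.1, a.2, k + h) : P3) + r = (0, 0, (h : ℤ)) := by
    simp [hr]
  have e3 : ((a.1, a.2, k) : P3) + r = (0, 0, 0) := by
    simp [hr]
  rw [h1, e2] at h3
  rw [e3] at h4
  exact (h3.trans h2).trans h4.symm

theorem rvK_bd (hKW : ∀ u ∈ verts K0, |u.1| ≤ W - 1 ∧ |u.2.1| ≤ W - 1) :
    ∀ u ∈ verts (rvK K0 h), |u.1| ≤ W - 1 ∧ |u.2.1| ≤ W - 1 := by
  intro u hu
  have h1 := hKW _ (mem_verts_rt.1 hu)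
  rw [rt_apply, abs_neg] at h1
  exact h1

/-- The piece with the place above it, and the reversed piece with the place below it, are the
same pattern up to the direction. -/
theorem loc_both (hK : LeftOf K0 h z) : ∃ JJ : Set R3 → Set R3, (∀ J ⊆ Bx, JJ J ⊆ Bx) ∧
    ∀ (W : ℤ) (T : ES) (k : ℤ) (a b : ℤ × ℤ), 2 ≤ W →
      (∀ u ∈ verts K0, |u.1| ≤ W - 1 ∧ |u.2.1| ≤ W - 1) → IsPolygon T → Mast T a b k h W →
      ∀ J ⊆ Bx, EqvS (insr (body (sj K0 z a T k)) (upl a (k + h)) J)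
        (insr (body T) (upl a k) (JJ J)) ∧
      EqvS (insr (body (sj (rvK K0 h) (h - z) a T k)) (upl a k ∘ rho) J)
        (insr (body T) (upl a (k + h) ∘ rho) (JJ J)) := by
  obtain ⟨JJ, hJJ, hpat⟩ := loc_above hK
  refine ⟨JJ, hJJ, fun W T k a b hW hKW hT hM J hJ =>
    ⟨hpat W T k a b hW hKW hT hM J hJ, ?_⟩⟩
  have h1 := hpat W (mapE (rt 0) T) (0 - k - h - 1) (a.1, -a.2) (b.1, -b.2) hW hKW
    (isPolygon_rt hT) (hM.rt 0) J hJ
  have himg : ∀ (X : Set R3) (k1 k2 : ℤ) (J : Set R3), k2 = 0 - k1 - 1 → J ⊆ Bx →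
      EqvS (insr X (upl (a.1, -a.2) k1) J) (insr (rtH 0 '' X) (upl a k2 ∘ rho) J) := by
    intro X k1 k2 J hk hJ
    exact eqP_image (rtH 0) (fun p _ => upl_rt hk a p) J hJ
  have h2 := himg (body (sj K0 z (a.1, -a.2) (mapE (rt 0) T) (0 - k - h - 1)))
    (0 - k - h - 1 + h) k J (by ring) hJ
  have h3 := himg (body (mapE (rt 0) T)) (0 - k - h - 1) (k + h) (JJ J) (by ring) (hJJ J hJ)
  rw [← body_rt, sj_rt h, mapE_rt_rt] at h2
  rw [← body_rt, mapE_rt_rt] at h3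
  have e1 : ((((a.1, -a.2) : ℤ × ℤ).1, -((a.1, -a.2) : ℤ × ℤ).2) : ℤ × ℤ) = a := by
    simp
  have e2 : 0 - (0 - k - h - 1) - h - 1 = k := by ring
  rw [e1, e2] at h2
  exact (h2.symm.trans h1).trans h3

/-! ### Sliding along the mast -/

theorem mast_slide (hT : IsPolygon T) (hM : Mast T a b k h W) :
    ∀ j : ℕ, j ≤ h → EqP (body T) (body T) (upl a k) (upl a (k + j)) := by
  intro j
  induction j with
  | zero =>
    intro _
    rw [Nat.cast_zero, add_zero]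
    exact EqP.refl _ _
  | succ j ih =>
    intro hj
    refine (ih (by omega)).trans (eqP_of_sld ?_)
    have h1 := hM.colA j (by omega)
    have h2 := hM.colA (j + 1) hj
    have e1 : ((a.1, a.2, k + (j : ℤ) + 1) : P3) - (0, 0, 1) = (a.1, a.2, k + j) := by
      ext <;> simp
    have e2 : ((a.1, a.2, k + (j : ℤ) + 1) : P3) + (0, 0, 1) = (a.1, a.2, k + j + 1 + 1) := by
      ext <;> simp
    have e3 : k + ((j + 1 : ℕ) : ℤ) = k + j + 1 := by push_cast; ring
    rw [e3] at h2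
    have h3 := slide_straight (v := (a.1, a.2, k + j + 1)) (a := (0, 0, 1)) (b := (1, 0, 0)) hT
      (by rw [e1, Sym2.eq_swap]; exact h1) (by rw [e2]; exact h2) frm_up
    rw [e1] at h3
    rw [e3]
    exact h3

/-! ### Congruence -/

theorem sj_place_above (hK : LeftOf K0 h z) (hM : Mast T a b k h W) :
    Place (sj K0 z a T k) (upl a (k + h)) := by
  refine place_upl (sj_mem.2 (Or.inl ⟨hM.colA h le_rfl, ?_⟩))
  have h1 := (leftOf_z hK).2
  intro h2
  rw [Sym2.eq_iff] at h2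
  simp only [Prod.mk.injEq] at h2
  omega

theorem sj_place_below (hK : LeftOf K0 h z) (hM : Mast T a b k h W) :
    Place (sj K0 z a T k) (upl a k) := by
  have h0 := hM.colA 0 (by omega)
  rw [Nat.cast_zero, add_zero] at h0
  refine place_upl (sj_mem.2 (Or.inl ⟨h0, ?_⟩))
  have h1 := (leftOf_z hK).1
  intro h2
  rw [Sym2.eq_iff] at h2
  simp only [Prod.mk.injEq] at h2
  omega

variable {T1 T2 : ES} {a1 b1 a2 b2 : ℤ × ℤ} {k1 k2 W1 W2 : ℤ}

/-- **The side join at masts, with the piece or with the reversed piece.** -/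
theorem cong_sj (hK : LeftOf K0 h z) (hT1 : IsPolygon T1) (hT2 : IsPolygon T2)
    (hTT : Cong T1 T2) (hW1 : 2 ≤ W1) (hW2 : 2 ≤ W2)
    (hK1 : ∀ u ∈ verts K0, |u.1| ≤ W1 - 1 ∧ |u.2.1| ≤ W1 - 1)
    (hK2 : ∀ u ∈ verts K0, |u.1| ≤ W2 - 1 ∧ |u.2.1| ≤ W2 - 1)
    (hM1 : Mast T1 a1 b1 k1 h W1) (hM2 : Mast T2 a2 b2 k2 h W2) :
    Cong (sj K0 z a1 T1 k1) (sj K0 z a2 T2 k2) ∨
      Cong (sj K0 z a1 T1 k1) (sj (rvK K0 h) (h - z) a2 T2 k2) := by
  obtain ⟨JJ, hJJ, hpat⟩ := loc_both hK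
  have c1 := hM1.colA 0 (by omega)
  have c2 := hM2.colA 0 (by omega)
  rw [Nat.cast_zero, add_zero] at c1 c2
  obtain ⟨x, y, hxy, heq⟩ := hTT.place hT1 hT2 (place_upl c1) c2
  rcases Sym2.eq_iff.1 hxy with ⟨rfl, rfl⟩ | ⟨rfl, rfl⟩
  · left
    have e : ((a2.1, a2.2, k2 + 1) : P3) - (a2.1, a2.2, k2) = (0, 0, 1) := by simp
    have h1 := heq (1, 0, 0) (by rw [e]; exact frm_up)
    rw [e] at h1
    refine ⟨_, _, sj_place_above hK hM1, sj_place_above hK hM2, fun J hJ => ?_⟩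
    have h2 := (hpat W1 T1 k1 a1 b1 hW1 hK1 hT1 hM1 J hJ).1
    have h3 := (hpat W2 T2 k2 a2 b2 hW2 hK2 hT2 hM2 J hJ).1
    exact (h2.trans (h1 _ (hJJ J hJ))).trans h3.symm
  · right
    have e : ((a2.1, a2.2, k2) : P3) - (a2.1, a2.2, k2 + 1) = -(0, 0, 1) := by simp
    have e2 : ((a2.1, a2.2, k2 + 1) : P3) = (a2.1, a2.2, k2) + (0, 0, 1) := by simp
    have h1 := heq (1, 0, 0) (by rw [e]; exact frm_neg frm_up)
    rw [e, e2, ← cht_rho] at h1
    have h4 : EqP (body T1) (body T2) (upl a1 k1) (upl a2 (k2 + h) ∘ rho) :=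
      EqP.trans h1 (mast_slide hT2 hM2 h le_rfl).rev
    refine ⟨_, _, sj_place_above hK hM1, (sj_place_below (leftOf_rvK hK) hM2).rho, fun J hJ => ?_⟩
    have h2 := (hpat W1 T1 k1 a1 b1 hW1 hK1 hT1 hM1 J hJ).1
    have h3 := (hpat W2 T2 k2 a2 b2 hW2 hK2 hT2 hM2 J hJ).2
    exact (h2.trans (h4 _ (hJJ J hJ))).trans h3.symm

end Pool.Agent.KSing
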