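import Pool.Agent.KSing.SignsB

/-! Attachment of umbrellas with pieces; the choice of the directions. -/

set_option autoImplicit false

open Set

namespace Pool.Agent.KSing

open Pool.Agent.LK Pool.Agent.KTube Pool.Agent.KTen

variable {N : ℕ} {K0 : Fin N → ES} {h : Fin N → ℕ} {z : Fin N → ℤ} {V R P C : ES} {W H k : ℤ}
  {g : ℕ} {p q : Fin N → P3} {F : Fin N → ES} {a w : Fin N → P3}

theorem Fs_update (σ : Fin N → Option Bool) (j : Fin N) (hs : σ j = none) (s : Bool) :
    Fs K0 h z k F w (Function.update σ j (some s)) = Function.update (Fs K0 h z k F w σ) j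
      (sj (pcK (K0 j) (h j) s) (pcz (h j) (z j) s) ((w j).1, (w j).2.1) (Fs K0 h z k F w σ j)
        (k + (w j).2.2)) := by
  funext i
  by_cases hij : i = j
  · subst hij
    rw [Function.update_self]
    unfold Fs
    rw [Function.update_self, att_some, hs, att_none]
  · rw [Function.update_of_ne hij]
    unfold Fs
    rw [Function.update_of_ne hij]

/-- **The choice of the directions.** -/
theorem UData.signs (hU : UData K0 h z V P C W H k g p q F a w) {m B : ℕ}
    (hB : ∀ (a : P3) (E E' : Finset (Sym2 P3)), ChangedIn a 1000 E E' → E'.card ≤ E.card + B)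
    {D : ℤ} (hD : 10000000 + 10 * ((m : ℤ) + B) ≤ D)
    (hm : ∀ (j : Fin N) (s : Option Bool), (att (K0 j) (h j) (z j) s (0, 0) V k).card ≤ m)
    (hWm : W ≤ m) (hfar : ∀ i j, i ≠ j → HFar D (p i) (p j)) (js : List (Fin N)) (hn : js.Nodup)
    (hR : Tow (js.map fun j => (K0 j, h j, z j)) R) : ∃ σ : Fin N → Option Bool,
      (∀ j, σ j ≠ none ↔ j ∈ js) ∧ Cong R (LK.glue C (Fs K0 h z k F w σ) a Finset.univ) := by
  have hparts : ∀ σ : Fin N → Option Bool,
      Parts C (Fs K0 h z k F w σ) a Finset.univ 1000 (m + B + 1) := fun σ =>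
    (hU.built σ).parts hB hD (fun j _ => hm j (σ j)) (fun i _ j _ hij => hfar i j hij)
  have hW := hU.hW
  have hk := hU.hk
  induction js generalizing R with
  | nil =>
    refine ⟨fun _ => none, by simp, ?_⟩
    have e : Fs K0 h z k F w (fun _ => none) = F := rfl
    have hP := hparts fun _ => none
    rw [e] at hP ⊢
    have hpoly := isPolygon_glue hP
    cases hR with
    | nil h1 h2 =>
      refine cong_unknotted h1 hpoly h2 ?_
      have key : ∀ S : Finset (Fin N), S ⊆ Finset.univ → Unknotted (LK.glue C F a S) := by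
        intro S
        induction S using Finset.induction_on with
        | empty =>
          intro _
          rw [glue_empty]
          exact hU.bt.cC.2
        | insert j S hj ih =>
          intro hS
          have h3 := hP.mono hS
          have h4 := ih (fun x hx => hS (Finset.mem_insert_of_mem hx))
          have h5 := hP.mono (fun x hx => hS (Finset.mem_insert_of_mem hx))
          have h6 := isCut_glue h3 hj (isPolygon_glue h5)
          rw [h6.R_eq]
          have hu := hU.unk j
          refine (unknotClosedZ.join _ _ _ _ _ ⟨h6.pE, h4⟩ ⟨hu.1, hu.2⟩ h6.below ?_ ?_).2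
          · have e1 : ((a j).1 + 1, (a j).2.1, (a j).2.2) = a j + (1, 0, 0) := by
              refine Prod.ext ?_ (Prod.ext ?_ ?_) <;> simp
            rw [e1]; exact h6.eE
          · have e2 : ((a j).1, (a j).2.1, (a j).2.2 + 1) = a j + (0, 0, 1) := by
              refine Prod.ext ?_ (Prod.ext ?_ ?_) <;> simp
            have e3 : ((a j).1 + 1, (a j).2.1, (a j).2.2 + 1) = a j + (0, 0, 1) + (1, 0, 0) := by
              refine Prod.ext ?_ (Prod.ext ?_ ?_) <;> simp
            rw [e2, e3]; exact h6.eF
      exact key Finset.univ (Finset.Subset.refl _)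
  | cons j js ih =>
    rw [List.nodup_cons] at hn
    rw [List.map_cons] at hR
    cases hR with
    | @cons _ R' _ _ _ k0 a0 b0 hR' hKj hkn hc hab =>
      obtain ⟨σ, hσ, hcong⟩ := ih hn.2 hR'
      have hsj : σ j = none := by
        by_contra hne
        exact hn.1 ((hσ j).1 hne)
      have hFj : Fs K0 h z k F w σ j = F j := by
        unfold Fs
        rw [hsj, att_none]
      have hP := hparts σ
      have hpoly := isPolygon_glue hP
      have hMj := hU.ma j W
      -- the mast is far from the other parts
      have hC : ∀ u ∈ verts C, |u.1 - ((w j).1, (w j).2.1).1| ≤ W →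
          |u.2.1 - ((w j).1, (w j).2.1).2| ≤ W → u.2.2 ≤ k + (w j).2.2 := by
        intro u hu h1 h2
        have := umb_cover hU.hV (hU.bC j) hu h1 h2
        omega
      have hmv : (((w j).1, (w j).2.1, k + (w j).2.2) : P3) ∈ verts (F j) := by
        have h1 := hMj.colA 0 (by omega)
        rw [Nat.cast_zero, add_zero] at h1
        exact left_mem_verts h1
      have hF : ∀ i ∈ (Finset.univ : Finset (Fin N)), i ≠ j → ∀ u ∈ verts (Fs K0 h z k F w σ i),
          ¬ (|u.1 - ((w j).1, (w j).2.1).1| ≤ W ∧ |u.2.1 - ((w j).1, (w j).2.1).2| ≤ W) := by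
        rintro i - hij u hu ⟨h1, h2⟩
        have n1 := hP.near i (Finset.mem_univ i) u hu
        have n2 := hP.near j (Finset.mem_univ j) _ (by rw [hFj]; exact hmv)
        have hap : ∀ i, Box 1000 (a i - p i) := by
          intro i
          have e : a i - p i = -(p i - a i) := by abel
          rw [e]; exact (hU.bt.pa i (Finset.mem_univ i)).neg
        have n3 := (hfar i j hij).move (r := 1000) (r' := 1000) (D' := D - 2000) (by omega)
          (hap i) (hap j)
        have n4 := n3.move (r := m + B + 1) (r' := m + B + 1) (D' := W) (by omega) n1 n2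
        simp only [HFar, lt_abs] at n4
        simp only [abs_le] at h1 h2
        omega
      have hM : Mast (LK.glue C (Fs K0 h z k F w σ) a Finset.univ) ((w j).1, (w j).2.1)
          ((w j).1 + 1, (w j).2.1) (k + (w j).2.2) (h j) W :=
        mast_glue hP (Finset.mem_univ j) (by rw [hFj]; exact hMj) hC hF
      have hfin : ∀ s : Bool, Cong (insK (K0 j) (h j) (z j) a0 R' k0)
          (sj (pcK (K0 j) (h j) s) (pcz (h j) (z j) s) ((w j).1, (w j).2.1)
            (LK.glue C (Fs K0 h z k F w σ) a Finset.univ) (k + (w j).2.2)) →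
          ∃ σ' : Fin N → Option Bool, (∀ i, σ' i ≠ none ↔ i ∈ j :: js) ∧
            Cong (insK (K0 j) (h j) (z j) a0 R' k0)
              (LK.glue C (Fs K0 h z k F w σ') a Finset.univ) := by
        intro s hs
        refine ⟨Function.update σ j (some s), ?_, ?_⟩
        · intro i
          by_cases hij : i = j
          · subst hij
            rw [Function.update_self]
            simp
          · rw [Function.update_of_ne hij, hσ i]
            simp [hij]
        · rw [Fs_update σ j hsj s, glue_sj hP (pc_left (hU.hK j) s) (pc_bd (h := h j) (hU.kw j) s)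
            (Finset.mem_univ j) (by rw [hFj]; exact hMj) (by omega) hC hF]
          exact hs
      rcases cong_insK_sj hKj hR'.poly hpoly hcong (by omega) (hU.kw j) hc hab.weak hM with
        h1 | h1
      · exact hfin true h1
      · exact hfin false h1

/-- **The attachment of the umbrellas, with the right directions of the pieces.** -/
theorem build_signs (hV : Umb V W H g) (hk : k = H + 4000) (hg : ∀ j, 4001 + h j ≤ g)
    (hW : 3 ≤ W) (hKW : ∀ j, ∀ u ∈ verts (K0 j), |u.1| ≤ W - 2 ∧ |u.2.1| ≤ W - 2)
    (hK : ∀ j, LeftOf (K0 j) (h j) (z j))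
    (hR : Tow (List.ofFn fun j => (K0 j, h j, z j)) R) {m B : ℕ}
    (hB : ∀ (a : P3) (E E' : Finset (Sym2 P3)), ChangedIn a 1000 E E' → E'.card ≤ E.card + B)
    {D : ℤ} (hD : 10000000 + 10 * ((m : ℤ) + B) ≤ D)
    (hm : ∀ (j : Fin N) (s : Option Bool), (att (K0 j) (h j) (z j) s (0, 0) V k).card ≤ m)
    (hmV : V.card ≤ m) (hWm : W ≤ m) (hP : UClass P) {p q Nv : Fin N → P3}
    (hcon : ∀ j, Con P V (p j) (q j) (Nv j)) (hfar : ∀ i j, i ≠ j → HFar D (p i) (p j)) :
    ∃ C F a w, ∃ σ : Fin N → Option Bool,
      Built ⊤ P (Kt V K0 σ) (Xs V k K0 h z σ) p q Finset.univ C F a w ∧ (∀ j, σ j ≠ none) ∧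
      SameType R (LK.glue C F a Finset.univ) := by
  obtain ⟨C, F, a, w, h1, h2, h3⟩ := build3 (S := (Finset.univ : Finset (Fin N))) (K := fun _ => V)
    (K0 := fun _ => V) bigGroup_top hB hD hP (fun j _ => hmV)
    (fun j _ => GClass.refl hV.poly) (fun j _ => hcon j) (fun i _ j _ hij => hfar i j hij)
  have hU : UData K0 h z V P C W H k g p q F a w :=
    ⟨hV, hk, hg, hW, hKW, hK, fun j => con_level hV (by omega) (hcon j), h1,
      fun j => h2 j (Finset.mem_univ j), fun j => h3 j (Finset.mem_univ j)⟩
  obtain ⟨σ, hσ, hcong⟩ := hU.signs hB hD hm hWm hfar (List.finRange N) (List.nodup_finRange N)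
    (R := R) (by
      have e : (List.finRange N).map (fun j => (K0 j, h j, z j)) =
          List.ofFn fun j => (K0 j, h j, z j) := (List.ofFn_eq_map).symm
      rw [e]
      exact hR)
  have hb := hU.built σ
  refine ⟨C, Fs K0 h z k F w σ, a, w, σ, hb, fun j => (hσ j).2 (List.mem_finRange j), ?_⟩
  have hp := isPolygon_glue (hb.parts hB hD (fun j _ => hm j (σ j))
    (fun i _ j _ hij => hfar i j hij))
  exact hcong.sameType hR.poly hp

end Pool.Agent.KSing
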