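import Pool.Agent.KSing.SignsDefs

/-! Contacts with umbrellas, the masts of the attached umbrellas. -/

set_option autoImplicit false

open Set

namespace Pool.Agent.KSing

open Pool.Agent.LK Pool.Agent.KTube Pool.Agent.KTen

variable {V P C F : ES} {W H k : ℤ} {g : ℕ} {p q Nv w a : P3}

/-- A contact with an umbrella is not on the mast. -/
theorem con_level (hV : Umb V W H g) (hW : 2 ≤ W) (h : Con P V p q Nv) : q.2.2 ≤ H := by
  by_contra hq
  push Not at hq
  obtain ⟨q1, q2, q3⟩ := q
  obtain ⟨n1, n2, n3⟩ := Nv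
  have hN := h.hN
  have hN0 := h.hN0
  have hcol := hV.high _ h.hq hq
  simp only [Prod.mk.injEq] at hcol
  simp only at hq hN0
  -- the forbidden direction
  have key : ∀ e : P3, nsq e < 2 * dot (n1, n2, n3) e → 0 ≤ e.2.2 → e.2.2 ≤ 1 →
      |q1 - e.1| ≤ W → |q2 - e.2.1| ≤ W → False := by
    intro e he he0 he1 h1 h2
    obtain ⟨z', hz', hv⟩ := hV.cover _ _ h1 h2
    refine h.free e he (q3 - z' - e.2.2) (by omega) p h.hp _ hv ?_
    obtain ⟨p1, p2, p3⟩ := p
    obtain ⟨e1, e2, e3⟩ := e
    simp only [Prod.mk_sub_mk, Prod.mk_add_mk, Prod.mk.injEq]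
    refine ⟨by ring, by ring, by ring⟩
  rcases hN0.lt_or_eq with h3 | h3
  · refine key (0, 0, 1) ?_ (by norm_num) (by norm_num) ?_ ?_
    · simp only [nsq, dot]
      omega
    · simp only [sub_zero, abs_le]
      omega
    · simp only [sub_zero, abs_le]
      omega
  · by_cases h4 : n1 = 0
    · by_cases h5 : n2 = 0
      · rw [h4, h5, ← h3] at hN
        simp only [nsq, dot] at hN
        norm_num at hN
      · rcases lt_or_gt_of_ne h5 with h6 | h6
        · refine key (0, -1, 0) ?_ (by norm_num) (by norm_num) ?_ ?_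
          · simp only [nsq, dot]
            omega
          · simp only [sub_zero, abs_le]
            omega
          · simp only [abs_le]
            omega
        · refine key (0, 1, 0) ?_ (by norm_num) (by norm_num) ?_ ?_
          · simp only [nsq, dot]
            omega
          · simp only [sub_zero, abs_le]
            omega
          · simp only [abs_le]
            omega
    · rcases lt_or_gt_of_ne h4 with h6 | h6
      · refine key (-1, 0, 0) ?_ (by norm_num) (by norm_num) ?_ ?_
        · simp only [nsq, dot]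
          omega
        · simp only [abs_le]
          omega
        · simp only [sub_zero, abs_le]
          omega
      · refine key (1, 0, 0) ?_ (by norm_num) (by norm_num) ?_ ?_
        · simp only [nsq, dot]
          omega
        · simp only [abs_le]
          omega
        · simp only [sub_zero, abs_le]
          omega

/-- The umbrella protects its neighbourhood. -/
theorem umb_cover (hV : Umb V W H g) (hB : Below C (shift w V)) {u : P3} (hu : u ∈ verts C)
    (h1 : |u.1 - w.1| ≤ W) (h2 : |u.2.1 - w.2.1| ≤ W) : u.2.2 < H + w.2.2 := by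
  obtain ⟨z', hz', hv⟩ := hV.cover _ _ h1 h2
  have h3 : ((u.1, u.2.1, z' + w.2.2) : P3) ∈ verts (shift w V) := by
    rw [mem_verts_shift]
    have e : ((u.1, u.2.1, z' + w.2.2) : P3) - w = (u.1 - w.1, u.2.1 - w.2.1, z') := by
      ext <;> simp
    rw [e]
    exact hv
  have h4 := hB u hu _ h3 rfl rfl
  simp only at h4
  omega

/-- The mast of an attached umbrella. -/
theorem umb_mast (hV : Umb V W H g) {h : ℕ} (hk : k = H + 4000) (hg : 4001 + h ≤ g)
    (hch : ChangedIn a 1000 (shift w V) F) (ha : a.2.2 ≤ H + w.2.2 + 2000) (W' : ℤ) :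
    Mast F (w.1, w.2.1) (w.1 + 1, w.2.1) (k + w.2.2) h W' := by
  have hM := (hV.mast (k := k) (h := h) (by omega) (by omega) W').shift w
  simp only [zero_add] at hM
  rw [add_comm (1 : ℤ) w.1] at hM
  have hin : ∀ u v : P3, s(u, v) ∈ shift w V → k + w.2.2 ≤ u.2.2 → s(u, v) ∈ F := by
    intro u v huv hu
    by_contra hn
    have h1 := (hch u v (Or.inl ⟨huv, hn⟩)).1.2.2
    rw [abs_le, Prod.snd_sub, Prod.snd_sub] at h1
    omega
  refine ⟨hM.wlex, ?_, ?_, ?_⟩
  · intro i hi
    exact hin _ _ (hM.colA i hi) (by simp only; omega)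
  · intro i hi
    exact hin _ _ (hM.colB i hi) (by simp only; omega)
  · rintro u ⟨v, huv⟩ h1 h2 h3 h4
    refine hM.free u ?_ h1 h2 h3 h4
    by_contra hn
    have h5 := (hch u v (Or.inr ⟨fun h6 => hn ⟨v, h6⟩, huv⟩)).1.2.2
    rw [abs_le, Prod.snd_sub, Prod.snd_sub] at h5
    omega

theorem lev_place (h1 : Box 1000 (p - a)) (h2 : Box 1000 (w - (p - q))) (hq : q.2.2 ≤ H) :
    a.2.2 ≤ H + w.2.2 + 2000 := by
  have h3 := h1.2.2
  have h4 := h2.2.2
  simp only [abs_le, Prod.snd_sub] at h3 h4
  omega

end Pool.Agent.KSing
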