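import Pool.Agent.KSing.SignsA

/-! The attached umbrellas with pieces on their masts. -/

set_option autoImplicit false

open Set

namespace Pool.Agent.KSing

open Pool.Agent.LK Pool.Agent.KTube Pool.Agent.KTen

variable {N : ℕ} {K0 : Fin N → ES} {h : Fin N → ℕ} {z : Fin N → ℤ} {V R P C : ES} {W H k : ℤ}
  {g : ℕ} {p q : Fin N → P3} {F : Fin N → ES} {a w : Fin N → P3}

/-- The attached umbrellas with pieces. -/
noncomputable def Fs (K0 : Fin N → ES) (h : Fin N → ℕ) (z : Fin N → ℤ) (k : ℤ) (F : Fin N → ES)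
    (w : Fin N → P3) (σ : Fin N → Option Bool) : Fin N → ES := fun j =>
  att (K0 j) (h j) (z j) (σ j) ((w j).1, (w j).2.1) (F j) (k + (w j).2.2)

/-- The data of the attached umbrellas. -/
structure UData (K0 : Fin N → ES) (h : Fin N → ℕ) (z : Fin N → ℤ) (V P C : ES) (W H k : ℤ)
    (g : ℕ) (p q : Fin N → P3) (F : Fin N → ES) (a w : Fin N → P3) : Prop where
  hV : Umb V W H g
  hk : k = H + 4000
  hg : ∀ j, 4001 + h j ≤ g
  hW : 3 ≤ W
  hKW : ∀ j, ∀ u ∈ verts (K0 j), |u.1| ≤ W - 2 ∧ |u.2.1| ≤ W - 2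
  hK : ∀ j, LeftOf (K0 j) (h j) (z j)
  hq : ∀ j, (q j).2.2 ≤ H
  bt : Built ⊤ P (fun _ => V) (fun _ => V) p q Finset.univ C F a w
  bP : ∀ j, Below P (shift (w j) V)
  bC : ∀ j, Below C (shift (w j) V)

variable (hU : UData K0 h z V P C W H k g p q F a w)

include hU

theorem UData.ma (j : Fin N) (W' : ℤ) :
    Mast (F j) ((w j).1, (w j).2.1) ((w j).1 + 1, (w j).2.1) (k + (w j).2.2) (h j) W' :=
  umb_mast hU.hV hU.hk (hU.hg j) (hU.bt.chF j (Finset.mem_univ j))
    (lev_place (hU.bt.pa j (Finset.mem_univ j)) (hU.bt.wd j (Finset.mem_univ j)) (hU.hq j)) W'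

theorem UData.kw (j : Fin N) : ∀ u ∈ verts (K0 j), |u.1| ≤ W - 1 ∧ |u.2.1| ≤ W - 1 := by
  intro u hu
  obtain ⟨h1, h2⟩ := hU.hKW j u hu
  exact ⟨by omega, by omega⟩

theorem UData.kw2 (j : Fin N) : ∀ u ∈ verts (K0 j), |u.1| ≤ W - 1 - 1 ∧ |u.2.1| ≤ W - 1 - 1 := by
  intro u hu
  obtain ⟨h1, h2⟩ := hU.hKW j u hu
  exact ⟨by omega, by omega⟩

theorem UData.unk (j : Fin N) : IsPolygon (F j) ∧ Unknotted (F j) := by
  obtain ⟨h1, φ, -, h2⟩ := hU.bt.cF j (Finset.mem_univ j)
  have h3 : SameType V (F j) := ⟨φ, h2⟩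
  exact ⟨h1, h3.symm.unknotted hU.hV.unk⟩

/-- A vertex of the new part is a vertex of the old part or a vertex of the piece. -/
theorem UData.verts_Fs {σ : Fin N → Option Bool} {j : Fin N} {v : P3}
    (hv : v ∈ verts (Fs K0 h z k F w σ j)) : v ∈ verts (F j) ∨
      (|v.1 - (w j).1| ≤ W - 2 ∧ |v.2.1 - (w j).2.1| ≤ W - 2 ∧ k + (w j).2.2 + 1 ≤ v.2.2) := by
  unfold Fs at hv
  cases hs : σ j with
  | none =>
    rw [hs] at hv
    exact Or.inl hv
  | some s =>
    rw [hs, att_some] at hv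
    have hl := pc_left (hU.hK j) s
    have hb := pc_bd (h := h j) (hU.kw2 j) s
    have hpe := piece_edge (a := ((w j).1, (w j).2.1)) (k := k + (w j).2.2) hl
    have hme := mast_edge hl (hU.ma j W)
    have hpv : ∀ u ∈ verts (shift ((w j).1, (w j).2.1, k + (w j).2.2) (pcK (K0 j) (h j) s)),
        |u.1 - (w j).1| ≤ W - 2 ∧ |u.2.1 - (w j).2.1| ≤ W - 2 ∧ k + (w j).2.2 + 1 ≤ u.2.2 := by
      intro u hu
      obtain ⟨-, h2, h3, h4, -⟩ := piece_vert (a := ((w j).1, (w j).2.1)) hl hb hu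
      simp only at h2 h3
      exact ⟨by omega, by omega, h4⟩
    obtain ⟨u, hu⟩ := hv
    rcases sj_mem.1 hu with ⟨h1, -⟩ | ⟨h1, -⟩ | h1 | h1
    · exact Or.inl (left_mem_verts h1)
    · exact Or.inr (hpv v (left_mem_verts h1))
    · rw [Sym2.eq_iff] at h1
      rcases h1 with ⟨rfl, -⟩ | ⟨rfl, -⟩
      · exact Or.inr (hpv _ (left_mem_verts hpe))
      · exact Or.inl (left_mem_verts hme)
    · rw [Sym2.eq_iff] at h1
      rcases h1 with ⟨rfl, -⟩ | ⟨rfl, -⟩
      · exact Or.inr (hpv _ (right_mem_verts hpe))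
      · exact Or.inl (right_mem_verts hme)

/-- The translated umbrella with its piece. -/
theorem UData.shift_Xs (σ : Fin N → Option Bool) (j : Fin N) :
    shift (w j) (Xs V k K0 h z σ j) =
      att (K0 j) (h j) (z j) (σ j) ((w j).1, (w j).2.1) (shift (w j) V) (k + (w j).2.2) := by
  have _ := hU.hk
  unfold Xs
  cases σ j with
  | none => rfl
  | some s =>
    rw [att_some, att_some, sj_shift]
    simp only [zero_add]

theorem UData.verts_Xs {σ : Fin N → Option Bool} {j : Fin N} {v : P3}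
    (hv : v ∈ verts (shift (w j) (Xs V k K0 h z σ j))) : v ∈ verts (shift (w j) V) ∨
      (|v.1 - (w j).1| ≤ W - 2 ∧ |v.2.1 - (w j).2.1| ≤ W - 2 ∧ k + (w j).2.2 + 1 ≤ v.2.2) := by
  rw [hU.shift_Xs] at hv
  cases hs : σ j with
  | none =>
    rw [hs] at hv
    exact Or.inl hv
  | some s =>
    rw [hs, att_some] at hv
    have hl := pc_left (hU.hK j) s
    have hb := pc_bd (h := h j) (hU.kw2 j) s
    have hpe := piece_edge (a := ((w j).1, (w j).2.1)) (k := k + (w j).2.2) hl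
    have hM := (hU.hV.mast (k := k) (h := h j) (by have := hU.hk; omega)
      (by have := hU.hk; have := hU.hg j; omega) W).shift (w j)
    simp only [zero_add] at hM
    have hme := mast_edge hl hM
    have hpv : ∀ u ∈ verts (shift ((w j).1, (w j).2.1, k + (w j).2.2) (pcK (K0 j) (h j) s)),
        |u.1 - (w j).1| ≤ W - 2 ∧ |u.2.1 - (w j).2.1| ≤ W - 2 ∧ k + (w j).2.2 + 1 ≤ u.2.2 := by
      intro u hu
      obtain ⟨-, h2, h3, h4, -⟩ := piece_vert (a := ((w j).1, (w j).2.1)) hl hb hu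
      simp only at h2 h3
      exact ⟨by omega, by omega, h4⟩
    obtain ⟨u, hu⟩ := hv
    rcases sj_mem.1 hu with ⟨h1, -⟩ | ⟨h1, -⟩ | h1 | h1
    · exact Or.inl (left_mem_verts h1)
    · exact Or.inr (hpv v (left_mem_verts h1))
    · rw [Sym2.eq_iff] at h1
      rcases h1 with ⟨rfl, -⟩ | ⟨rfl, -⟩
      · exact Or.inr (hpv _ (left_mem_verts hpe))
      · exact Or.inl (left_mem_verts hme)
    · rw [Sym2.eq_iff] at h1
      rcases h1 with ⟨rfl, -⟩ | ⟨rfl, -⟩
      · exact Or.inr (hpv _ (right_mem_verts hpe))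
      · exact Or.inl (right_mem_verts hme)

/-- The attachment with pieces. -/
theorem UData.built (σ : Fin N → Option Bool) :
    Built ⊤ P (Kt V K0 σ) (Xs V k K0 h z σ) p q Finset.univ C (Fs K0 h z k F w σ) a w := by
  have hb := hU.bt
  have hW := hU.hW
  have hk := hU.hk
  refine ⟨hb.cC, ?_, ?_, hb.eE, ?_, ?_, hb.pa, hb.wd, ?_, hb.chC, ?_⟩
  · intro j hj
    have hu := hU.unk j
    unfold Kt Fs
    cases σ j with
    | none => exact hb.cF j hj
    | some s =>
      have hl := pc_left (hU.hK j) s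
      have hbd := pc_bd (h := h j) (hU.kw j) s
      have hM := hU.ma j W
      have hp := isPolygon_sj hl hu.1 hbd hM
      have ht := sj_type hl hu.1 hu.2 (by omega) hbd hM
      obtain ⟨φ, hφ⟩ := (pc_type (K0 := K0 j) (h := h j) s).trans ht
      exact ⟨hp, φ, Subgroup.mem_top _, hφ⟩
  · intro j hj u hu v hv h1 h2
    rcases hU.verts_Fs hv with h3 | ⟨h3, h4, h5⟩
    · exact hb.below j hj u hu v h3 h1 h2
    · have := umb_cover hU.hV (hU.bC j) hu (by rw [h1]; omega) (by rw [h2]; omega)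
      omega
  · intro j hj
    unfold Fs
    have h1 := hb.eF j hj
    cases σ j with
    | none => exact h1
    | some s =>
      refine sj_mem.2 (Or.inl ⟨h1, ?_⟩)
      intro he
      refine vert_ne_hor ((w j).1, (w j).2.1) (k + (w j).2.2 + pcz (h j) (z j) s) (a j) ?_
      rw [← he, add_right_comm]
  · intro j hj u hu v hv huv
    rcases hU.verts_Fs hv with h3 | ⟨h3, h4, h5⟩
    · exact hb.sep j hj u hu v h3 huv
    · exfalso
      obtain ⟨b1, b2, b3⟩ := huv
      simp only [Prod.fst_sub, Prod.snd_sub, abs_le] at b1 b2 b3 h3 h4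
      have := umb_cover hU.hV (hU.bC j) hu (by rw [abs_le]; omega) (by rw [abs_le]; omega)
      omega
  · intro j hj
    rw [hU.shift_Xs]
    unfold Fs
    have h1 := hb.chF j hj
    cases σ j with
    | none => exact h1
    | some s =>
      intro u v huv
      rw [att_some, att_some, sj_mem, sj_mem] at huv
      refine h1 u v ?_
      tauto
  · intro j hj u hu hu'
    rcases hU.verts_Xs hu' with h3 | ⟨h3, h4, h5⟩
    · exact hb.disj j hj u hu h3
    · have := umb_cover hU.hV (hU.bP j) hu (by omega) (by omega)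
      omega

end Pool.Agent.KSing
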