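import Pool.Agent.KTen.PlaceU
import Pool.Agent.MP_aea6d5_co.CDefs

/-! Umbrellas: unknotted polygons that cover a square, with a mast. -/

set_option autoImplicit false

open Set

namespace Pool.Agent.KSing

open Pool.Agent.LK Pool.Agent.KTube Pool.Agent.KTen

/-- An unknotted polygon that meets all columns of the square `[-W, W]²` at levels at most `H`, and
that consists of the two straight columns `(0, 0)` and `(1, 0)` above the level `H` (at least up to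
the level `H + g`). -/
structure Umb (V : ES) (W H : ℤ) (g : ℕ) : Prop where
  poly : IsPolygon V
  unk : Unknotted V
  cover : ∀ x y : ℤ, |x| ≤ W → |y| ≤ W → ∃ z ≤ H, (x, y, z) ∈ verts V
  colA : ∀ i : ℕ, i < g → s((0, 0, H + i), (0, 0, H + i + 1)) ∈ V
  colB : ∀ i : ℕ, i < g → s((1, 0, H + i), (1, 0, H + i + 1)) ∈ V
  high : ∀ u ∈ verts V, H < u.2.2 → (u.1, u.2.1) = (0, 0) ∨ (u.1, u.2.1) = (1, 0)

/-- An unknotted polygon below the level `H` with the edge `(x, y, H), (x + 1, y, H)`. -/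
private structure St (V : ES) (x y H : ℤ) : Prop where
  cls : IsPolygon V ∧ Unknotted V
  le : ∀ u ∈ verts V, u.2.2 ≤ H
  top : s((x, y, H), (x + 1, y, H)) ∈ V

private theorem Umb_keep {V : ES} {a b d : P3} (hab : s(a, b) ∈ V) :
    verts V ⊆ verts (bump V a b d) := by
  rintro v ⟨w, hw⟩
  by_cases h : s(v, w) = s(a, b)
  · rw [Sym2.eq_iff] at h
    rcases h with ⟨rfl, rfl⟩ | ⟨rfl, rfl⟩
    · exact ⟨v + d, mem_bump.2 (Or.inr (Or.inl rfl))⟩
    · exact ⟨v + d, mem_bump.2 (Or.inr (Or.inr (Or.inr Sym2.eq_swap)))⟩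
  · exact ⟨w, mem_bump.2 (Or.inl ⟨hw, h⟩)⟩

private theorem Umb_up {V : ES} {x y H : ℤ} (h : St V x y H) : ∃ V' : ES,
    St V' x y (H + 1) ∧ verts V ⊆ verts V' ∧
    (∀ u ∈ verts V', u ∈ verts V ∨ u = (x, y, H + 1) ∨ u = (x + 1, y, H + 1)) ∧
    s((x, y, H), (x, y, H + 1)) ∈ V' ∧ s((x + 1, y, H), (x + 1, y, H + 1)) ∈ V' ∧
    ∀ f ∈ V, f ≠ s((x, y, H), (x + 1, y, H)) → f ∈ V' := by
  have h1 : ∀ a b : ℤ, ((a, b, H) : P3) + (0, 0, 1) = (a, b, H + 1) := by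
    intro a b
    simp
  have h2 : ∀ a b : ℤ, ((a, b, H + 1) : P3) ∉ verts V := by
    intro a b hab
    have := h.le _ hab
    simp only at this
    omega
  have hc := unknotClosedZ.bump V (x, y, H) (x + 1, y, H) (0, 0, 1) h.cls h.top
    (isUnit3_iff.2 (by tauto)) (by rw [h1]; exact h2 _ _) (by rw [h1]; exact h2 _ _)
  have hnew : ∀ u ∈ verts (bump V (x, y, H) (x + 1, y, H) (0, 0, 1)),
      u ∈ verts V ∨ u = (x, y, H + 1) ∨ u = (x + 1, y, H + 1) := by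
    intro u hu
    have h3 := verts_bump h.top hu
    rwa [h1, h1] at h3
  refine ⟨bump V (x, y, H) (x + 1, y, H) (0, 0, 1), ⟨hc, ?_, ?_⟩, Umb_keep h.top, hnew, ?_, ?_, ?_⟩
  · intro u hu
    rcases hnew u hu with h3 | rfl | rfl
    · have := h.le _ h3
      omega
    · exact le_rfl
    · exact le_rfl
  · refine mem_bump.2 (Or.inr (Or.inr (Or.inl ?_)))
    rw [h1, h1]
  · refine mem_bump.2 (Or.inr (Or.inl ?_))
    rw [h1]
  · refine mem_bump.2 (Or.inr (Or.inr (Or.inr ?_)))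
    rw [h1, Sym2.eq_swap]
  · intro f hf hne
    exact mem_bump.2 (Or.inl ⟨hf, hne⟩)

private theorem Umb_e2 {V : ES} {x y H σ : ℤ} (h : St V x y H) (hσ : σ = 1 ∨ σ = -1) :
    ∃ V' : ES, ∃ H', St V' x (y + σ) H' ∧ verts V ⊆ verts V' := by
  obtain ⟨V₁, h1, h2, h3, -, -, -⟩ := Umb_up h
  have h4 : ∀ a : ℤ, ((a, y, H + 1) : P3) + (0, σ, 0) = (a, y + σ, H + 1) := by
    intro a
    simp
  have h5 : ∀ a : ℤ, ((a, y + σ, H + 1) : P3) ∉ verts V₁ := by
    intro a ha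
    rcases h3 _ ha with h6 | h6 | h6
    · have := h.le _ h6
      simp only at this
      omega
    · simp only [Prod.mk.injEq] at h6
      omega
    · simp only [Prod.mk.injEq] at h6
      omega
  have hc := unknotClosedZ.bump V₁ (x, y, H + 1) (x + 1, y, H + 1) (0, σ, 0) h1.cls h1.top
    (isUnit3_iff.2 (by rcases hσ with rfl | rfl <;> tauto))
    (by rw [h4]; exact h5 _) (by rw [h4]; exact h5 _)
  refine ⟨_, H + 1, ⟨hc, ?_, ?_⟩, h2.trans (Umb_keep h1.top)⟩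
  · intro u hu
    rcases verts_bump h1.top hu with h6 | h6 | h6
    · exact h1.le _ h6
    · rw [h6, h4]
    · rw [h6, h4]
  · refine mem_bump.2 (Or.inr (Or.inr (Or.inl ?_)))
    rw [h4, h4]

private theorem Umb_two {V : ES} {x y H : ℤ} (h : St V x y H) : ∃ V' : ES,
    St V' x y (H + 2) ∧ verts V ⊆ verts V' ∧
    (∀ u ∈ verts V', H < u.2.2 → u.1 = x ∨ u.1 = x + 1) ∧
    s((x, y, H + 1), (x, y, H + 2)) ∈ V' ∧ s((x + 1, y, H + 1), (x + 1, y, H + 2)) ∈ V' := by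
  obtain ⟨V₁, a1, a2, a3, -, -, -⟩ := Umb_up h
  obtain ⟨V₂, b1, b2, b3, b4, b5, b6⟩ := Umb_up a1
  have h2 : H + 1 + 1 = H + 2 := by ring
  rw [h2] at b1 b3 b4 b5
  refine ⟨V₂, b1, a2.trans b2, ?_, b4, b5⟩
  intro u hu hlt
  rcases b3 u hu with h3 | rfl | rfl
  · rcases a3 u h3 with h4 | rfl | rfl
    · have := h.le _ h4
      omega
    · exact Or.inl rfl
    · exact Or.inr rfl
  · exact Or.inl rfl
  · exact Or.inr rfl

private theorem Umb_e1 {V : ES} {x y H : ℤ} (h : St V x y H) :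
    ∃ V' : ES, ∃ H', St V' (x + 1) y H' ∧ verts V ⊆ verts V' := by
  obtain ⟨V₁, h1, h2, h3, -, h5⟩ := Umb_two h
  have h4 : ∀ c : ℤ, ((x + 1, y, c) : P3) + (1, 0, 0) = (x + 1 + 1, y, c) := by
    intro a
    simp
  have h6 : ∀ c : ℤ, H < c → ((x + 1 + 1, y, c) : P3) ∉ verts V₁ := by
    intro c hc hcc
    rcases h3 _ hcc hc with h6 | h6 <;> simp only at h6 <;> omega
  have hc := unknotClosedZ.bump V₁ (x + 1, y, H + 1) (x + 1, y, H + 2) (1, 0, 0) h1.cls h5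
    (isUnit3_iff.2 (by tauto))
    (by rw [h4]; exact h6 _ (by omega)) (by rw [h4]; exact h6 _ (by omega))
  refine ⟨_, H + 2, ⟨hc, ?_, ?_⟩, h2.trans (Umb_keep h5)⟩
  · intro u hu
    rcases verts_bump h5 hu with h6 | h6 | h6
    · exact h1.le _ h6
    · rw [h6, h4]
      simp only
      omega
    · rw [h6, h4]
  · refine mem_bump.2 (Or.inr (Or.inr (Or.inr ?_)))
    rw [h4, Sym2.eq_swap]

private theorem Umb_f1 {V : ES} {x y H : ℤ} (h : St V x y H) :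
    ∃ V' : ES, ∃ H', St V' (x + -1) y H' ∧ verts V ⊆ verts V' := by
  obtain ⟨V₁, h1, h2, h3, h5, -⟩ := Umb_two h
  have h4 : ∀ c : ℤ, ((x, y, c) : P3) + (-1, 0, 0) = (x + -1, y, c) := by
    intro a
    simp
  have h6 : ∀ c : ℤ, H < c → ((x + -1, y, c) : P3) ∉ verts V₁ := by
    intro c hc hcc
    rcases h3 _ hcc hc with h6 | h6 <;> simp only at h6 <;> omega
  have hc := unknotClosedZ.bump V₁ (x, y, H + 1) (x, y, H + 2) (-1, 0, 0) h1.cls h5
    (isUnit3_iff.2 (by tauto))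
    (by rw [h4]; exact h6 _ (by omega)) (by rw [h4]; exact h6 _ (by omega))
  refine ⟨_, H + 2, ⟨hc, ?_, ?_⟩, h2.trans (Umb_keep h5)⟩
  · intro u hu
    rcases verts_bump h5 hu with h6 | h6 | h6
    · exact h1.le _ h6
    · rw [h6, h4]
      simp only
      omega
    · rw [h6, h4]
  · refine mem_bump.2 (Or.inr (Or.inr (Or.inr ?_)))
    rw [h4, neg_add_cancel_right]

private theorem Umb_go (n : ℕ) : ∀ (V : ES) (x y H x' y' : ℤ), St V x y H →
    (x' - x).natAbs + (y' - y).natAbs = n →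
    ∃ V' : ES, ∃ H', St V' x' y' H' ∧ verts V ⊆ verts V' := by
  induction n with
  | zero =>
    intro V x y H x' y' h hn
    have h1 : x' = x := by omega
    have h2 : y' = y := by omega
    subst h1 h2
    exact ⟨V, H, h, Subset.rfl⟩
  | succ n ih =>
    intro V x y H x' y' h hn
    have key : ∃ x₁ y₁ : ℤ, (x' - x₁).natAbs + (y' - y₁).natAbs = n ∧
        ∃ V' : ES, ∃ H', St V' x₁ y₁ H' ∧ verts V ⊆ verts V' := by
      rcases lt_trichotomy x x' with h1 | h1 | h1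
      · exact ⟨x + 1, y, by omega, Umb_e1 h⟩
      · rcases lt_trichotomy y y' with h2 | h2 | h2
        · exact ⟨x, y + 1, by omega, Umb_e2 h (Or.inl rfl)⟩
        · omega
        · exact ⟨x, y + -1, by omega, Umb_e2 h (Or.inr rfl)⟩
      · exact ⟨x + -1, y, by omega, Umb_f1 h⟩
    obtain ⟨x₁, y₁, hn₁, V₁, H₁, hV₁, hs⟩ := key
    obtain ⟨V₂, H₂, hV₂, hs₂⟩ := ih V₁ x₁ y₁ H₁ x' y' hV₁ hn₁
    exact ⟨V₂, H₂, hV₂, hs.trans hs₂⟩

private theorem Umb_cover (S : Finset (ℤ × ℤ)) : ∃ (V : ES) (x y H : ℤ), St V x y H ∧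
    ∀ p ∈ S, ∃ z, (p.1, p.2, z) ∈ verts V := by
  classical
  induction S using Finset.induction_on with
  | empty =>
    refine ⟨square, 0, 0, 0, ⟨unknotClosedZ.square, ?_, ?_⟩, by simp⟩
    · rintro u ⟨v, hv⟩
      simp only [square, Finset.mem_insert, Finset.mem_singleton, Sym2.eq_iff] at hv
      rcases hv with (⟨rfl, -⟩ | ⟨rfl, -⟩) | (⟨rfl, -⟩ | ⟨rfl, -⟩) | (⟨rfl, -⟩ | ⟨rfl, -⟩) |
        (⟨rfl, -⟩ | ⟨rfl, -⟩) <;> simp
    · simp [square]
  | insert p S _ ih =>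
    obtain ⟨V, x, y, H, h, hS⟩ := ih
    obtain ⟨V', H', h', hs⟩ := Umb_go _ V x y H p.1 p.2 h rfl
    refine ⟨V', p.1, p.2, H', h', fun q hq => ?_⟩
    rcases Finset.mem_insert.1 hq with rfl | hq
    · exact ⟨H', _, h'.top⟩
    · obtain ⟨z, hz⟩ := hS q hq
      exact ⟨z, hs hz⟩

private theorem Umb_mast {V : ES} {H : ℤ} (h : St V 0 0 H) (g : ℕ) : ∃ V' : ES,
    St V' 0 0 (H + g) ∧ verts V ⊆ verts V' ∧
    (∀ i : ℕ, i < g → s(((0, 0, H + i) : P3), (0, 0, H + i + 1)) ∈ V') ∧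
    (∀ i : ℕ, i < g → s(((1, 0, H + i) : P3), (1, 0, H + i + 1)) ∈ V') ∧
    ∀ u ∈ verts V', H < u.2.2 → (u.1, u.2.1) = (0, 0) ∨ (u.1, u.2.1) = (1, 0) := by
  induction g with
  | zero =>
    refine ⟨V, by simpa using h, Subset.rfl, by simp, by simp, fun u hu hlt => ?_⟩
    have := h.le u hu
    omega
  | succ g ih =>
    obtain ⟨V', h1, h2, h3, h4, h5⟩ := ih
    obtain ⟨V₂, a1, a2, a3, a4, a5, a6⟩ := Umb_up h1
    have e1 : H + (g : ℤ) + 1 = H + ((g + 1 : ℕ) : ℤ) := by push_cast; ring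
    have e2 : (0 : ℤ) + 1 = 1 := rfl
    refine ⟨V₂, by rw [← e1]; exact a1, h2.trans a2, ?_, ?_, ?_⟩
    · intro i hi
      rcases Nat.lt_succ_iff_lt_or_eq.1 hi with hi | rfl
      · refine a6 _ (h3 i hi) ?_
        rw [Ne, Sym2.eq_iff]
        simp only [Prod.mk.injEq]
        omega
      · exact a4
    · intro i hi
      rcases Nat.lt_succ_iff_lt_or_eq.1 hi with hi | rfl
      · refine a6 _ (h4 i hi) ?_
        rw [Ne, Sym2.eq_iff]
        simp only [Prod.mk.injEq]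
        omega
      · exact a5
    · intro u hu hlt
      rcases a3 u hu with h6 | rfl | rfl
      · exact h5 u h6 hlt
      · exact Or.inl rfl
      · exact Or.inr rfl

theorem exists_umb (W : ℤ) (g : ℕ) : ∃ (V : ES) (H : ℤ), Umb V W H g := by
  obtain ⟨V, x, y, H, h, hS⟩ := Umb_cover (Finset.Icc (-W) W ×ˢ Finset.Icc (-W) W)
  obtain ⟨V₁, H₁, h₁, hs₁⟩ := Umb_go _ V x y H 0 0 h rfl
  obtain ⟨V₂, a1, a2, a3, a4, a5⟩ := Umb_mast h₁ g
  refine ⟨V₂, H₁, a1.cls.1, a1.cls.2, fun x y hx hy => ?_, a3, a4, a5⟩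
  rw [abs_le] at hx hy
  obtain ⟨z, hz⟩ := hS (x, y) (Finset.mem_product.2 ⟨Finset.mem_Icc.2 hx, Finset.mem_Icc.2 hy⟩)
  exact ⟨z, h₁.le _ (hs₁ hz), a2 (hs₁ hz)⟩

end Pool.Agent.KSing
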