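import Pool.Agent.KSing.GlueS
import Pool.Agent.KSing.Umb
import Pool.Agent.KSing.Asm

/-! Towers of side joins, and umbrellas that carry a piece or the reversed piece. -/

set_option autoImplicit false

open Set

namespace Pool.Agent.KSing

open Pool.Agent.LK Pool.Agent.KTube Pool.Agent.KTen

/-- `Tow l R`: the polygon `R` is made from an unknotted polygon by successive side joins with the
knotted pieces in the list `l` (the head of the list is joined last). -/
inductive Tow : List (ES × ℕ × ℤ) → ES → Prop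
  | nil {R : ES} : IsPolygon R → Unknotted R → Tow [] R
  | cons {l : List (ES × ℕ × ℤ)} {R K0 : ES} {h : ℕ} {z k : ℤ} {a b : ℤ × ℤ} : Tow l R →
      LeftOf K0 h z → ¬ Unknotted K0 → cross R k = {a, b} → Lex a b →
      Tow ((K0, h, z) :: l) (insK K0 h z a R k)

theorem Tow.poly {l : List (ES × ℕ × ℤ)} {R : ES} (hR : Tow l R) : IsPolygon R := by
  induction hR with
  | nil h _ => exact h
  | cons _ hK _ hc hab ih => exact insK_poly hK ih hc hab

theorem Tow.left {l : List (ES × ℕ × ℤ)} {R : ES} (hR : Tow l R) :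
    ∀ d ∈ l, LeftOf d.1 d.2.1 d.2.2 ∧ ¬ Unknotted d.1 := by
  induction hR with
  | nil _ _ => simp
  | cons _ hK hn _ _ ih =>
    intro d hd
    rcases List.mem_cons.1 hd with rfl | hd
    · exact ⟨hK, hn⟩
    · exact ih d hd

/-- The piece or the reversed piece. -/
def pcK (K0 : ES) (h : ℕ) (s : Bool) : ES := if s then K0 else rvK K0 h

/-- The level of the edge of the piece or of the reversed piece. -/
def pcz (h : ℕ) (z : ℤ) (s : Bool) : ℤ := if s then z else h - z

variable {K0 T V P : ES} {h : ℕ} {z k : ℤ} {a b : ℤ × ℤ} {W H : ℤ} {g : ℕ}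

theorem pc_left (hK : LeftOf K0 h z) (s : Bool) : LeftOf (pcK K0 h s) h (pcz h z s) := by
  cases s
  · exact leftOf_rvK hK
  · exact hK

theorem pc_bd (hKW : ∀ u ∈ verts K0, |u.1| ≤ W - 1 ∧ |u.2.1| ≤ W - 1) (s : Bool) :
    ∀ u ∈ verts (pcK K0 h s), |u.1| ≤ W - 1 ∧ |u.2.1| ≤ W - 1 := by
  cases s
  · exact rvK_bd hKW
  · exact hKW

theorem pc_type (s : Bool) : SameType K0 (pcK K0 h s) := by
  cases s
  · exact ⟨rtH (h + 1), (body_rt (h + 1) K0).symm⟩
  · exact ⟨Homeomorph.refl _, by simp [pcK]⟩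

/-- Nothing, or the piece, or the reversed piece is joined at the mast. -/
noncomputable def att (K0 : ES) (h : ℕ) (z : ℤ) (s : Option Bool) (a : ℤ × ℤ) (T : ES) (k : ℤ) :
    ES := match s with
  | none => T
  | some s => sj (pcK K0 h s) (pcz h z s) a T k

theorem att_none : att K0 h z none a T k = T := rfl

theorem att_some (s : Bool) : att K0 h z (some s) a T k = sj (pcK K0 h s) (pcz h z s) a T k := rfl

/-- All vertices persist. -/
theorem verts_att (s : Option Bool) {u : P3} (hu : u ∈ verts T) : u ∈ verts (att K0 h z s a T k) := by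
  cases s with
  | none => exact hu
  | some s =>
    rw [att_some]
    obtain ⟨v, hv⟩ := hu
    by_cases he : s(u, v) = s((a.1, a.2, k + pcz h z s), (a.1, a.2, k + pcz h z s + 1))
    · rw [Sym2.eq_iff] at he
      rcases he with ⟨rfl, -⟩ | ⟨rfl, -⟩
      · exact right_mem_verts (sj_mem.2 (Or.inr (Or.inr (Or.inl rfl))))
      · exact right_mem_verts (sj_mem.2 (Or.inr (Or.inr (Or.inr rfl))))
    · exact ⟨v, sj_mem.2 (Or.inl ⟨hv, he⟩)⟩

theorem isPolygon_att (s : Option Bool) (hK : LeftOf K0 h z) (hT : IsPolygon T)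
    (hKW : ∀ u ∈ verts K0, |u.1| ≤ W - 1 ∧ |u.2.1| ≤ W - 1) (hM : Mast T a b k h W) :
    IsPolygon (att K0 h z s a T k) := by
  cases s with
  | none => exact hT
  | some s => exact isPolygon_sj (pc_left hK s) hT (pc_bd hKW s) hM

/-- The mast of an umbrella. -/
theorem Umb.mast (hV : Umb V W H g) (hk : H ≤ k) (hg : k + h + 1 ≤ H + g) (W' : ℤ) :
    Mast V (0, 0) (1, 0) k h W' := by
  refine ⟨⟨by norm_num, by simp⟩, ?_, ?_, ?_⟩
  · intro i hi
    have h1 := hV.colA (k - H + i).toNat (by omega)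
    have e : H + (((k - H + i).toNat : ℕ) : ℤ) = k + i := by omega
    rwa [e] at h1
  · intro i hi
    have h1 := hV.colB (k - H + i).toNat (by omega)
    have e : H + (((k - H + i).toNat : ℕ) : ℤ) = k + i := by omega
    rwa [e] at h1
  · intro u hu _ _ h3 _
    exact hV.high u hu (by omega)

/-- The types of the umbrellas with pieces. -/
def Kt {N : ℕ} (V : ES) (K0 : Fin N → ES) (σ : Fin N → Option Bool) : Fin N → ES := fun j =>
  match σ j with
  | none => V
  | some _ => K0 j

/-- The umbrellas with pieces. -/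
noncomputable def Xs {N : ℕ} (V : ES) (k : ℤ) (K0 : Fin N → ES) (h : Fin N → ℕ) (z : Fin N → ℤ)
    (σ : Fin N → Option Bool) : Fin N → ES := fun j => att (K0 j) (h j) (z j) (σ j) (0, 0) V k

theorem bigGroup_top : BigGroup ⊤ := ⟨fun _ => Subgroup.mem_top _, fun _ _ => Subgroup.mem_top _⟩

end Pool.Agent.KSing
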