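import Pool.Agent.KSing.LocalC
import Pool.Agent.KTen.Conn
import Pool.Agent.KTen.PlaceU
import Pool.Agent.MP_aea6d5_co.PolyClosed

/-! Side joins at masts: polygon, type, and the comparison with side joins at sections. -/

set_option autoImplicit false

open Set

namespace Pool.Agent.KSing

open Pool.Agent.LK Pool.Agent.KTube Pool.Agent.KTen

variable {K0 T E F R : ES} {h : ℕ} {z k k0 t : ℤ} {a b a0 b0 : ℤ × ℤ} {W : ℤ}

theorem mast_stretch (hc : cross E k = {a, b}) (hab : WLex a b) (W : ℤ) :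
    Mast (stretch E k h) a b k h W := by
  refine ⟨hab, ?_, ?_, ?_⟩
  · intro i hi
    exact mem_stretch.2 (Or.inr (Or.inr ⟨a.1, a.2, i, hi, wlex_edge hc, rfl⟩))
  · intro i hi
    have : b ∈ cross E k := by rw [hc]; exact Or.inr rfl
    exact mem_stretch.2 (Or.inr (Or.inr ⟨b.1, b.2, i, hi, this, rfl⟩))
  · intro u hu _ _ h3 h4
    rcases verts_stretch hu with ⟨-, h5⟩ | ⟨-, h5⟩ | ⟨h5, -, -⟩
    · omega
    · omega
    · rw [hc] at h5
      exact h5

/-- The vertices of the translated piece. -/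
theorem piece_vert (hK : LeftOf K0 h z) (hKW : ∀ u ∈ verts K0, |u.1| ≤ W - 1 ∧ |u.2.1| ≤ W - 1)
    {u : P3} (hu : u ∈ verts (shift (a.1, a.2, k) K0)) :
    u.1 ≤ a.1 - 1 ∧ |u.1 - a.1| ≤ W - 1 ∧ |u.2.1 - a.2| ≤ W - 1 ∧ k + 1 ≤ u.2.2 ∧
      u.2.2 ≤ k + h := by
  have h0 := mem_verts_shift.1 hu
  have h1 := hK.left _ h0
  have h2 := hK.lev _ h0
  have h3 := hKW _ h0
  simp only [Prod.fst_sub, Prod.snd_sub] at h1 h2 h3
  exact ⟨by omega, h3.1, h3.2, by omega, by omega⟩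

/-- The translated piece is disjoint from the polygon. -/
theorem piece_disj (hK : LeftOf K0 h z) (hKW : ∀ u ∈ verts K0, |u.1| ≤ W - 1 ∧ |u.2.1| ≤ W - 1)
    (hM : Mast T a b k h W) : ∀ u ∈ verts (shift (a.1, a.2, k) K0), u ∉ verts T := by
  intro u hu huT
  obtain ⟨h1, h2, h3, h4, h5⟩ := piece_vert hK hKW hu
  have h6 := hM.free u huT (by omega) (by omega) h4 h5
  have h7 := hM.wlex.1
  rcases h6 with h6 | h6
  · rw [← h6] at h1
    simp only at h1
    omega
  · rw [← h6] at h7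
    simp only at h7
    omega

theorem piece_edge (hK : LeftOf K0 h z) :
    s(((a.1 - 1, a.2, k + z) : P3), (a.1 - 1, a.2, k + z + 1)) ∈ shift (a.1, a.2, k) K0 := by
  rw [mem_shift]
  have e1 : ((a.1 - 1, a.2, k + z) : P3) - (a.1, a.2, k) = (-1, 0, z) := by
    simp only [Prod.mk_sub_mk, Prod.mk.injEq]
    refine ⟨by ring, by ring, by ring⟩
  have e2 : ((a.1 - 1, a.2, k + z + 1) : P3) - (a.1, a.2, k) = (-1, 0, z + 1) := by
    simp only [Prod.mk_sub_mk, Prod.mk.injEq]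
    refine ⟨by ring, by ring, by ring⟩
  rw [e1, e2]
  exact hK.edge

theorem mast_edge (hK : LeftOf K0 h z) (hM : Mast T a b k h W) :
    s(((a.1, a.2, k + z) : P3), (a.1, a.2, k + z + 1)) ∈ T := by
  obtain ⟨z1, z2⟩ := leftOf_z hK
  have h1 := hM.colA z.toNat (by omega)
  have e : ((z.toNat : ℕ) : ℤ) = z := by omega
  rwa [e] at h1

theorem isPolygon_sj (hK : LeftOf K0 h z) (hT : IsPolygon T)
    (hKW : ∀ u ∈ verts K0, |u.1| ≤ W - 1 ∧ |u.2.1| ≤ W - 1) (hM : Mast T a b k h W) :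
    IsPolygon (sj K0 z a T k) := by
  have h1 := join_general (isPolygon_shift hK.poly (a.1, a.2, k)) hT (piece_disj hK hKW hM)
    (piece_edge (a := a) (k := k) hK) (mast_edge hK hM)
    (show Adj (a.1 - 1, a.2, k + z) (a.1, a.2, k + z) by simp [Adj])
    (show Adj (a.1 - 1, a.2, k + z + 1) (a.1, a.2, k + z + 1) by simp [Adj])
  have e : sj K0 z a T k = (shift (a.1, a.2, k) K0 \
      {s((a.1 - 1, a.2, k + z), (a.1 - 1, a.2, k + z + 1))}) ∪
      (T \ {s((a.1, a.2, k + z), (a.1, a.2, k + z + 1))}) ∪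
      {s((a.1 - 1, a.2, k + z), (a.1, a.2, k + z)),
        s((a.1 - 1, a.2, k + z + 1), (a.1, a.2, k + z + 1))} := by
    unfold sj
    rw [Finset.union_comm (T \ _)]
  rw [e]
  exact h1

/-- The side join of an unknotted polygon with a mast. -/
theorem sj_type (hK : LeftOf K0 h z) (hT : IsPolygon T) (uT : Unknotted T) (hW : 2 ≤ W)
    (hKW : ∀ u ∈ verts K0, |u.1| ≤ W - 1 ∧ |u.2.1| ≤ W - 1) (hM : Mast T a b k h W) :
    SameType K0 (sj K0 z a T k) := by
  obtain ⟨G, hG, uG, cG⟩ := exists_unknot_two (a := (0, 0)) (b := (1, 0)) (by simp) 0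
  have hlex : Lex (0, 0) (1, 0) := Or.inl (by norm_num)
  have h1 : Cong G T := cong_unknotted hG hT uG uT
  have h2 : Cong (stretch G 0 h) T :=
    (cong_stretch hG 0 h).symm.trans hG h1
  have hS := (stretchStatement G 0 h hG).1
  have hM0 := mast_stretch (h := h) cG hlex.weak W
  have hp1 := insK_poly hK hG cG hlex
  have hp2 := insK_poly (leftOf_rvK hK) hG cG hlex
  have ht1 := insK_type hK hG cG hlex uG
  have ht2 := insK_type (leftOf_rvK hK) hG cG hlex uG
  have hpT := isPolygon_sj hK hT hKW hM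
  have hr : SameType K0 (rvK K0 h) := ⟨rtH (h + 1), (body_rt (h + 1) K0).symm⟩
  rcases cong_sj hK hT hS h2.symm hW hW hKW hKW hM hM0 with h3 | h3
  · exact ht1.trans (h3.sameType hpT hp1).symm
  · exact (hr.trans ht2).trans (h3.sameType hpT hp2).symm

/-- **Comparison with a side join at a section.** -/
theorem cong_insK_sj (hK : LeftOf K0 h z) (hR : IsPolygon R) (hT : IsPolygon T)
    (hRT : Cong R T) (hW : 2 ≤ W) (hKW : ∀ u ∈ verts K0, |u.1| ≤ W - 1 ∧ |u.2.1| ≤ W - 1)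
    (hc : cross R k0 = {a0, b0}) (hab : WLex a0 b0) (hM : Mast T a b k h W) :
    Cong (insK K0 h z a0 R k0) (sj K0 z a T k) ∨
      Cong (insK K0 h z a0 R k0) (sj (rvK K0 h) (h - z) a T k) := by
  have hS := (stretchStatement R k0 h hR).1
  have h2 : Cong (stretch R k0 h) T := (cong_stretch hR k0 h).symm.trans hR hRT
  exact cong_sj hK hS hT h2 hW hW hKW hKW (mast_stretch hc hab W) hM

end Pool.Agent.KSing
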